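import Mathlib
import Pool.Agent.Helper265.BrK

/-!
# Koebe distortion in the form used below
-/

set_option autoImplicit false
open Set Filter Topology Metric

namespace Pool.Agent.W746.LD

/-- A univalent function on the ball `ball a r`. -/
def Univ (φ : ℂ → ℂ) (a : ℂ) (r : ℝ) : Prop :=
  DifferentiableOn ℂ φ (ball a r) ∧ InjOn φ (ball a r)

theorem Univ.mono {φ : ℂ → ℂ} {a a' : ℂ} {r r' : ℝ} (h : Univ φ a r) (hsub : ball a' r' ⊆ ball a r) :
    Univ φ a' r' := ⟨h.1.mono hsub, h.2.mono hsub⟩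

/-- The two Koebe constants. -/
structure KC (C0 c0 : ℝ) : Prop where
  one_le : 1 ≤ C0
  pos : 0 < c0
  le : c0 ≤ 1 / 4
  kdist : ∀ (φ : ℂ → ℂ) (z : ℂ) (r : ℝ), 0 < r → Univ φ z r → ∀ w : ℂ, ‖w - z‖ ≤ r / 4 →
      ‖deriv φ w‖ ≤ C0 * ‖deriv φ z‖ ∧ ‖deriv φ z‖ ≤ C0 * ‖deriv φ w‖
  komit : ∀ (φ : ℂ → ℂ) (z : ℂ) (r : ℝ), 0 < r → Univ φ z r → ∀ a : ℂ,
    (∀ w ∈ ball z r, φ w ≠ a) → c0 * r * ‖deriv φ z‖ ≤ ‖φ z - a‖

theorem exists_KC : ∃ C0 c0 : ℝ, KC C0 c0 := by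
  obtain ⟨C, hC, h⟩ := Pool.Agent.Helper265.Br.distortion
  obtain ⟨c, hc, h'⟩ := Pool.Agent.Helper265.Br.koebe_omit
  refine ⟨C, min c (1 / 4), hC, by positivity, min_le_right _ _, ?_, ?_⟩
  · intro φ z r hr hu w hw
    exact h φ z r hr hu.1 hu.2 w hw
  · intro φ z r hr hu a ha
    have h1 := h' φ z r hr hu.1 hu.2 a (by rintro ⟨w, hw, hwa⟩; exact ha w hw hwa)
    refine le_trans ?_ h1
    gcongr
    exact min_le_left _ _

/-- The mean value form. -/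
theorem KC.lip {C0 c0 : ℝ} (K : KC C0 c0) {φ : ℂ → ℂ} {z : ℂ} {r : ℝ} (hr : 0 < r)
    (hu : Univ φ z r) {w : ℂ} (hw : ‖w - z‖ ≤ r / 4) :
    ‖φ w - φ z‖ ≤ C0 * ‖deriv φ z‖ * ‖w - z‖ := by
  have hconv : Convex ℝ (closedBall z (r / 4)) := convex_closedBall z _
  have hsub : closedBall z (r / 4) ⊆ ball z r := closedBall_subset_ball (by linarith)
  refine hconv.norm_image_sub_le_of_norm_deriv_le (𝕜 := ℂ) (f := φ) (C := C0 * ‖deriv φ z‖) ?_ ?_ ?_ ?_
  · intro x hx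
    exact hu.1.differentiableAt (isOpen_ball.mem_nhds (hsub hx))
  · intro x hx
    rw [mem_closedBall, dist_eq_norm] at hx
    exact (K.kdist φ z r hr hu x hx).1
  · exact mem_closedBall_self (by linarith)
  · rw [mem_closedBall, dist_eq_norm]; exact hw

/-- Harnack chain. -/
theorem KC.chain {C0 c0 : ℝ} (K : KC C0 c0) {η B : ℝ} (hη : 0 < η) (hB : 0 < B) :
    ∃ M : ℝ, 1 ≤ M ∧ ∀ (φ : ℂ → ℂ) (x : ℂ) (ϱ : ℝ), 0 ≤ ϱ → ϱ ≤ B → Univ φ x (ϱ + η) →
      ∀ a ∈ closedBall x ϱ, ∀ w ∈ closedBall x ϱ,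
        ‖deriv φ w‖ ≤ M * ‖deriv φ a‖ ∧ ‖φ w - φ a‖ ≤ M * ‖deriv φ a‖ := by
  obtain ⟨N, hN⟩ := exists_nat_ge (8 * B / η)
  have hC1 := K.one_le
  have hN0 : (0 : ℝ) < N := lt_of_lt_of_le (by positivity) hN
  refine ⟨C0 ^ (N + 1) * (1 + N * η), ?_, ?_⟩
  · have h1 : (1 : ℝ) ≤ C0 ^ (N + 1) := one_le_pow₀ hC1
    have h2 : (1 : ℝ) ≤ 1 + N * η := by nlinarith
    nlinarith
  intro φ x ϱ hϱ0 hϱB hu a ha w hw
  set y : ℕ → ℂ := fun i => a + ((i : ℝ) / N : ℝ) • (w - a) with hy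
  have hyN : y N = w := by
    simp only [hy]
    rw [div_self hN0.ne', one_smul]
    ring
  have hy0 : y 0 = a := by simp [hy]
  have hymem : ∀ i ≤ N, y i ∈ closedBall x ϱ := by
    intro i hi
    have hiN : (i : ℝ) ≤ N := by exact_mod_cast hi
    have := (convex_closedBall x ϱ) ha hw (a := 1 - (i : ℝ) / N) (b := (i : ℝ) / N)
      (by rw [sub_nonneg, div_le_one hN0]; exact hiN) (by positivity) (by ring)
    convert this using 1
    simp only [hy, sub_smul, one_smul, smul_sub]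
    ring
  have hstep : ∀ i, ‖y (i + 1) - y i‖ ≤ η / 4 := by
    intro i
    have e : y (i + 1) - y i = ((1 : ℝ) / N) • (w - a) := by
      simp only [hy]
      rw [show (((i + 1 : ℕ) : ℝ) / N) = (i : ℝ) / N + 1 / N by push_cast; ring, add_smul]
      ring
    rw [e, norm_smul, Real.norm_of_nonneg (by positivity)]
    have h1 : ‖w - a‖ ≤ 2 * B := by
      rw [mem_closedBall, dist_eq_norm] at ha hw
      calc ‖w - a‖ = ‖(w - x) - (a - x)‖ := by congr 1; ring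
        _ ≤ ‖w - x‖ + ‖a - x‖ := norm_sub_le _ _
        _ ≤ 2 * B := by linarith
    rw [div_le_iff₀ hη] at hN
    rw [div_mul_eq_mul_div, one_mul, div_le_iff₀ hN0]
    nlinarith
  have hball : ∀ i ≤ N, Univ φ (y i) η := by
    intro i hi
    apply hu.mono
    intro u hu'
    have h1 := hymem i hi
    rw [mem_closedBall] at h1
    rw [mem_ball] at hu' ⊢
    calc dist u x ≤ dist u (y i) + dist (y i) x := dist_triangle _ _ _
      _ < ϱ + η := by linarith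
  have hd : ∀ i ≤ N, ‖deriv φ (y i)‖ ≤ C0 ^ i * ‖deriv φ a‖ := by
    intro i
    induction i with
    | zero => intro _; rw [hy0]; simp
    | succ i ih =>
      intro hi
      have h1 := (K.kdist φ (y i) η hη (hball i (by omega)) (y (i + 1)) (hstep i)).1
      have h2 := ih (by omega)
      calc ‖deriv φ (y (i + 1))‖ ≤ C0 * ‖deriv φ (y i)‖ := h1
        _ ≤ C0 * (C0 ^ i * ‖deriv φ a‖) := by gcongr
        _ = _ := by ring
  have hv : ∀ i ≤ N, ‖φ (y i) - φ a‖ ≤ i * (C0 ^ (N + 1) * η * ‖deriv φ a‖) := by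
    intro i
    induction i with
    | zero => intro _; rw [hy0]; simp
    | succ i ih =>
      intro hi
      have h1 := K.lip hη (hball i (by omega)) (hstep i)
      have h2 := ih (by omega)
      have h3 := hd i (by omega)
      have h4 : C0 * ‖deriv φ (y i)‖ * ‖y (i + 1) - y i‖ ≤ C0 ^ (N + 1) * η * ‖deriv φ a‖ := by
        calc C0 * ‖deriv φ (y i)‖ * ‖y (i + 1) - y i‖ ≤ C0 * (C0 ^ i * ‖deriv φ a‖) * η := by
              gcongr
              exact (hstep i).trans (by linarith)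
          _ = C0 ^ (i + 1) * η * ‖deriv φ a‖ := by ring
          _ ≤ C0 ^ (N + 1) * η * ‖deriv φ a‖ := by
              gcongr
              omega
      calc ‖φ (y (i + 1)) - φ a‖ = ‖(φ (y (i + 1)) - φ (y i)) + (φ (y i) - φ a)‖ := by
            congr 1; ring
        _ ≤ ‖φ (y (i + 1)) - φ (y i)‖ + ‖φ (y i) - φ a‖ := norm_add_le _ _
        _ ≤ C0 ^ (N + 1) * η * ‖deriv φ a‖ + i * (C0 ^ (N + 1) * η * ‖deriv φ a‖) := by
            linarith
        _ = _ := by push_cast; ring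
  have h1 := hd N le_rfl
  have h2 := hv N le_rfl
  rw [hyN] at h1 h2
  have hp : (0 : ℝ) ≤ C0 ^ (N + 1) * ‖deriv φ a‖ := by positivity
  constructor
  · calc ‖deriv φ w‖ ≤ C0 ^ N * ‖deriv φ a‖ := h1
      _ ≤ C0 ^ (N + 1) * ‖deriv φ a‖ := by
          gcongr
          omega
      _ ≤ C0 ^ (N + 1) * (1 + N * η) * ‖deriv φ a‖ := by
          have : 0 ≤ (N : ℝ) * η := by positivity
          nlinarith
  · calc ‖φ w - φ a‖ ≤ N * (C0 ^ (N + 1) * η * ‖deriv φ a‖) := h2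
      _ ≤ C0 ^ (N + 1) * (1 + N * η) * ‖deriv φ a‖ := by
          nlinarith

end Pool.Agent.W746.LD
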