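import Mathlib
import Pool.Agent.H712R2.Par
import Pool.Agent.W746.LD.Koebe

/-!
# Orbits, derivatives along orbits, and sums of inverse derivatives for `z ^ n + c`
-/

set_option autoImplicit false
open Set Filter Topology Metric Finset

namespace Pool.Agent.W746.LD

/-- The map `z ↦ z ^ n + c`. -/
def f (n : ℕ) (c : ℂ) (z : ℂ) : ℂ := z ^ n + c

/-- The orbit of `z`. -/
def orb (n : ℕ) (c z : ℂ) (k : ℕ) : ℂ := (f n c)^[k] z

/-- The derivative of the `k`-th iterate at `z`. -/
noncomputable def P (n : ℕ) (c z : ℂ) (k : ℕ) : ℂ := ∏ i ∈ range k, ((n : ℂ) * (orb n c z i) ^ (n - 1))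

/-- The sum of the inverse derivatives. -/
noncomputable def S (n : ℕ) (c z : ℂ) (N : ℕ) : ℂ := ∑ i ∈ range N, (P n c z i)⁻¹

variable {n : ℕ} {c : ℂ}

@[simp] theorem orb_zero (z : ℂ) : orb n c z 0 = z := rfl

theorem orb_succ (z : ℂ) (k : ℕ) : orb n c z (k + 1) = (orb n c z k) ^ n + c := by
  simp only [orb, Function.iterate_succ_apply', f]

theorem orb_one (z : ℂ) : orb n c z 1 = z ^ n + c := by rw [orb_succ, orb_zero]

theorem orb_add (z : ℂ) (k l : ℕ) : orb n c z (k + l) = orb n c (orb n c z k) l := by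
  simp only [orb]
  rw [add_comm, Function.iterate_add_apply]

@[simp] theorem P_zero (z : ℂ) : P n c z 0 = 1 := by simp [P]

theorem P_succ (z : ℂ) (k : ℕ) : P n c z (k + 1) = P n c z k * (n * (orb n c z k) ^ (n - 1)) := by
  simp only [P, prod_range_succ]

theorem P_add (z : ℂ) (k l : ℕ) : P n c z (k + l) = P n c z k * P n c (orb n c z k) l := by
  simp only [P]
  rw [prod_range_add]
  congr 1
  apply prod_congr rfl
  intro i _
  rw [orb_add]

@[simp] theorem S_zero (z : ℂ) : S n c z 0 = 0 := by simp [S]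

theorem S_one (z : ℂ) : S n c z 1 = 1 := by simp [S]

theorem S_succ (z : ℂ) (k : ℕ) : S n c z (k + 1) = S n c z k + (P n c z k)⁻¹ := by
  simp only [S, sum_range_succ]

theorem S_add (z : ℂ) (k l : ℕ) :
    S n c z (k + l) = S n c z k + (P n c z k)⁻¹ * S n c (orb n c z k) l := by
  simp only [S]
  rw [sum_range_add, mul_sum]
  congr 1
  apply sum_congr rfl
  intro i _
  rw [P_add, mul_inv]

theorem hasDerivAt_orb (z : ℂ) (k : ℕ) : HasDerivAt (fun z => orb n c z k) (P n c z k) z := by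
  induction k with
  | zero =>
    simp only [orb_zero, P_zero]
    exact hasDerivAt_id z
  | succ k ih =>
    have h : (fun z => orb n c z (k + 1)) = fun z => (orb n c z k) ^ n + c := by
      funext z; exact orb_succ z k
    rw [h, P_succ]
    have h1 := (ih.fun_pow n).add_const c
    refine h1.congr_deriv ?_
    ring

theorem norm_orb_succ_sub (z : ℂ) (k : ℕ) : ‖orb n c z (k + 1) - c‖ = ‖orb n c z k‖ ^ n := by
  rw [orb_succ, add_sub_cancel_right, norm_pow]

theorem norm_P_succ (z : ℂ) (k : ℕ) :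
    ‖P n c z (k + 1)‖ = ‖P n c z k‖ * (n * ‖orb n c z k‖ ^ (n - 1)) := by
  rw [P_succ, norm_mul, norm_mul, norm_pow, Complex.norm_natCast]

/-- The orbit avoids `0` before time `k` if the derivative at time `k` is not zero. -/
theorem orb_ne_zero_of_P {z : ℂ} (hn : 2 ≤ n) {k i : ℕ} (h : P n c z k ≠ 0) (hi : i < k) :
    orb n c z i ≠ 0 := by
  intro h0
  apply h
  apply prod_eq_zero (Finset.mem_range.mpr hi)
  rw [h0, zero_pow (by omega), mul_zero]

theorem P_ne_zero {z : ℂ} (hn : 2 ≤ n) {k : ℕ} (h : ∀ i < k, orb n c z i ≠ 0) : P n c z k ≠ 0 := by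
  apply prod_ne_zero_iff.mpr
  intro i hi
  rw [Finset.mem_range] at hi
  have : (n : ℂ) ≠ 0 := by exact_mod_cast (by omega : n ≠ 0)
  exact mul_ne_zero this (pow_ne_zero _ (h i hi))

theorem orb_ne_zero_of_ne {z : ℂ} (hn : 2 ≤ n) {i : ℕ} (h : orb n c z (i + 1) ≠ c) :
    orb n c z i ≠ 0 := by
  intro h0
  apply h
  rw [orb_succ, h0, zero_pow (by omega), zero_add]

end Pool.Agent.W746.LD
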