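import Mathlib
import Pool.Agent.W746.LD.Basic

/-!
# Univalent pull-backs in the logarithmic coordinate
-/

set_option autoImplicit false
open Set Filter Topology Metric

namespace Pool.Agent.W746.LD

/-- `g` is a holomorphic branch on `U` of the inverse of `z ↦ n log (f^b z)`, whose image avoids the
critical points and the first `b - 1` preimages of the critical value. -/
structure IsChain (n : ℕ) (c : ℂ) (b : ℕ) (U : Set ℂ) (g : ℂ → ℂ) : Prop where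
  diff : DifferentiableOn ℂ g U
  eq : ∀ ζ ∈ U, orb n c (g ζ) b = Complex.exp (ζ / n)
  ne : ∀ ζ ∈ U, ∀ j, 1 ≤ j → j ≤ b → orb n c (g ζ) j ≠ c

variable {n : ℕ} {c : ℂ} {b : ℕ} {U : Set ℂ} {g : ℂ → ℂ}

theorem IsChain.mono (h : IsChain n c b U g) {V : Set ℂ} (hV : V ⊆ U) : IsChain n c b V g :=
  ⟨h.diff.mono hV, fun ζ hζ => h.eq ζ (hV hζ), fun ζ hζ => h.ne ζ (hV hζ)⟩

/-- The chain of length `0`. -/
theorem isChain_zero (U : Set ℂ) : IsChain n c 0 U (fun ζ => Complex.exp (ζ / n)) :=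
  ⟨by fun_prop, fun _ _ => rfl, fun _ _ j h1 h2 => by omega⟩

theorem IsChain.orb_ne_zero (hn : 2 ≤ n) (h : IsChain n c b U g) {ζ : ℂ} (hζ : ζ ∈ U) {j : ℕ}
    (hj : j ≤ b) : orb n c (g ζ) j ≠ 0 := by
  rcases hj.lt_or_eq with hj | rfl
  · exact orb_ne_zero_of_ne hn (h.ne ζ hζ (j + 1) (by omega) (by omega))
  · rw [h.eq ζ hζ]; exact Complex.exp_ne_zero _

theorem IsChain.P_ne_zero (hn : 2 ≤ n) (h : IsChain n c b U g) {ζ : ℂ} (hζ : ζ ∈ U) {j : ℕ}
    (hj : j ≤ b + 1) : P n c (g ζ) j ≠ 0 :=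
  LD.P_ne_zero hn fun i hi => h.orb_ne_zero hn hζ (by omega)

theorem exp_pow (hn : 2 ≤ n) (ζ : ℂ) : Complex.exp (ζ / n) ^ n = Complex.exp ζ := by
  have : (n : ℂ) ≠ 0 := by exact_mod_cast (by omega : n ≠ 0)
  rw [← Complex.exp_nat_mul]
  congr 1
  field_simp

/-- The next point of the orbit. -/
theorem IsChain.orb_succ_b (hn : 2 ≤ n) (h : IsChain n c b U g) {ζ : ℂ} (hζ : ζ ∈ U) :
    orb n c (g ζ) (b + 1) = Complex.exp ζ + c := by
  rw [orb_succ, h.eq ζ hζ, exp_pow hn]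

theorem IsChain.norm_sub (hn : 2 ≤ n) (h : IsChain n c b U g) {ζ : ℂ} (hζ : ζ ∈ U) :
    ‖orb n c (g ζ) (b + 1) - c‖ = Real.exp ζ.re := by
  rw [h.orb_succ_b hn hζ, add_sub_cancel_right, Complex.norm_exp]

theorem IsChain.hasDerivAt (hU : IsOpen U) (h : IsChain n c b U g) {ζ : ℂ} (hζ : ζ ∈ U) :
    HasDerivAt g (deriv g ζ) ζ :=
  (h.diff.differentiableAt (hU.mem_nhds hζ)).hasDerivAt

/-- The intermediate maps. -/
theorem IsChain.hasDerivAt_orb (hU : IsOpen U) (h : IsChain n c b U g) {ζ : ℂ} (hζ : ζ ∈ U) (j : ℕ) :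
    HasDerivAt (fun ζ => orb n c (g ζ) j) (P n c (g ζ) j * deriv g ζ) ζ :=
  (LD.hasDerivAt_orb (n := n) (c := c) (g ζ) j).comp ζ (h.hasDerivAt hU hζ)

theorem IsChain.diff_orb (hU : IsOpen U) (h : IsChain n c b U g) (j : ℕ) :
    DifferentiableOn ℂ (fun ζ => orb n c (g ζ) j) U :=
  fun _ hζ => (h.hasDerivAt_orb hU hζ j).differentiableAt.differentiableWithinAt

/-- The derivative of a chain. -/
theorem IsChain.P_mul_deriv (hn : 2 ≤ n) (hU : IsOpen U) (h : IsChain n c b U g) {ζ : ℂ}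
    (hζ : ζ ∈ U) : P n c (g ζ) b * deriv g ζ = Complex.exp (ζ / n) / n := by
  have h1 := h.hasDerivAt_orb hU hζ b
  have h2 : HasDerivAt (fun ζ : ℂ => Complex.exp (ζ / n)) (Complex.exp (ζ / n) * (1 / n)) ζ := by
    exact ((hasDerivAt_id ζ).div_const (n : ℂ)).cexp
  have h3 : (fun ζ => orb n c (g ζ) b) =ᶠ[𝓝 ζ] fun ζ => Complex.exp (ζ / n) := by
    filter_upwards [hU.mem_nhds hζ] with w hw using h.eq w hw
  have h4 := h1.unique (h2.congr_of_eventuallyEq h3)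
  rw [h4]; ring

theorem IsChain.norm_deriv (hn : 2 ≤ n) (hU : IsOpen U) (h : IsChain n c b U g) {ζ : ℂ}
    (hζ : ζ ∈ U) : ‖deriv g ζ‖ * ‖P n c (g ζ) (b + 1)‖ = Real.exp ζ.re := by
  have h1 := h.P_mul_deriv hn hU hζ
  have hn0 : (0 : ℝ) < n := by exact_mod_cast (by omega : 0 < n)
  rw [norm_P_succ, h.eq ζ hζ]
  have h2 : ‖P n c (g ζ) b‖ * ‖deriv g ζ‖ = ‖Complex.exp (ζ / n)‖ / n := by
    rw [← norm_mul, h1, norm_div, Complex.norm_natCast]
  calc ‖deriv g ζ‖ * (‖P n c (g ζ) b‖ * (n * ‖Complex.exp (ζ / n)‖ ^ (n - 1)))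
      = (‖P n c (g ζ) b‖ * ‖deriv g ζ‖) * (n * ‖Complex.exp (ζ / n)‖ ^ (n - 1)) := by ring
    _ = ‖Complex.exp (ζ / n)‖ ^ (n - 1 + 1) := by rw [h2, pow_succ]; field_simp
    _ = ‖Complex.exp (ζ / n) ^ n‖ := by rw [norm_pow, Nat.sub_add_cancel (by omega)]
    _ = Real.exp ζ.re := by rw [exp_pow hn, Complex.norm_exp]

/-- The exponential is injective on small balls. -/
theorem exp_div_inj (hn : 2 ≤ n) {a : ℂ} {r : ℝ} (hr : r ≤ Real.pi * n) :
    InjOn (fun ζ : ℂ => Complex.exp (ζ / n)) (ball a r) := by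
  intro x hx y hy hxy
  have hn0 : (n : ℂ) ≠ 0 := by exact_mod_cast (by omega : n ≠ 0)
  have hn0' : (0 : ℝ) < n := by exact_mod_cast (by omega : 0 < n)
  rw [mem_ball, dist_eq_norm] at hx hy
  have h1 : Complex.exp (x / n) = Complex.exp (y / n) := hxy
  obtain ⟨k, hk⟩ := Complex.exp_eq_exp_iff_exists_int.mp h1
  have h2 : x - y = n * (k * (2 * Real.pi * Complex.I)) := by
    field_simp at hk
    rw [hk]; ring
  have h3 : ‖x - y‖ < 2 * (Real.pi * n) := by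
    calc ‖x - y‖ = ‖(x - a) - (y - a)‖ := by congr 1; ring
      _ ≤ ‖x - a‖ + ‖y - a‖ := norm_sub_le _ _
      _ < 2 * (Real.pi * n) := by linarith
  rw [h2] at h3
  simp only [norm_mul, Complex.norm_natCast, Complex.norm_intCast, Complex.norm_I, mul_one,
    Complex.norm_ofNat, Complex.norm_real, Real.norm_eq_abs, abs_of_pos Real.pi_pos] at h3
  have h4 : |(k : ℝ)| < 1 := by
    have : (n : ℝ) * (|(k : ℝ)| * (2 * Real.pi)) = (2 * (Real.pi * n)) * |(k : ℝ)| := by ring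
    rw [this] at h3
    have h5 : 0 < 2 * (Real.pi * n) := by have := Real.pi_pos; positivity
    nlinarith [abs_nonneg (k : ℝ)]
  have h5 : k = 0 := by
    have : |k| < 1 := by exact_mod_cast h4
    rwa [Int.abs_lt_one_iff] at this
  rw [h5] at h2
  simp only [Int.cast_zero, zero_mul, mul_zero] at h2
  exact sub_eq_zero.mp h2

theorem IsChain.injOn_orb (hn : 2 ≤ n) {a : ℂ} {r : ℝ} (hr : r ≤ Real.pi * n)
    (h : IsChain n c b (ball a r) g) {j : ℕ} (hj : j ≤ b) :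
    InjOn (fun ζ => orb n c (g ζ) j) (ball a r) := by
  intro x hx y hy hxy
  apply exp_div_inj hn hr hx hy
  change Complex.exp (x / n) = Complex.exp (y / n)
  rw [← h.eq x hx, ← h.eq y hy]
  obtain ⟨l, rfl⟩ := Nat.exists_eq_add_of_le hj
  rw [orb_add, orb_add]
  have : orb n c (g x) j = orb n c (g y) j := hxy
  rw [this]

theorem IsChain.univ_orb (hn : 2 ≤ n) {a : ℂ} {r : ℝ} (hr : r ≤ Real.pi * n)
    (h : IsChain n c b (ball a r) g) {j : ℕ} (hj : j ≤ b) :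
    Univ (fun ζ => orb n c (g ζ) j) a r :=
  ⟨h.diff_orb isOpen_ball j, h.injOn_orb hn hr hj⟩

theorem IsChain.univ (hn : 2 ≤ n) {a : ℂ} {r : ℝ} (hr : r ≤ Real.pi * n)
    (h : IsChain n c b (ball a r) g) : Univ g a r :=
  h.univ_orb hn hr (Nat.zero_le b)

/-- The chain of an intermediate point. -/
theorem IsChain.shift (hU : IsOpen U) (h : IsChain n c b U g) {i : ℕ} (hi : i ≤ b) :
    IsChain n c (b - i) U (fun ζ => orb n c (g ζ) i) := by
  refine ⟨h.diff_orb hU i, ?_, ?_⟩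
  · intro ζ hζ
    rw [← orb_add, Nat.add_sub_cancel' hi, h.eq ζ hζ]
  · intro ζ hζ j h1 h2
    rw [← orb_add]
    exact h.ne ζ hζ (i + j) (by omega) (by omega)

/-- Uniqueness of `n`-th roots on connected open sets. -/
theorem pow_unique (hn : 2 ≤ n) (hU : IsOpen U) (hUc : IsPreconnected U) {h1 h2 : ℂ → ℂ}
    (hd1 : DifferentiableOn ℂ h1 U) (hd2 : DifferentiableOn ℂ h2 U)
    (he : ∀ ζ ∈ U, h1 ζ ^ n = h2 ζ ^ n) (h0 : ∀ ζ ∈ U, h2 ζ ≠ 0) {ζ0 : ℂ} (hζ0 : ζ0 ∈ U)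
    (heq : h1 ζ0 = h2 ζ0) : ∀ ζ ∈ U, h1 ζ = h2 ζ := by
  have hn0 : (n : ℂ) ≠ 0 := by exact_mod_cast (by omega : n ≠ 0)
  have hD : DifferentiableOn ℂ (fun z => h1 z / h2 z) U := hd1.div hd2 h0
  have h10 : ∀ ζ ∈ U, h1 ζ ≠ 0 := by
    intro ζ hζ h
    have := he ζ hζ
    rw [h, zero_pow (by omega)] at this
    exact pow_ne_zero n (h0 ζ hζ) this.symm
  have hderiv : EqOn (deriv (fun z => h1 z / h2 z)) 0 U := by
    intro z hz
    have hDz : HasDerivAt (fun z => h1 z / h2 z) (deriv (fun z => h1 z / h2 z) z) z :=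
      (hD.differentiableAt (hU.mem_nhds hz)).hasDerivAt
    have h3 := hDz.fun_pow n
    have h4 : (fun z => (h1 z / h2 z) ^ n) =ᶠ[𝓝 z] fun _ => (1 : ℂ) := by
      filter_upwards [hU.mem_nhds hz] with w hw
      rw [div_pow, he w hw, div_self (pow_ne_zero n (h0 w hw))]
    have h5 : (n : ℂ) * (h1 z / h2 z) ^ (n - 1) * deriv (fun z => h1 z / h2 z) z = 0 :=
      h3.unique ((hasDerivAt_const z (1 : ℂ)).congr_of_eventuallyEq h4)
    rcases mul_eq_zero.mp h5 with h6 | h6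
    · exfalso
      rcases mul_eq_zero.mp h6 with h7 | h7
      · exact hn0 h7
      · exact pow_ne_zero _ (div_ne_zero (h10 z hz) (h0 z hz)) h7
    · exact h6
  intro z hz
  have := hU.is_const_of_deriv_eq_zero hUc hD hderiv hz hζ0
  simp only [heq, div_self (h0 ζ0 hζ0)] at this
  rwa [div_eq_one_iff_eq (h0 z hz)] at this

/-- Uniqueness of chains. -/
theorem IsChain.unique (hn : 2 ≤ n) (hU : IsOpen U) (hUc : IsPreconnected U) {g' : ℂ → ℂ}
    (h : IsChain n c b U g) (h' : IsChain n c b U g') {ζ0 : ℂ} (hζ0 : ζ0 ∈ U)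
    (h0 : g ζ0 = g' ζ0) : ∀ ζ ∈ U, g ζ = g' ζ := by
  have key : ∀ j ≤ b, ∀ ζ ∈ U, orb n c (g ζ) (b - j) = orb n c (g' ζ) (b - j) := by
    intro j
    induction j with
    | zero =>
      intro _ ζ hζ
      rw [Nat.sub_zero, h.eq ζ hζ, h'.eq ζ hζ]
    | succ j ih =>
      intro hj
      have h1 := ih (by omega)
      refine pow_unique hn hU hUc (h.diff_orb hU _) (h'.diff_orb hU _) ?_ ?_ hζ0 ?_
      · intro ζ hζ
        have h2 := h1 ζ hζ
        have h3 : b - j = (b - (j + 1)) + 1 := by omega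
        rw [h3, orb_succ, orb_succ] at h2
        exact add_right_cancel h2
      · intro ζ hζ
        exact h'.orb_ne_zero hn hζ (by omega)
      · rw [h0]
  intro ζ hζ
  have := key b le_rfl ζ hζ
  simpa using this

/-- Extension of a chain by one step. -/
theorem IsChain.ext (hn : 2 ≤ n) {a : ℂ} {r : ℝ} (hr : 0 < r) (h : IsChain n c b (ball a r) g)
    (hne : ∀ ζ ∈ ball a r, g ζ ≠ c) {z : ℂ} (hz : z ^ n + c = g a) :
    ∃ g' : ℂ → ℂ, IsChain n c (b + 1) (ball a r) g' ∧ g' a = z ∧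
      ∀ ζ ∈ ball a r, orb n c (g' ζ) 1 = g ζ := by
  have hn0 : (n : ℂ) ≠ 0 := by exact_mod_cast (by omega : n ≠ 0)
  have ha : a ∈ ball a r := mem_ball_self hr
  have hz0 : z ≠ 0 := by
    rintro rfl
    rw [zero_pow (by omega), zero_add] at hz
    exact hne a ha hz.symm
  obtain ⟨l, hl1, hl2, hl3⟩ := Pool.Agent.H712R2.M.exists_log_ball hr (h.diff.sub_const c)
    (fun ζ hζ => sub_ne_zero.mpr (hne ζ hζ)) (n * Complex.log z) (by
      rw [← hz, add_sub_cancel_right, Complex.exp_nat_mul, Complex.exp_log hz0])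
  have key : ∀ ζ ∈ ball a r, (Complex.exp (l ζ / n)) ^ n + c = g ζ := by
    intro ζ hζ
    rw [exp_pow hn, hl3 ζ hζ]
    ring
  refine ⟨fun ζ => Complex.exp (l ζ / n), ⟨?_, ?_, ?_⟩, ?_, ?_⟩
  · exact (hl1.div_const _).cexp
  · intro ζ hζ
    rw [add_comm, orb_add, orb_one, key ζ hζ, h.eq ζ hζ]
  · intro ζ hζ j h1 h2
    obtain ⟨j, rfl⟩ : ∃ i, j = 1 + i := ⟨j - 1, by omega⟩
    rw [orb_add, orb_one, key ζ hζ]
    rcases Nat.eq_zero_or_pos j with rfl | hj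
    · exact hne ζ hζ
    · exact h.ne ζ hζ j hj (by omega)
  · simp only [hl2]
    rw [mul_div_cancel_left₀ _ hn0, Complex.exp_log hz0]
  · intro ζ hζ
    rw [orb_one, key ζ hζ]

end Pool.Agent.W746.LD
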