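import Mathlib
import Pool.Agent.W746.LD.Chain

/-!
# Composition of univalent pull-backs
-/

set_option autoImplicit false
open Set Filter Topology Metric

namespace Pool.Agent.W746.LD

variable {n : ℕ} {c : ℂ} {b : ℕ} {U : Set ℂ} {g : ℂ → ℂ}

theorem exists_last {p : ℕ → Prop} {a b : ℕ} (h : ∃ i, a ≤ i ∧ i ≤ b ∧ p i) :
    ∃ i, a ≤ i ∧ i ≤ b ∧ p i ∧ ∀ j, i < j → j ≤ b → ¬ p j := by
  classical
  obtain ⟨i, h1, h2, h3⟩ := h
  set s : Finset ℕ := (Finset.Icc a b).filter p with hs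
  have hne : s.Nonempty := ⟨i, by simp [hs, h1, h2, h3]⟩
  have hm : (a ≤ s.max' hne ∧ s.max' hne ≤ b) ∧ p (s.max' hne) := by
    have := s.max'_mem hne
    simpa [hs] using this
  refine ⟨s.max' hne, hm.1.1, hm.1.2, hm.2, ?_⟩
  intro j hj1 hj2 hj3
  have : j ∈ s := by
    rw [hs, Finset.mem_filter, Finset.mem_Icc]
    exact ⟨⟨by omega, hj2⟩, hj3⟩
  have := s.le_max' j this
  omega

theorem exists_first {p : ℕ → Prop} {a : ℕ} (h : ∃ i, a ≤ i ∧ p i) :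
    ∃ i, a ≤ i ∧ p i ∧ ∀ j, a ≤ j → j < i → ¬ p j := by
  classical
  have h' : ∃ i, a ≤ i ∧ p i := h
  refine ⟨Nat.find h', (Nat.find_spec h').1, (Nat.find_spec h').2, ?_⟩
  intro j h1 h2 h3
  exact Nat.find_min h' h2 ⟨h1, h3⟩

/-- If the chain of `z` sees the critical value, then it is close to `z`, and the derivatives are
comparable. -/
theorem crit_near {C0 c0 : ℝ} (K : KC C0 c0) (hn : 2 ≤ n) {ζ0 : ℂ} {r : ℝ} (hr : 0 < r)
    (hrn : r ≤ Real.pi * n) (h : IsChain n c b (ball ζ0 r) g) {ζ' : ℂ} (hζ' : ‖ζ' - ζ0‖ < r / 8)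
    (hc : g ζ' = c) :
    ‖deriv g ζ0‖ ≤ C0 * ‖deriv g ζ'‖ ∧ ‖g ζ0 - c‖ ≤ C0 * ‖deriv g ζ'‖ * (r / 8) ∧
      ‖deriv g ζ'‖ * ‖P n c c (b + 1)‖ = Real.exp ζ'.re ∧
      Real.exp ζ'.re ≤ Real.exp (r / 8) * Real.exp ζ0.re ∧
      Real.exp ζ0.re ≤ Real.exp (r / 8) * Real.exp ζ'.re ∧
      ‖orb n c c (b + 1) - c‖ = Real.exp ζ'.re := by
  have hsub : ball ζ' (7 * r / 8) ⊆ ball ζ0 r := by
    intro x hx
    rw [mem_ball, dist_eq_norm] at hx ⊢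
    calc ‖x - ζ0‖ = ‖(x - ζ') + (ζ' - ζ0)‖ := by congr 1; ring
      _ ≤ ‖x - ζ'‖ + ‖ζ' - ζ0‖ := norm_add_le _ _
      _ < r := by linarith
  have hu : Univ g ζ' (7 * r / 8) := (h.univ hn hrn).mono hsub
  have hd : ‖ζ0 - ζ'‖ ≤ 7 * r / 8 / 4 := by rw [norm_sub_rev]; linarith
  have hm : ζ' ∈ ball ζ0 r := by rw [mem_ball, dist_eq_norm]; linarith
  have h1 := (K.kdist g ζ' (7 * r / 8) (by positivity) hu ζ0 hd).1
  have h2 := K.lip (by positivity) hu hd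
  have h3 := h.norm_deriv hn isOpen_ball hm
  have h4 := h.norm_sub hn hm
  rw [hc] at h2 h3 h4
  have hre : |(ζ' - ζ0).re| < r / 8 := lt_of_le_of_lt (Complex.abs_re_le_norm _) hζ'
  rw [Complex.sub_re, abs_lt] at hre
  refine ⟨h1, ?_, h3, ?_, ?_, h4⟩
  · refine h2.trans ?_
    gcongr
    · have := K.one_le; positivity
    · rw [norm_sub_rev]; exact hζ'.le
  · rw [← Real.exp_add]; exact Real.exp_le_exp.mpr (by linarith)
  · rw [← Real.exp_add]; exact Real.exp_le_exp.mpr (by linarith)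

/-- If the chain of `z` does not see the critical value, its inverse branch is contracting relative
to the distance to the critical value. -/
theorem nocrit_small {C0 c0 : ℝ} (K : KC C0 c0) (hn : 2 ≤ n) {ζ0 : ℂ} {r : ℝ} (hr : 0 < r)
    (hrn : r ≤ Real.pi * n) (h : IsChain n c b (ball ζ0 r) g)
    (hc : ∀ ζ ∈ ball ζ0 r, g ζ ≠ c) :
    c0 * r * ‖deriv g ζ0‖ ≤ ‖g ζ0 - c‖ ∧
    ∀ ζ, ‖ζ - ζ0‖ ≤ r / 4 → c0 * r * ‖g ζ - g ζ0‖ ≤ C0 * ‖ζ - ζ0‖ * ‖g ζ0 - c‖ := by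
  have hu := h.univ hn hrn
  have h1 := K.komit g ζ0 r hr hu c hc
  refine ⟨h1, fun ζ hζ => ?_⟩
  have h2 := K.lip hr hu hζ
  have h3 := K.one_le
  have h4 := K.pos
  calc c0 * r * ‖g ζ - g ζ0‖ ≤ c0 * r * (C0 * ‖deriv g ζ0‖ * ‖ζ - ζ0‖) := by gcongr
    _ = C0 * ‖ζ - ζ0‖ * (c0 * r * ‖deriv g ζ0‖) := by ring
    _ ≤ C0 * ‖ζ - ζ0‖ * ‖g ζ0 - c‖ := by gcongr

/-- Gluing of two chains. -/
theorem glue (hn : 2 ≤ n) {ζ0 ζ1 : ℂ} {b1 b2 : ℕ} {g' g'' : ℂ → ℂ}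
    (h' : IsChain n c b1 (ball ζ0 1) g') (hs : ∀ ζ ∈ ball ζ0 1, ‖g' ζ - g' ζ0‖ ≤ ‖g' ζ0 - c‖ / 4)
    (h0 : g' ζ0 ≠ c) (h'' : IsChain n c b2 (ball ζ1 1) g'')
    (he : orb n c (g'' ζ1) (b2 + 1) = g' ζ0) :
    ∃ g : ℂ → ℂ, IsChain n c (b2 + 1 + b1) (ball ζ0 1) g ∧ g ζ0 = g'' ζ1 := by
  have hz0 : g' ζ0 - c ≠ 0 := sub_ne_zero.mpr h0
  have hz0' : 0 < ‖g' ζ0 - c‖ := norm_pos_iff.mpr hz0
  set q : ℂ → ℂ := fun ζ => (g' ζ - g' ζ0) / (g' ζ0 - c) with hq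
  have hqn : ∀ ζ ∈ ball ζ0 1, ‖q ζ‖ ≤ 1 / 4 := by
    intro ζ hζ
    simp only [hq, norm_div]
    rw [div_le_iff₀ hz0']
    linarith [hs ζ hζ]
  set θ : ℂ → ℂ := fun ζ => ζ1 + Complex.log (1 + q ζ) with hθ
  have hslit : ∀ ζ ∈ ball ζ0 1, 1 + q ζ ∈ Complex.slitPlane := by
    intro ζ hζ
    apply Complex.mem_slitPlane_of_norm_lt_one
    exact lt_of_le_of_lt (hqn ζ hζ) (by norm_num)
  have hθd : DifferentiableOn ℂ θ (ball ζ0 1) := by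
    intro ζ hζ
    have h1 : DifferentiableWithinAt ℂ q (ball ζ0 1) ζ :=
      ((h'.diff ζ hζ).sub_const _).div_const _
    exact ((h1.const_add 1).clog (hslit ζ hζ)).const_add ζ1
  have hθm : MapsTo θ (ball ζ0 1) (ball ζ1 1) := by
    intro ζ hζ
    rw [mem_ball, dist_eq_norm]
    simp only [hθ, add_sub_cancel_left]
    have h1 := Complex.norm_log_one_add_half_le_self (z := q ζ) (by linarith [hqn ζ hζ])
    linarith [hqn ζ hζ]
  have hθ0 : θ ζ0 = ζ1 := by simp [hθ, hq]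
  have hζ1 : ζ1 ∈ ball ζ1 1 := mem_ball_self one_pos
  have hexp1 : Complex.exp ζ1 = g' ζ0 - c := by
    have := h''.orb_succ_b hn hζ1
    rw [he] at this
    rw [this]; ring
  have hkey : ∀ ζ ∈ ball ζ0 1, orb n c (g'' (θ ζ)) (b2 + 1) = g' ζ := by
    intro ζ hζ
    rw [h''.orb_succ_b hn (hθm hζ)]
    simp only [hθ]
    rw [Complex.exp_add, hexp1, Complex.exp_log (Complex.slitPlane_ne_zero (hslit ζ hζ))]
    simp only [hq]
    field_simp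
    ring
  have hne : ∀ ζ ∈ ball ζ0 1, g' ζ ≠ c := by
    intro ζ hζ h
    have h1 := hs ζ hζ
    rw [h, norm_sub_rev] at h1
    linarith
  refine ⟨fun ζ => g'' (θ ζ), ⟨?_, ?_, ?_⟩, ?_⟩
  · exact h''.diff.comp hθd hθm
  · intro ζ hζ
    rw [orb_add, hkey ζ hζ, h'.eq ζ hζ]
  · intro ζ hζ j h1 h2
    rcases Nat.lt_or_ge j (b2 + 1) with h3 | h3
    · exact h''.ne _ (hθm hζ) j h1 (by omega)
    · obtain ⟨i, rfl⟩ := Nat.exists_eq_add_of_le h3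
      rw [orb_add, hkey ζ hζ]
      rcases Nat.eq_zero_or_pos i with rfl | hi
      · exact hne ζ hζ
      · exact h'.ne ζ hζ i hi (by omega)
  · simp only [hθ0]

/-- Univalent pull-backs of radius `R` for first returns to `ball c ρ` in time at most `T`. -/
def H (n : ℕ) (c : ℂ) (T : ℕ) (R ρ : ℝ) : Prop :=
  ∀ (b : ℕ) (z ζ0 : ℂ), b + 1 ≤ T → (∀ i, 1 ≤ i → i ≤ b → ρ ≤ ‖orb n c z i - c‖) →
    ‖orb n c z (b + 1) - c‖ < ρ → Complex.exp (ζ0 / n) = orb n c z b →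
    ∃ g : ℂ → ℂ, IsChain n c b (ball ζ0 R) g ∧ g ζ0 = z

/-- Composition: pull-backs of radius `1` for orbits that may visit `ball c ρ` outside
`ball c ρl`. -/
theorem comp {C0 c0 R Kd ρ ρl : ℝ} {T : ℕ} (K : KC C0 c0) (hn : 2 ≤ n) (hRn : R ≤ Real.pi * n)
    (hR : 32 ≤ R) (hR' : 32 * C0 ≤ c0 * R) (hKd : 0 < Kd) (hρl : 0 < ρl)
    (hρ : C0 * (R / 8) * Real.exp (R / 8) * ρ < Kd * ρl)
    (hD : ∀ t, 1 ≤ t → t ≤ T → Kd ≤ ‖P n c c t‖) (hH : H n c T R ρ) :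
    ∀ (b : ℕ) (z ζ0 : ℂ), b + 1 ≤ T → (∀ i, 1 ≤ i → i ≤ b → ρl ≤ ‖orb n c z i - c‖) →
    ‖orb n c z (b + 1) - c‖ < ρ → Complex.exp (ζ0 / n) = orb n c z b →
    ∃ g : ℂ → ℂ, IsChain n c b (ball ζ0 1) g ∧ g ζ0 = z := by
  intro b
  induction b using Nat.strong_induction_on with
  | _ b ih =>
  intro z ζ0 hbT hl hb hζ0
  have hC1 := K.one_le
  have hc0 := K.pos
  have hR0 : 0 < R := by linarith
  by_cases hall : ∀ i, 1 ≤ i → i ≤ b → ρ ≤ ‖orb n c z i - c‖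
  · obtain ⟨g, hg, hg0⟩ := hH b z ζ0 hbT hall hb hζ0
    exact ⟨g, hg.mono (ball_subset_ball (by linarith)), hg0⟩
  push Not at hall
  obtain ⟨i, hi1, hib, hi, hlast⟩ := exists_last hall
  -- the last segment
  obtain ⟨g', hg', hg'0⟩ := hH (b - i) (orb n c z i) ζ0 (by omega) (by
      intro j h1 h2
      rw [← orb_add]
      exact not_lt.mp (hlast (i + j) (by omega) (by omega))) (by
      rw [← orb_add, show i + (b - i + 1) = b + 1 by omega]; exact hb) (by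
      rw [← orb_add, Nat.add_sub_cancel' hib]; exact hζ0)
  have hei : ρl ≤ ‖orb n c z i - c‖ := hl i hi1 hib
  have hζ0m : ζ0 ∈ ball ζ0 R := mem_ball_self hR0
  have hexp0 : Real.exp ζ0.re < ρ := by
    have := hg'.norm_sub hn hζ0m
    rw [hg'0, ← orb_add, show i + (b - i + 1) = b + 1 by omega] at this
    rw [← this]; exact hb
  -- the critical value is not seen
  have hnc : ∀ ζ ∈ ball ζ0 (R / 8), g' ζ ≠ c := by
    intro ζ' hζ' hcc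
    rw [mem_ball, dist_eq_norm] at hζ'
    obtain ⟨-, h2, h3, h4, -, -⟩ := crit_near K hn hR0 hRn hg' hζ' hcc
    have h5 := hD (b - i + 1) (by omega) (by omega)
    rw [hg'0] at h2
    have h6 : Kd * ‖deriv g' ζ'‖ ≤ Real.exp (R / 8) * ρ := by
      calc Kd * ‖deriv g' ζ'‖ ≤ ‖deriv g' ζ'‖ * ‖P n c c (b - i + 1)‖ := by
            rw [mul_comm]; gcongr
        _ = Real.exp ζ'.re := h3
        _ ≤ Real.exp (R / 8) * Real.exp ζ0.re := h4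
        _ ≤ Real.exp (R / 8) * ρ := by gcongr
    have h7 : Kd * ρl ≤ C0 * (R / 8) * Real.exp (R / 8) * ρ := by
      calc Kd * ρl ≤ Kd * (C0 * ‖deriv g' ζ'‖ * (R / 8)) := by
            gcongr; exact hei.trans h2
        _ = C0 * (R / 8) * (Kd * ‖deriv g' ζ'‖) := by ring
        _ ≤ C0 * (R / 8) * (Real.exp (R / 8) * ρ) := by gcongr
        _ = _ := by ring
    linarith
  have hsub8 : ball ζ0 (R / 8) ⊆ ball ζ0 R := ball_subset_ball (by linarith)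
  have hsmall := (nocrit_small K hn (r := R / 8) (by positivity) (by linarith)
    (hg'.mono hsub8) hnc).2
  have hsub1 : ball ζ0 1 ⊆ ball ζ0 R := ball_subset_ball (by linarith)
  have hs : ∀ ζ ∈ ball ζ0 1, ‖g' ζ - g' ζ0‖ ≤ ‖g' ζ0 - c‖ / 4 := by
    intro ζ hζ
    rw [mem_ball, dist_eq_norm] at hζ
    have h1 := hsmall ζ (by linarith)
    have h2 : C0 * ‖ζ - ζ0‖ * ‖g' ζ0 - c‖ ≤ C0 * 1 * ‖g' ζ0 - c‖ := by gcongr
    have h3 : 4 * C0 * ‖g' ζ - g' ζ0‖ ≤ C0 * ‖g' ζ0 - c‖ := by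
      calc 4 * C0 * ‖g' ζ - g' ζ0‖ ≤ c0 * (R / 8) * ‖g' ζ - g' ζ0‖ :=
            mul_le_mul_of_nonneg_right (by linarith) (norm_nonneg _)
        _ ≤ _ := by linarith
    have h4 : 0 < C0 := by linarith
    nlinarith
  have h0 : g' ζ0 ≠ c := by
    rw [hg'0]
    intro h
    rw [h, sub_self, norm_zero] at hei
    linarith
  -- the first segment
  have hz1 : orb n c z (i - 1) ≠ 0 := by
    apply orb_ne_zero_of_ne hn
    rw [Nat.sub_add_cancel hi1]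
    rwa [hg'0] at h0
  obtain ⟨ζ1, hζ1⟩ : ∃ ζ1 : ℂ, Complex.exp (ζ1 / n) = orb n c z (i - 1) := by
    refine ⟨n * Complex.log (orb n c z (i - 1)), ?_⟩
    have hn0 : (n : ℂ) ≠ 0 := by exact_mod_cast (by omega : n ≠ 0)
    rw [mul_div_cancel_left₀ _ hn0, Complex.exp_log hz1]
  obtain ⟨g'', hg'', hg''0⟩ := ih (i - 1) (by omega) z ζ1 (by omega)
    (fun j h1 h2 => hl j h1 (by omega)) (by rw [Nat.sub_add_cancel hi1]; exact hi) hζ1
  obtain ⟨g, hg, hg0⟩ := glue hn (hg'.mono hsub1) hs h0 hg'' (by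
    rw [hg''0, hg'0, Nat.sub_add_cancel hi1])
  refine ⟨g, ?_, by rw [hg0, hg''0]⟩
  have : i - 1 + 1 + (b - i) = b := by omega
  rwa [this] at hg

end Pool.Agent.W746.LD
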