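import Mathlib
import Pool.Agent.W746.LD.Comp

/-!
# Univalent pull-backs of large radius for first returns
-/

set_option autoImplicit false
open Set Filter Topology Metric

namespace Pool.Agent.W746.LD

variable {n : ℕ} {c : ℂ} {b : ℕ} {U : Set ℂ} {g : ℂ → ℂ}

/-- The chain constant at scale `1 / 4` for radii up to `B`. -/
def ChainConst (M B : ℝ) : Prop :=
  ∀ (φ : ℂ → ℂ) (x : ℂ) (ϱ : ℝ), 0 ≤ ϱ → ϱ ≤ B → Univ φ x (ϱ + 1 / 4) →
      ∀ a ∈ closedBall x ϱ, ∀ w ∈ closedBall x ϱ,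
        ‖deriv φ w‖ ≤ M * ‖deriv φ a‖ ∧ ‖φ w - φ a‖ ≤ M * ‖deriv φ a‖

/-- The key step: the critical value is not seen on the larger ball. -/
theorem not_seen {C0 c0 R M Kd Q L ρ r : ℝ} {T : ℕ} (K : KC C0 c0) (hn : 2 ≤ n)
    (hRn : R + 1 ≤ Real.pi * n) (hM : ChainConst M (R + 1)) (hM1 : 1 ≤ M)
    (hr1 : 1 ≤ r) (hrR : r ≤ R) (hρ : 0 < ρ) (hL : 8 * (C0 * (M + 1)) / c0 + 1 ≤ L)
    (hQ : Real.exp (R + 1) ≤ Q)
    (hKd : (C0 * (M + 1) + 1) * C0 * Real.exp (R + 2) < Kd)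
    (hD : ∀ t, 1 ≤ t → t ≤ T → Kd ≤ ‖P n c c t‖)
    (hC : ∀ (b : ℕ) (z ζ0 : ℂ), b + 1 ≤ T → (∀ i, 1 ≤ i → i ≤ b → ρ / L ≤ ‖orb n c z i - c‖) →
      ‖orb n c z (b + 1) - c‖ < Q * ρ → Complex.exp (ζ0 / n) = orb n c z b →
      ∃ g : ℂ → ℂ, IsChain n c b (ball ζ0 1) g ∧ g ζ0 = z)
    {b : ℕ} {z ζ0 : ℂ} (hbT : b + 1 ≤ T)
    (hz : ∀ i, 1 ≤ i → i ≤ b → ρ ≤ ‖orb n c z i - c‖)
    (hzb : ‖orb n c z (b + 1) - c‖ < ρ) (hζ0 : Complex.exp (ζ0 / n) = orb n c z b)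
    {g : ℂ → ℂ} (hg : IsChain n c b (ball ζ0 r) g) (hg0 : g ζ0 = z)
    {k : ℕ} (hk : k + 1 ≤ b) {h : ℂ → ℂ} (hh : IsChain n c k (ball ζ0 (r + 1 / 16)) h)
    (hh0 : h ζ0 = orb n c z (b - k)) :
    ∀ ζ ∈ ball ζ0 (r + 1 / 16), h ζ ≠ c := by
  intro ζs hζs hcs
  have hC1 := K.one_le
  have hc0 := K.pos
  have hc4 := K.le
  have hKpos : 0 < Kd := lt_of_le_of_lt (by positivity) hKd
  have hLpos : 1 ≤ L := by
    have : 0 ≤ 8 * (C0 * (M + 1)) / c0 := by positivity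
    linarith
  have hL0 : 0 < L := by linarith
  have hζ0r : ζ0 ∈ ball ζ0 r := mem_ball_self (by linarith)
  have hsub : ball ζ0 r ⊆ ball ζ0 (r + 1 / 16) := ball_subset_ball (by linarith)
  have hdist : ‖ζs - ζ0‖ < r + 1 / 16 := by rwa [mem_ball, dist_eq_norm] at hζs
  -- outside the smaller ball
  have hfar : r ≤ ‖ζs - ζ0‖ := by
    by_contra hcon
    push Not at hcon
    have hζsr : ζs ∈ ball ζ0 r := by rwa [mem_ball, dist_eq_norm]
    have h1 : IsChain n c k (ball ζ0 r) (fun ζ => orb n c (g ζ) (b - k)) := by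
      have := hg.shift isOpen_ball (i := b - k) (by omega)
      rwa [Nat.sub_sub_self (by omega : k ≤ b)] at this
    have h2 := (hh.mono hsub).unique hn isOpen_ball (convex_ball ζ0 r).isPreconnected h1 hζ0r
      (by rw [hh0, hg0]) ζs hζsr
    rw [hcs] at h2
    exact hg.ne ζs hζsr (b - k) (by omega) (by omega) h2.symm
  have hek : orb n c c k = Complex.exp (ζs / n) := by
    have := hh.eq ζs hζs
    rwa [hcs] at this
  have hek1 : ‖orb n c c (k + 1) - c‖ = Real.exp ζs.re := by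
    have := hh.norm_sub hn hζs
    rwa [hcs] at this
  have hexp0 : Real.exp ζ0.re < ρ := by
    have := hg.norm_sub hn hζ0r
    rw [hg0] at this
    rw [← this]; exact hzb
  have hre : Real.exp ζs.re ≤ Real.exp (R + 1) * ρ := by
    have h1 : (ζs - ζ0).re ≤ ‖ζs - ζ0‖ := (le_abs_self _).trans (Complex.abs_re_le_norm _)
    rw [Complex.sub_re] at h1
    calc Real.exp ζs.re ≤ Real.exp (R + 1 + ζ0.re) := Real.exp_le_exp.mpr (by linarith)
      _ = Real.exp (R + 1) * Real.exp ζ0.re := Real.exp_add _ _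
      _ ≤ _ := by gcongr
  have hre' : Real.exp ζs.re < Q * ρ := by
    have h1 : (ζs - ζ0).re ≤ ‖ζs - ζ0‖ := (le_abs_self _).trans (Complex.abs_re_le_norm _)
    rw [Complex.sub_re] at h1
    calc Real.exp ζs.re ≤ Real.exp (R + 1 + ζ0.re) := Real.exp_le_exp.mpr (by linarith)
      _ = Real.exp (R + 1) * Real.exp ζ0.re := Real.exp_add _ _
      _ < Real.exp (R + 1) * ρ := by gcongr
      _ ≤ Q * ρ := by gcongr
  -- the last deep visit
  obtain ⟨p, -, hpk, hp, hplast⟩ := exists_last (p := fun i => ‖orb n c c i - c‖ < ρ / L)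
    (a := 0) (b := k) ⟨0, le_rfl, Nat.zero_le _, by rw [orb_zero, sub_self, norm_zero]; positivity⟩
  obtain ⟨ψ, hψ, hψ0⟩ := hC (k - p) (orb n c c p) ζs (by omega) (by
      intro i h1 h2
      rw [← orb_add]
      exact not_lt.mp (hplast (p + i) (by omega) (by omega))) (by
      rw [← orb_add, show p + (k - p + 1) = k + 1 by omega, hek1]; exact hre') (by
      rw [← orb_add, Nat.add_sub_cancel' hpk, hek])
  -- the two branches agree
  set φ : ℂ → ℂ := fun ζ => orb n c (h ζ) p with hφ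
  have hφc : IsChain n c (k - p) (ball ζ0 (r + 1 / 16)) φ := hh.shift isOpen_ball hpk
  have hφs : φ ζs = orb n c c p := by simp only [hφ, hcs]
  set I : Set ℂ := ball ζ0 (r + 1 / 16) ∩ ball ζs 1 with hI
  have hIo : IsOpen I := isOpen_ball.inter isOpen_ball
  have hIc : IsPreconnected I := ((convex_ball _ _).inter (convex_ball _ _)).isPreconnected
  have hζsI : ζs ∈ I := ⟨hζs, mem_ball_self one_pos⟩
  have hag : ∀ ζ ∈ I, φ ζ = ψ ζ :=
    (hφc.mono inter_subset_left).unique hn hIo hIc (hψ.mono inter_subset_right) hζsI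
      (by rw [hφs, hψ0])
  -- the intermediate point
  set d : ℝ := ‖ζs - ζ0‖ with hd
  have hd0 : 0 < d := by linarith
  set ζ1 : ℂ := ζs + ((1 / (4 * d) : ℝ) : ℂ) * (ζ0 - ζs) with hζ1
  have h1s : ‖ζ1 - ζs‖ = 1 / 4 := by
    rw [hζ1, add_sub_cancel_left, norm_mul, Complex.norm_real, Real.norm_of_nonneg (by positivity),
      norm_sub_rev, ← hd]
    field_simp
  have h10 : ‖ζ1 - ζ0‖ ≤ r + 1 / 16 - 1 / 4 := by
    have e1 : ζ1 - ζ0 = ((1 - 1 / (4 * d) : ℝ) : ℂ) * (ζs - ζ0) := by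
      rw [hζ1]; push_cast; ring
    have e2 : 0 ≤ 1 - 1 / (4 * d) := by
      rw [sub_nonneg, div_le_one (by positivity)]
      linarith
    rw [e1, norm_mul, Complex.norm_real, Real.norm_of_nonneg e2, ← hd]
    have e3 : (1 - 1 / (4 * d)) * d = d - 1 / 4 := by field_simp
    rw [e3]; linarith
  have hζ1I : ζ1 ∈ I := by
    refine ⟨?_, ?_⟩
    · rw [mem_ball, dist_eq_norm]; linarith
    · rw [mem_ball, dist_eq_norm]; linarith
  have hder : deriv φ ζ1 = deriv ψ ζ1 := by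
    apply Filter.EventuallyEq.deriv_eq
    filter_upwards [hIo.mem_nhds hζ1I] with ζ hζ using hag ζ hζ
  have hφu : Univ φ ζ0 (r + 1 / 16 - 1 / 4 + 1 / 4) := by
    have := hφc.univ hn (by linarith : r + 1 / 16 ≤ Real.pi * n)
    rwa [sub_add_cancel]
  have hψu : Univ ψ ζs 1 := hψ.univ hn (by linarith)
  have h3 := (hM φ ζ0 (r + 1 / 16 - 1 / 4) (by linarith) (by linarith) hφu ζ1
    (by rw [mem_closedBall, dist_eq_norm]; exact h10) ζ0 (mem_closedBall_self (by linarith))).2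
  have h4 := (K.kdist ψ ζs 1 one_pos hψu ζ1 (by rw [h1s])).1
  have h5 := K.lip one_pos hψu (w := ζ1) (by rw [h1s])
  rw [h1s] at h5
  have hy : ‖φ ζ0 - orb n c c p‖ ≤ C0 * (M + 1) * ‖deriv ψ ζs‖ := by
    have e : φ ζ1 = ψ ζ1 := hag ζ1 hζ1I
    calc ‖φ ζ0 - orb n c c p‖ = ‖(φ ζ0 - φ ζ1) + (ψ ζ1 - ψ ζs)‖ := by
          congr 1; rw [e, hψ0]; ring
      _ ≤ ‖φ ζ0 - φ ζ1‖ + ‖ψ ζ1 - ψ ζs‖ := norm_add_le _ _
      _ ≤ M * ‖deriv φ ζ1‖ + C0 * ‖deriv ψ ζs‖ * (1 / 4) := by linarith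
      _ ≤ M * (C0 * ‖deriv ψ ζs‖) + C0 * ‖deriv ψ ζs‖ * 1 := by
          rw [hder]; gcongr; norm_num
      _ = _ := by ring
  have hye : ρ ≤ ‖φ ζ0 - c‖ := by
    have e1 : φ ζ0 = orb n c z (b - k + p) := by simp only [hφ, hh0]; rw [orb_add]
    rw [e1]
    exact hz _ (by omega) (by omega)
  have htri : ρ ≤ ‖φ ζ0 - orb n c c p‖ + ‖orb n c c p - c‖ := by
    refine hye.trans ?_
    calc ‖φ ζ0 - c‖ = ‖(φ ζ0 - orb n c c p) + (orb n c c p - c)‖ := by congr 1; ring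
      _ ≤ _ := norm_add_le _ _
  by_cases hcase : ∀ ζ ∈ ball ζs (1 / 8), ψ ζ ≠ c
  · -- the critical value is far from `c_p`
    have h6 := K.komit ψ ζs (1 / 8) (by norm_num)
      (hψu.mono (ball_subset_ball (by norm_num))) c hcase
    rw [hψ0] at h6
    have h7 : ‖deriv ψ ζs‖ ≤ 8 / c0 * (ρ / L) := by
      have : c0 * (1 / 8) * ‖deriv ψ ζs‖ ≤ ρ / L := h6.trans hp.le
      rw [div_mul_eq_mul_div, le_div_iff₀ hc0]
      linarith
    have h8 : ρ < (8 * (C0 * (M + 1)) / c0 + 1) * (ρ / L) := by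
      calc ρ ≤ ‖φ ζ0 - orb n c c p‖ + ‖orb n c c p - c‖ := htri
        _ < C0 * (M + 1) * ‖deriv ψ ζs‖ + ρ / L := by linarith
        _ ≤ C0 * (M + 1) * (8 / c0 * (ρ / L)) + ρ / L := by gcongr
        _ = _ := by ring
    have h9 : (8 * (C0 * (M + 1)) / c0 + 1) * (ρ / L) ≤ L * (ρ / L) := by gcongr
    rw [mul_div_cancel₀ _ hL0.ne'] at h9
    linarith
  · push Not at hcase
    obtain ⟨ζq, hζq, hζqc⟩ := hcase
    rw [mem_ball, dist_eq_norm] at hζq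
    obtain ⟨a1, a2, a3, a4, -, -⟩ := crit_near K hn one_pos (by linarith) hψ hζq hζqc
    rw [hψ0] at a2
    have a5 := hD (k - p + 1) (by omega) (by omega)
    have a6 : Kd * ‖deriv ψ ζq‖ ≤ Real.exp (R + 2) * ρ := by
      calc Kd * ‖deriv ψ ζq‖ ≤ ‖deriv ψ ζq‖ * ‖P n c c (k - p + 1)‖ := by
            rw [mul_comm]; gcongr
        _ = Real.exp ζq.re := a3
        _ ≤ Real.exp (1 / 8) * Real.exp ζs.re := a4
        _ ≤ Real.exp (1 / 8) * (Real.exp (R + 1) * ρ) := by gcongr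
        _ = Real.exp (1 / 8 + (R + 1)) * ρ := by
            rw [Real.exp_add (1 / 8) (R + 1), mul_assoc]
        _ ≤ Real.exp (R + 2) * ρ :=
            mul_le_mul_of_nonneg_right (Real.exp_le_exp.mpr (by linarith)) hρ.le
    have a7 : ρ ≤ (C0 * (M + 1) + 1) * C0 * ‖deriv ψ ζq‖ := by
      calc ρ ≤ ‖φ ζ0 - orb n c c p‖ + ‖orb n c c p - c‖ := htri
        _ ≤ C0 * (M + 1) * ‖deriv ψ ζs‖ + C0 * ‖deriv ψ ζq‖ * (1 / 8) := by linarith
        _ ≤ C0 * (M + 1) * (C0 * ‖deriv ψ ζq‖) + C0 * ‖deriv ψ ζq‖ * 1 := by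
            gcongr; norm_num
        _ = _ := by ring
    have a8 : Kd * ρ ≤ (C0 * (M + 1) + 1) * C0 * Real.exp (R + 2) * ρ := by
      calc Kd * ρ ≤ Kd * ((C0 * (M + 1) + 1) * C0 * ‖deriv ψ ζq‖) := by gcongr
        _ = (C0 * (M + 1) + 1) * C0 * (Kd * ‖deriv ψ ζq‖) := by ring
        _ ≤ (C0 * (M + 1) + 1) * C0 * (Real.exp (R + 2) * ρ) := by gcongr
        _ = _ := by ring
    have a9 := lt_of_lt_of_le (mul_lt_mul_of_pos_right hKd hρ) a8
    exact lt_irrefl _ a9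

/-- From radius `r` to radius `r + 1 / 16`. -/
theorem grow {C0 c0 R M Kd Q L ρ r : ℝ} {T : ℕ} (K : KC C0 c0) (hn : 2 ≤ n)
    (hRn : R + 1 ≤ Real.pi * n) (hM : ChainConst M (R + 1)) (hM1 : 1 ≤ M)
    (hr1 : 1 ≤ r) (hrR : r ≤ R) (hρ : 0 < ρ) (hL : 8 * (C0 * (M + 1)) / c0 + 1 ≤ L)
    (hQ : Real.exp (R + 1) ≤ Q)
    (hKd : (C0 * (M + 1) + 1) * C0 * Real.exp (R + 2) < Kd)
    (hD : ∀ t, 1 ≤ t → t ≤ T → Kd ≤ ‖P n c c t‖)
    (hC : ∀ (b : ℕ) (z ζ0 : ℂ), b + 1 ≤ T → (∀ i, 1 ≤ i → i ≤ b → ρ / L ≤ ‖orb n c z i - c‖) →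
      ‖orb n c z (b + 1) - c‖ < Q * ρ → Complex.exp (ζ0 / n) = orb n c z b →
      ∃ g : ℂ → ℂ, IsChain n c b (ball ζ0 1) g ∧ g ζ0 = z)
    (hr : H n c T r ρ) : H n c T (r + 1 / 16) ρ := by
  intro b z ζ0 hbT hz hzb hζ0
  obtain ⟨g, hg, hg0⟩ := hr b z ζ0 hbT hz hzb hζ0
  have key : ∀ k ≤ b, ∃ h : ℂ → ℂ, IsChain n c k (ball ζ0 (r + 1 / 16)) h ∧
      h ζ0 = orb n c z (b - k) := by
    intro k
    induction k with
    | zero =>
      intro _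
      exact ⟨_, isChain_zero _, by rw [Nat.sub_zero]; exact hζ0⟩
    | succ k ih =>
      intro hk
      obtain ⟨h, hh, hh0⟩ := ih (by omega)
      have h1 := not_seen K hn hRn hM hM1 hr1 hrR hρ hL hQ hKd hD hC hbT hz hzb hζ0 hg hg0 hk hh hh0
      obtain ⟨h', hh', hh'0, -⟩ := hh.ext hn (by linarith) h1 (z := orb n c z (b - (k + 1))) (by
        rw [hh0, ← orb_succ]; congr 1; omega)
      exact ⟨h', hh', hh'0⟩
  obtain ⟨h, hh, hh0⟩ := key b le_rfl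
  exact ⟨h, hh, by rw [hh0, Nat.sub_self, orb_zero]⟩

/-- From scale `Q ρ` to scale `ρ`. -/
theorem descend {C0 c0 R M Kd Q L ρ : ℝ} {T : ℕ} (K : KC C0 c0) (hn : 2 ≤ n)
    (hRn : R + 1 ≤ Real.pi * n) (hR : 32 ≤ R) (hR' : 32 * C0 ≤ c0 * R)
    (hM : ChainConst M (R + 1)) (hM1 : 1 ≤ M)
    (hρ : 0 < ρ) (hL : 8 * (C0 * (M + 1)) / c0 + 1 ≤ L)
    (hQ : Real.exp (R + 1) ≤ Q)
    (hKd : (C0 * (M + 1) + 1) * C0 * Real.exp (R + 2) < Kd)
    (hKd' : C0 * (R / 8) * Real.exp (R / 8) * Q * L < Kd)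
    (hD : ∀ t, 1 ≤ t → t ≤ T → Kd ≤ ‖P n c c t‖)
    (hH : H n c T R (Q * ρ)) : H n c T R ρ := by
  have hC1 := K.one_le
  have hc0 := K.pos
  have hKpos : 0 < Kd := lt_of_le_of_lt (by positivity) hKd
  have hL0 : 0 < L := by
    have : 0 ≤ 8 * (C0 * (M + 1)) / c0 := by positivity
    linarith
  have hC := comp K hn (by linarith : R ≤ Real.pi * n) hR hR' hKpos (ρl := ρ / L) (ρ := Q * ρ)
    (by positivity) (by
      rw [← mul_div_assoc Kd, lt_div_iff₀ hL0]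
      calc C0 * (R / 8) * Real.exp (R / 8) * (Q * ρ) * L
          = C0 * (R / 8) * Real.exp (R / 8) * Q * L * ρ := by ring
        _ < Kd * ρ := by gcongr) hD hH
  have hQ1 : 1 ≤ Q := (Real.one_le_exp (by linarith)).trans hQ
  have h1 : H n c T 1 ρ := by
    intro b z ζ0 hbT hz hzb hζ0
    refine hC b z ζ0 hbT (fun i h1 h2 => ?_) ?_ hζ0
    · refine le_trans ?_ (hz i h1 h2)
      apply div_le_self hρ.le
      have : 0 ≤ 8 * (C0 * (M + 1)) / c0 := by positivity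
      linarith
    · refine lt_of_lt_of_le hzb ?_
      nlinarith
  have key : ∀ t : ℕ, 1 + (t : ℝ) / 16 ≤ R + 1 / 16 → H n c T (1 + (t : ℝ) / 16) ρ := by
    intro t
    induction t with
    | zero => intro _; simpa using h1
    | succ t ih =>
      intro ht
      push_cast at ht
      have h2 := ih (by linarith)
      have h3 := grow K hn hRn hM hM1 (r := 1 + (t : ℝ) / 16) (by
        have : (0:ℝ) ≤ t := Nat.cast_nonneg t
        linarith) (by linarith) hρ hL hQ hKd hD hC h2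
      have e : 1 + (t : ℝ) / 16 + 1 / 16 = 1 + ((t + 1 : ℕ) : ℝ) / 16 := by push_cast; ring
      rwa [e] at h3
  -- choose `t` with `R ≤ 1 + t / 16 ≤ R + 1 / 16`
  obtain ⟨t, ht1, ht2⟩ : ∃ t : ℕ, R ≤ 1 + (t : ℝ) / 16 ∧ 1 + (t : ℝ) / 16 ≤ R + 1 / 16 := by
    refine ⟨⌈16 * (R - 1)⌉₊, ?_, ?_⟩
    · have := Nat.le_ceil (16 * (R - 1))
      linarith
    · have := Nat.ceil_lt_add_one (a := 16 * (R - 1)) (by linarith)
      linarith
  have h4 := key t ht2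
  intro b z ζ0 hbT hz hzb hζ0
  obtain ⟨g, hg, hg0⟩ := h4 b z ζ0 hbT hz hzb hζ0
  exact ⟨g, hg.mono (ball_subset_ball ht1), hg0⟩

/-- Points far from the origin do not return. -/
theorem no_return (hn : 2 ≤ n) (hc : ‖c‖ ≤ 2) {z : ℂ} {ρ : ℝ} (hρ : 7 ≤ ρ)
    (hz : ρ ≤ ‖z - c‖) (k : ℕ) : ρ ≤ ‖orb n c z k - c‖ := by
  have hz5 : ρ - 2 ≤ ‖z‖ := by
    have := norm_sub_le z c
    linarith
  have key : ∀ k, ‖z‖ ≤ ‖orb n c z k‖ ∧ (1 ≤ k → 4 * ‖z‖ ≤ ‖orb n c z k‖) := by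
    intro k
    induction k with
    | zero => exact ⟨le_rfl, fun h => by omega⟩
    | succ k ih =>
      have h1 : 5 ≤ ‖orb n c z k‖ := by linarith [ih.1]
      have h2 : ‖orb n c z k‖ ^ 2 ≤ ‖orb n c z k‖ ^ n := pow_le_pow_right₀ (by linarith) hn
      have h3 : ‖orb n c z k‖ ^ n - 2 ≤ ‖orb n c z (k + 1)‖ := by
        rw [orb_succ, ← norm_pow]
        have := norm_sub_le (orb n c z k ^ n + c) c
        rw [add_sub_cancel_right] at this
        linarith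
      have h4 : 4 * ‖z‖ ≤ ‖orb n c z (k + 1)‖ := by nlinarith [ih.1]
      exact ⟨by linarith, fun _ => h4⟩
  rcases Nat.eq_zero_or_pos k with rfl | hk
  · simpa using hz
  · have h1 := (key k).2 hk
    have h2 := norm_sub_norm_le (orb n c z k) c
    linarith

/-- Univalent pull-backs at all scales. -/
theorem H_all {C0 c0 R M Kd Q L : ℝ} {T : ℕ} (K : KC C0 c0) (hn : 2 ≤ n) (hc : ‖c‖ ≤ 2)
    (hRn : R + 1 ≤ Real.pi * n) (hR : 32 ≤ R) (hR' : 32 * C0 ≤ c0 * R)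
    (hM : ChainConst M (R + 1)) (hM1 : 1 ≤ M)
    (hL : 8 * (C0 * (M + 1)) / c0 + 1 ≤ L)
    (hQ : Real.exp (R + 1) ≤ Q)
    (hKd : (C0 * (M + 1) + 1) * C0 * Real.exp (R + 2) < Kd)
    (hKd' : C0 * (R / 8) * Real.exp (R / 8) * Q * L < Kd)
    (hD : ∀ t, 1 ≤ t → t ≤ T → Kd ≤ ‖P n c c t‖) {ρ : ℝ} (hρ : 0 < ρ) : H n c T R ρ := by
  have hbase : ∀ ρ : ℝ, 7 ≤ ρ → H n c T R ρ := by
    intro ρ hρ b z ζ0 _ hz hzb hζ0
    rcases Nat.eq_zero_or_pos b with rfl | hb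
    · exact ⟨_, isChain_zero _, by simpa using hζ0⟩
    · exfalso
      have h1 := no_return hn hc hρ (hz 1 le_rfl hb) b
      rw [← orb_add, add_comm] at h1
      linarith
  have hQ1 : 1 < Q := lt_of_lt_of_le (Real.one_lt_exp_iff.mpr (by linarith)) hQ
  have key : ∀ j : ℕ, ∀ ρ : ℝ, 0 < ρ → 7 ≤ Q ^ j * ρ → H n c T R ρ := by
    intro j
    induction j with
    | zero => intro ρ _ h; exact hbase ρ (by simpa using h)
    | succ j ih =>
      intro ρ hρ h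
      apply descend K hn hRn hR hR' hM hM1 hρ hL hQ hKd hKd' hD
      apply ih (Q * ρ) (by positivity)
      calc (7:ℝ) ≤ Q ^ (j + 1) * ρ := h
        _ = _ := by ring
  obtain ⟨j, hj⟩ := pow_unbounded_of_one_lt (7 / ρ) hQ1
  refine key j ρ hρ ?_
  rw [div_lt_iff₀ hρ] at hj
  exact hj.le

end Pool.Agent.W746.LD
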