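import Mathlib
import Pool.Agent.W746.LD.Upgrade

/-!
# Expansion of the first return maps to balls around the critical value
-/

set_option autoImplicit false
open Set Filter Topology Metric

namespace Pool.Agent.W746.LD

variable {n : ℕ} {c : ℂ}

/-- `m` is the first return time of `z` to `ball c ρ`. -/
def Ret (n : ℕ) (c : ℂ) (ρ : ℝ) (z : ℂ) (m : ℕ) : Prop :=
  1 ≤ m ∧ (∀ i, 1 ≤ i → i < m → ρ ≤ ‖orb n c z i - c‖) ∧ ‖orb n c z m - c‖ < ρ

theorem Ret.unique {ρ : ℝ} {z : ℂ} {m m' : ℕ} (h : Ret n c ρ z m) (h' : Ret n c ρ z m') : m = m' := by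
  rcases lt_trichotomy m m' with h1 | h1 | h1
  · exact absurd h.2.2 (not_lt.mpr (h'.2.1 m h.1 h1))
  · exact h1
  · exact absurd h'.2.2 (not_lt.mpr (h.2.1 m' h'.1 h1))

theorem exists_ret {ρ : ℝ} {z : ℂ} {m : ℕ} (hm : 1 ≤ m) (h : ‖orb n c z m - c‖ < ρ) :
    ∃ m', m' ≤ m ∧ Ret n c ρ z m' := by
  obtain ⟨i, h1, h2, h3⟩ := exists_first (p := fun i => ‖orb n c z i - c‖ < ρ) (a := 1) ⟨m, hm, h⟩
  refine ⟨i, ?_, h1, fun j hj1 hj2 => not_lt.mp (h3 j hj1 hj2), h2⟩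
  by_contra hcon
  push Not at hcon
  exact h3 m hm hcon h

theorem exists_ret_of_ret {ρ ρ' : ℝ} {z : ℂ} {m : ℕ} (h : Ret n c ρ z m) (hρ : ρ ≤ ρ') :
    ∃ m', m' ≤ m ∧ Ret n c ρ' z m' :=
  exists_ret h.1 (h.2.2.trans_le hρ)

/-- The standing assumptions. -/
structure Sett (C0 c0 R Kd : ℝ) (n : ℕ) (c : ℂ) (T : ℕ) : Prop where
  K : KC C0 c0
  hn : 2 ≤ n
  hRn : R ≤ Real.pi * n
  hR : 32 ≤ R
  hlam : 2 ≤ c0 * R / 8
  hKd : 0 < Kd
  D : ∀ t, 1 ≤ t → t ≤ T → Kd ≤ ‖P n c c t‖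
  hH : ∀ ρ : ℝ, 0 < ρ → H n c T R ρ

variable {C0 c0 R Kd : ℝ} {T : ℕ}

theorem Sett.c_ne (s : Sett C0 c0 R Kd n c T) {t : ℕ} (h1 : 1 ≤ t) (h2 : t ≤ T) :
    0 < ‖orb n c c t - c‖ := by
  rw [norm_pos_iff, sub_ne_zero]
  have h3 : P n c c t ≠ 0 := by
    have := s.D t h1 h2
    have h4 := s.hKd
    rw [← norm_pos_iff]; linarith
  have h4 := orb_ne_zero_of_P s.hn h3 (i := t - 1) (by omega)
  obtain ⟨t, rfl⟩ : ∃ i, t = i + 1 := ⟨t - 1, by omega⟩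
  rw [orb_succ]
  intro h
  apply h4
  have : orb n c c t ^ n = 0 := by linear_combination h
  simpa using pow_eq_zero_iff (by have := s.hn; omega : n ≠ 0) |>.mp this

/-- The dichotomy for first returns. -/
theorem Sett.gain (s : Sett C0 c0 R Kd n c T) {ρ : ℝ} (hρ : 0 < ρ) {z : ℂ} {m : ℕ}
    (hm : Ret n c ρ z m) (hmT : m ≤ T) (hmc : orb n c z m ≠ c) :
    ∃ (ζ0 : ℂ) (g : ℂ → ℂ), IsChain n c (m - 1) (ball ζ0 R) g ∧ g ζ0 = z ∧
      Real.exp ζ0.re = ‖orb n c z m - c‖ ∧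
      ((c0 * R / 8 * ‖orb n c z m - c‖ ≤ ‖P n c z m‖ * ‖z - c‖) ∨
       (∃ ζ', ‖ζ' - ζ0‖ < R / 8 ∧ g ζ' = c ∧
        ‖orb n c c m - c‖ ≤ Real.exp (R / 8) * ‖orb n c z m - c‖ ∧
        ‖orb n c z m - c‖ * ‖P n c c m‖ ≤ C0 * ‖orb n c c m - c‖ * ‖P n c z m‖ ∧
        ‖z - c‖ * ‖P n c c m‖ ≤ C0 * (R / 8) * ‖orb n c c m - c‖)) := by
  obtain ⟨b, rfl⟩ : ∃ b, m = b + 1 := ⟨m - 1, by have := hm.1; omega⟩
  have hn := s.hn
  have hn0 : (n : ℂ) ≠ 0 := by exact_mod_cast (by omega : n ≠ 0)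
  have hR0 : 0 < R := by linarith [s.hR]
  have hzb : orb n c z b ≠ 0 := orb_ne_zero_of_ne hn hmc
  have hζ0 : Complex.exp ((n * Complex.log (orb n c z b)) / n) = orb n c z b := by
    rw [mul_div_cancel_left₀ _ hn0, Complex.exp_log hzb]
  set ζ0 : ℂ := n * Complex.log (orb n c z b) with hζ0d
  obtain ⟨g, hg, hg0⟩ := s.hH ρ hρ b z ζ0 hmT (fun i h1 h2 => hm.2.1 i h1 (by omega)) hm.2.2 hζ0
  have hζ0m : ζ0 ∈ ball ζ0 R := mem_ball_self hR0
  have hexp : Real.exp ζ0.re = ‖orb n c z (b + 1) - c‖ := by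
    have := hg.norm_sub hn hζ0m
    rw [hg0] at this
    exact this.symm
  have hder : ‖deriv g ζ0‖ * ‖P n c z (b + 1)‖ = ‖orb n c z (b + 1) - c‖ := by
    have := hg.norm_deriv hn isOpen_ball hζ0m
    rw [hg0, hexp] at this
    exact this
  refine ⟨ζ0, g, hg, hg0, hexp, ?_⟩
  by_cases hcase : ∀ ζ ∈ ball ζ0 (R / 8), g ζ ≠ c
  · left
    have h1 := (nocrit_small s.K hn (r := R / 8) (by positivity) (by linarith [s.hRn])
      (hg.mono (ball_subset_ball (by linarith))) hcase).1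
    rw [hg0] at h1
    calc c0 * R / 8 * ‖orb n c z (b + 1) - c‖
        = (c0 * (R / 8) * ‖deriv g ζ0‖) * ‖P n c z (b + 1)‖ := by rw [← hder]; ring
      _ ≤ ‖z - c‖ * ‖P n c z (b + 1)‖ := by gcongr
      _ = _ := by ring
  · right
    push Not at hcase
    obtain ⟨ζ', hζ', hc'⟩ := hcase
    rw [mem_ball, dist_eq_norm] at hζ'
    obtain ⟨a1, a2, a3, a4, a5, a6⟩ := crit_near s.K hn hR0 s.hRn hg hζ' hc'
    rw [hg0] at a2
    rw [← a6] at a3 a4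
    rw [hexp] at a4
    refine ⟨ζ', hζ', hc', a4, ?_, ?_⟩
    · calc ‖orb n c z (b + 1) - c‖ * ‖P n c c (b + 1)‖
          = ‖deriv g ζ0‖ * (‖P n c z (b + 1)‖ * ‖P n c c (b + 1)‖) := by rw [← hder]; ring
        _ ≤ (C0 * ‖deriv g ζ'‖) * (‖P n c z (b + 1)‖ * ‖P n c c (b + 1)‖) := by gcongr
        _ = C0 * (‖deriv g ζ'‖ * ‖P n c c (b + 1)‖) * ‖P n c z (b + 1)‖ := by ring
        _ = _ := by rw [a3]
    · calc ‖z - c‖ * ‖P n c c (b + 1)‖ ≤ (C0 * ‖deriv g ζ'‖ * (R / 8)) * ‖P n c c (b + 1)‖ := by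
            gcongr
        _ = C0 * (R / 8) * (‖deriv g ζ'‖ * ‖P n c c (b + 1)‖) := by ring
        _ = _ := by rw [a3]

/-- Expansion for points which are not too close to the critical value. -/
theorem Sett.gain_nd (s : Sett C0 c0 R Kd n c T) {ρ θ : ℝ} (hρ : 0 < ρ)
    (hθ : C0 * (R / 8) * Real.exp (R / 8) * ρ < Kd * θ) {z : ℂ} {m : ℕ}
    (hm : Ret n c ρ z m) (hmT : m ≤ T) (hz : θ ≤ ‖z - c‖) :
    c0 * R / 8 * ‖orb n c z m - c‖ ≤ ‖P n c z m‖ * ‖z - c‖ := by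
  by_cases hmc : orb n c z m = c
  · rw [hmc, sub_self, norm_zero, mul_zero]; positivity
  obtain ⟨ζ0, g, -, -, -, h⟩ := s.gain hρ hm hmT hmc
  rcases h with h | ⟨ζ', -, -, h1, -, h3⟩
  · exact h
  · exfalso
    have hC := s.K.one_le
    have hR0 : 0 < R := by linarith [s.hR]
    have h4 := s.D m hm.1 hmT
    have h5 : Kd * θ ≤ C0 * (R / 8) * Real.exp (R / 8) * ρ := by
      calc Kd * θ ≤ ‖P n c c m‖ * ‖z - c‖ := by
            have := s.hKd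
            have h6 : Kd * θ ≤ Kd * ‖z - c‖ := by gcongr
            exact h6.trans (by gcongr)
        _ = ‖z - c‖ * ‖P n c c m‖ := by ring
        _ ≤ C0 * (R / 8) * ‖orb n c c m - c‖ := h3
        _ ≤ C0 * (R / 8) * (Real.exp (R / 8) * ‖orb n c z m - c‖) := by gcongr
        _ ≤ C0 * (R / 8) * (Real.exp (R / 8) * ρ) := by
            gcongr
            exact hm.2.2.le
        _ = _ := by ring
    linarith

theorem norm_P_add (z : ℂ) (k l : ℕ) :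
    ‖P n c z (k + l)‖ = ‖P n c z k‖ * ‖P n c (orb n c z k) l‖ := by rw [P_add, norm_mul]

/-- Iterated expansion. -/
theorem Sett.gain_iter (s : Sett C0 c0 R Kd n c T) {ρ θ : ℝ} (hρ : 0 < ρ) (hθ0 : 0 < θ)
    (hθ : C0 * (R / 8) * Real.exp (R / 8) * ρ < Kd * θ) :
    ∀ (N : ℕ) (x : ℂ), 1 ≤ N → N ≤ T → (∀ i < N, θ ≤ ‖orb n c x i - c‖) →
      ‖orb n c x N - c‖ < ρ → c0 * R / 8 * ‖orb n c x N - c‖ ≤ ‖P n c x N‖ * ‖x - c‖ := by
  intro N
  induction N using Nat.strong_induction_on with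
  | _ N ih =>
  intro x hN hNT hx hxN
  obtain ⟨m, hmN, hm⟩ := exists_ret hN hxN
  have hx0 : θ ≤ ‖x - c‖ := hx 0 (by omega)
  have h1 := s.gain_nd hρ hθ hm (by omega) hx0
  rcases hmN.lt_or_eq with hlt | rfl
  · have h2 := ih (N - m) (by have := hm.1; omega) (orb n c x m) (by omega) (by omega) (by
      intro i hi
      rw [← orb_add]
      exact hx (m + i) (by omega)) (by
      rw [← orb_add, Nat.add_sub_cancel' hmN]; exact hxN)
    rw [← orb_add, Nat.add_sub_cancel' hmN] at h2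
    have h3 : 0 < ‖orb n c x m - c‖ := lt_of_lt_of_le hθ0 (hx m hlt)
    have h4 : ‖P n c x N‖ = ‖P n c x m‖ * ‖P n c (orb n c x m) (N - m)‖ := by
      rw [← norm_P_add, Nat.add_sub_cancel' hmN]
    set lam := c0 * R / 8 with hlam
    have hlam2 : 2 ≤ lam := s.hlam
    rw [h4]
    have h5 : lam * ‖orb n c x N - c‖ * (lam * ‖orb n c x m - c‖) ≤
        (‖P n c x m‖ * ‖P n c (orb n c x m) (N - m)‖ * ‖x - c‖) * ‖orb n c x m - c‖ := by
      calc lam * ‖orb n c x N - c‖ * (lam * ‖orb n c x m - c‖)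
          ≤ (‖P n c (orb n c x m) (N - m)‖ * ‖orb n c x m - c‖) * (‖P n c x m‖ * ‖x - c‖) := by
            gcongr
        _ = _ := by ring
    have h6 : lam * ‖orb n c x N - c‖ * lam ≤
        ‖P n c x m‖ * ‖P n c (orb n c x m) (N - m)‖ * ‖x - c‖ := by
      apply le_of_mul_le_mul_right _ h3
      calc lam * ‖orb n c x N - c‖ * lam * ‖orb n c x m - c‖
          = lam * ‖orb n c x N - c‖ * (lam * ‖orb n c x m - c‖) := by ring
        _ ≤ _ := h5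
    refine le_trans ?_ h6
    have h7 : 0 ≤ lam * ‖orb n c x N - c‖ := by positivity
    nlinarith
  · exact h1

/-- The sum of inverse derivatives along an orbit which stays away from the critical value. -/
theorem Sett.S_bound (s : Sett C0 c0 R Kd n c T) {ρ θ B : ℝ} (hρ : 0 < ρ) (hθ0 : 0 < θ) (hB : 0 ≤ B)
    (hθ : C0 * (R / 8) * Real.exp (R / 8) * ρ < Kd * θ)
    (hI : ∀ (z : ℂ) (m : ℕ), ‖z - c‖ < ρ → Ret n c ρ z m → m ≤ T → ‖S n c z m‖ ≤ B) :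
    ∀ (N : ℕ) (x : ℂ), N ≤ T → ‖x - c‖ < ρ → (∀ i < N, θ ≤ ‖orb n c x i - c‖) →
      ‖orb n c x N - c‖ < ρ → ‖S n c x N‖ * θ ≤ 2 * B * ‖x - c‖ := by
  intro N
  induction N using Nat.strong_induction_on with
  | _ N ih =>
  intro x hNT hxρ hx hxN
  rcases Nat.eq_zero_or_pos N with rfl | hN
  · rw [S_zero, norm_zero, zero_mul]; positivity
  obtain ⟨m, hmN, hm⟩ := exists_ret hN hxN
  have hx0 : θ ≤ ‖x - c‖ := hx 0 (by omega)
  have h0 := hI x m hxρ hm (by omega)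
  rcases hmN.lt_or_eq with hlt | rfl
  · have h1 := s.gain_nd hρ hθ hm (by omega) hx0
    have h2 := ih (N - m) (by have := hm.1; omega) (orb n c x m) (by omega) hm.2.2 (by
      intro i hi
      rw [← orb_add]
      exact hx (m + i) (by omega)) (by
      rw [← orb_add, Nat.add_sub_cancel' hmN]; exact hxN)
    have h3 : 0 < ‖orb n c x m - c‖ := lt_of_lt_of_le hθ0 (hx m hlt)
    have h4 : S n c x N = S n c x m + (P n c x m)⁻¹ * S n c (orb n c x m) (N - m) := by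
      rw [← S_add, Nat.add_sub_cancel' hmN]
    have hlam2 : 2 ≤ c0 * R / 8 := s.hlam
    have h5 : 0 < ‖P n c x m‖ := by
      by_contra hcon
      have : ‖P n c x m‖ = 0 := le_antisymm (not_lt.mp hcon) (norm_nonneg _)
      rw [this, zero_mul] at h1
      nlinarith
    have h6 : ‖(P n c x m)⁻¹ * S n c (orb n c x m) (N - m)‖ * θ ≤ B * ‖x - c‖ := by
      rw [norm_mul, norm_inv]
      have h7 : 2 * ‖orb n c x m - c‖ ≤ ‖P n c x m‖ * ‖x - c‖ := by nlinarith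
      calc ‖P n c x m‖⁻¹ * ‖S n c (orb n c x m) (N - m)‖ * θ
          = ‖P n c x m‖⁻¹ * (‖S n c (orb n c x m) (N - m)‖ * θ) := by ring
        _ ≤ ‖P n c x m‖⁻¹ * (2 * B * ‖orb n c x m - c‖) := by gcongr
        _ = ‖P n c x m‖⁻¹ * (B * (2 * ‖orb n c x m - c‖)) := by ring
        _ ≤ ‖P n c x m‖⁻¹ * (B * (‖P n c x m‖ * ‖x - c‖)) := by gcongr
        _ = _ := by field_simp
    calc ‖S n c x N‖ * θ ≤ (‖S n c x m‖ + ‖(P n c x m)⁻¹ * S n c (orb n c x m) (N - m)‖) * θ := by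
          rw [h4]; gcongr; exact norm_add_le _ _
      _ = ‖S n c x m‖ * θ + ‖(P n c x m)⁻¹ * S n c (orb n c x m) (N - m)‖ * θ := by ring
      _ ≤ B * ‖x - c‖ + B * ‖x - c‖ := by
          gcongr
      _ = _ := by ring
  · calc ‖S n c x m‖ * θ ≤ B * ‖x - c‖ := by gcongr
      _ ≤ 2 * B * ‖x - c‖ := by
          have : 0 ≤ B * ‖x - c‖ := by positivity
          linarith

end Pool.Agent.W746.LD
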