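import Mathlib
import Pool.Agent.W746.LD.Gain

/-!
# Points that shadow the critical value until its first return
-/

set_option autoImplicit false
open Set Filter Topology Metric

namespace Pool.Agent.W746.LD

variable {n : ℕ} {c : ℂ} {C0 c0 R Kd : ℝ} {T : ℕ}

theorem differentiable_orb (k : ℕ) : Differentiable ℂ (fun z => orb n c z k) :=
  fun z => (hasDerivAt_orb z k).differentiableAt

theorem differentiable_P (k : ℕ) : Differentiable ℂ (fun z => P n c z k) := by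
  induction k with
  | zero => simp only [P_zero]; exact differentiable_const _
  | succ k ih =>
    simp only [P_succ]
    exact ih.mul ((differentiable_const _).mul ((differentiable_orb k).pow _))

theorem differentiableAt_S {z : ℂ} (N : ℕ) (h : ∀ i < N, P n c z i ≠ 0) :
    DifferentiableAt ℂ (fun z => S n c z N) z := by
  induction N with
  | zero => simp only [S_zero]; exact differentiableAt_const _
  | succ N ih =>
    simp only [S_succ]
    exact (ih fun i hi => h i (by omega)).add ((differentiable_P N z).inv (h N (by omega)))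

/-- Points near the critical value that follow it until its first return to `ball c ρ`. -/
theorem Sett.shadow_pts (s : Sett C0 c0 R Kd n c T) {ρ : ℝ} (hρ : 0 < ρ) {M : ℕ}
    (hM : Ret n c ρ c M) (hMT : M ≤ T) :
    ∃ (ζc : ℂ) (g : ℂ → ℂ), IsChain n c (M - 1) (ball ζc R) g ∧ g ζc = c ∧
      (‖deriv g ζc‖ * ‖P n c c M‖ = ‖orb n c c M - c‖) ∧
      ∀ ζ ∈ ball ζc (c0 * R / (2 * C0)),
        (∀ i, 1 ≤ i → i < M → ρ / 2 ≤ ‖orb n c (g ζ) i - c‖) ∧
        ‖orb n c (g ζ) M - c‖ ≤ Real.exp R * ‖orb n c c M - c‖ ∧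
        ‖g ζ - c‖ * Kd ≤ C0 * R * ρ ∧
        (∀ i < M, ‖P n c c i‖ ≤ C0 ^ 2 * ‖P n c (g ζ) i‖) ∧
        ‖deriv g ζ‖ * Kd ≤ C0 * ρ ∧
        ‖deriv g ζ‖ * ‖P n c (g ζ) M‖ = ‖orb n c (g ζ) M - c‖ ∧
        (∀ i ≤ M, P n c (g ζ) i ≠ 0) := by
  obtain ⟨b, rfl⟩ : ∃ b, M = b + 1 := ⟨M - 1, by have := hM.1; omega⟩
  have hn := s.hn
  have hC := s.K.one_le
  have hc0 := s.K.pos
  have hc4 := s.K.le
  have hKd := s.hKd
  have hn0 : (n : ℂ) ≠ 0 := by exact_mod_cast (by omega : n ≠ 0)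
  have hR0 : 0 < R := by linarith [s.hR]
  have hcM := s.c_ne hM.1 hMT
  have hzb : orb n c c b ≠ 0 := orb_ne_zero_of_ne hn (by rwa [norm_pos_iff, sub_ne_zero] at hcM)
  have hζ0 : Complex.exp ((n * Complex.log (orb n c c b)) / n) = orb n c c b := by
    rw [mul_div_cancel_left₀ _ hn0, Complex.exp_log hzb]
  set ζc : ℂ := n * Complex.log (orb n c c b) with hζ0d
  obtain ⟨g, hg, hg0⟩ := s.hH ρ hρ b c ζc hMT (fun i h1 h2 => hM.2.1 i h1 (by omega)) hM.2.2 hζ0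
  have hζcm : ζc ∈ ball ζc R := mem_ball_self hR0
  have hexp : Real.exp ζc.re = ‖orb n c c (b + 1) - c‖ := by
    have := hg.norm_sub hn hζcm
    rw [hg0] at this
    exact this.symm
  have hder : ‖deriv g ζc‖ * ‖P n c c (b + 1)‖ = ‖orb n c c (b + 1) - c‖ := by
    have := hg.norm_deriv hn isOpen_ball hζcm
    rw [hg0, hexp] at this
    exact this
  have hD := s.D (b + 1) hM.1 hMT
  have hderc : ‖deriv g ζc‖ * Kd ≤ ρ := by
    calc ‖deriv g ζc‖ * Kd ≤ ‖deriv g ζc‖ * ‖P n c c (b + 1)‖ := by gcongr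
      _ = ‖orb n c c (b + 1) - c‖ := hder
      _ ≤ ρ := hM.2.2.le
  have hderpos : 0 < ‖deriv g ζc‖ := by
    rw [norm_pos_iff]
    intro h
    rw [h, norm_zero, zero_mul] at hder
    linarith
  have hR'R : c0 * R / (2 * C0) ≤ R / 4 := by
    rw [div_le_iff₀ (by positivity)]
    nlinarith
  refine ⟨ζc, g, by simpa using hg, hg0, hder, ?_⟩
  intro ζ hζ
  rw [mem_ball, dist_eq_norm] at hζ
  have hζm : ζ ∈ ball ζc R := by rw [mem_ball, dist_eq_norm]; linarith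
  have hζ4 : ‖ζ - ζc‖ ≤ R / 4 := by linarith
  have hu := hg.univ hn s.hRn
  have hd := s.K.kdist g ζc R hR0 hu ζ hζ4
  refine ⟨?_, ?_, ?_, ?_, ?_, ?_, ?_⟩
  · intro i h1 h2
    have hch := hg.shift isOpen_ball (i := i) (by omega)
    have h3 := (nocrit_small s.K hn hR0 s.hRn hch (fun ζ hζ => hg.ne ζ hζ i h1 (by omega))).2 ζ hζ4
    simp only [hg0] at h3
    have h4 : c0 * R * ‖orb n c (g ζ) i - orb n c c i‖ ≤ c0 * R * (‖orb n c c i - c‖ / 2) := by
      refine h3.trans ?_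
      calc C0 * ‖ζ - ζc‖ * ‖orb n c c i - c‖
          ≤ C0 * (c0 * R / (2 * C0)) * ‖orb n c c i - c‖ := by gcongr
        _ = c0 * R * (‖orb n c c i - c‖ / 2) := by field_simp
    have h5 := le_of_mul_le_mul_left h4 (by positivity)
    have h6 := hM.2.1 i h1 h2
    have h7 : ‖orb n c c i - c‖ ≤ ‖orb n c (g ζ) i - c‖ + ‖orb n c (g ζ) i - orb n c c i‖ := by
      have e : orb n c c i - c = (orb n c (g ζ) i - c) - (orb n c (g ζ) i - orb n c c i) := by ring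
      rw [e]; exact norm_sub_le _ _
    linarith
  · rw [hg.norm_sub hn hζm, ← hexp, ← Real.exp_add]
    apply Real.exp_le_exp.mpr
    have h1 : (ζ - ζc).re ≤ ‖ζ - ζc‖ := (le_abs_self _).trans (Complex.abs_re_le_norm _)
    rw [Complex.sub_re] at h1
    linarith
  · have h1 := s.K.lip hR0 hu hζ4
    rw [hg0] at h1
    calc ‖g ζ - c‖ * Kd ≤ (C0 * ‖deriv g ζc‖ * ‖ζ - ζc‖) * Kd := by gcongr
      _ = C0 * ‖ζ - ζc‖ * (‖deriv g ζc‖ * Kd) := by ring
      _ ≤ C0 * R * ρ := by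
          gcongr
          linarith
  · intro i hi
    have hui : Univ (fun ζ => orb n c (g ζ) i) ζc R := hg.univ_orb hn s.hRn (by omega)
    have h1 := (s.K.kdist _ ζc R hR0 hui ζ hζ4).2
    rw [(hg.hasDerivAt_orb isOpen_ball hζm i).deriv, (hg.hasDerivAt_orb isOpen_ball hζcm i).deriv,
      hg0, norm_mul, norm_mul] at h1
    have h2 : ‖P n c c i‖ * ‖deriv g ζc‖ ≤ C0 ^ 2 * ‖P n c (g ζ) i‖ * ‖deriv g ζc‖ := by
      calc ‖P n c c i‖ * ‖deriv g ζc‖ ≤ C0 * (‖P n c (g ζ) i‖ * ‖deriv g ζ‖) := h1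
        _ ≤ C0 * (‖P n c (g ζ) i‖ * (C0 * ‖deriv g ζc‖)) := by
            gcongr; exact hd.1
        _ = _ := by ring
    exact le_of_mul_le_mul_right h2 hderpos
  · calc ‖deriv g ζ‖ * Kd ≤ (C0 * ‖deriv g ζc‖) * Kd := by gcongr; exact hd.1
      _ = C0 * (‖deriv g ζc‖ * Kd) := by ring
      _ ≤ C0 * ρ := by gcongr
  · rw [hg.norm_deriv hn isOpen_ball hζm, hg.norm_sub hn hζm]
  · intro i hi
    exact hg.P_ne_zero hn hζm hi

/-- Points in the deep level see a first return to the shallower level, and their sums until the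
first return of the critical value are controlled. -/
theorem Sett.shadow_sup (s : Sett C0 c0 R Kd n c T) {ρ ρ' δ : ℝ} (hρ : 0 < ρ) (hδ0 : 0 ≤ δ)
    (hδ1 : δ ≤ 1) (hρ' : Real.exp R * ρ ≤ ρ') (hK1 : C0 * R * ρ < Kd * ρ')
    (hK2 : C0 * (R / 8) * Real.exp (R / 8) * ρ' < Kd * (ρ / 2)) {τ' : ℂ}
    (hI : ∀ (z : ℂ) (m : ℕ), ‖z - c‖ < ρ' → Ret n c ρ' z m → m ≤ T → ‖S n c z m - τ'‖ ≤ δ * ‖τ'‖)
    {M : ℕ} (hM : Ret n c ρ c M) (hMT : M ≤ T) {z : ℂ}
    (h1 : ∀ i, 1 ≤ i → i < M → ρ / 2 ≤ ‖orb n c z i - c‖)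
    (h2 : ‖orb n c z M - c‖ ≤ Real.exp R * ‖orb n c c M - c‖)
    (h3 : ‖z - c‖ * Kd ≤ C0 * R * ρ)
    (h4 : ∀ i < M, ‖P n c c i‖ ≤ C0 ^ 2 * ‖P n c z i‖) :
    ‖S n c z M - τ'‖ ≤ (δ + 8 * C0 ^ 2 * ρ' / (Kd * ρ)) * ‖τ'‖ := by
  have hKd := s.hKd
  have hC := s.K.one_le
  have hR0 : 0 < R := by linarith [s.hR]
  have hρ'0 : 0 < ρ' := lt_of_lt_of_le (by positivity) hρ'
  have hzρ' : ‖z - c‖ < ρ' := by
    have : Kd * ‖z - c‖ < Kd * ρ' := by linarith
    exact lt_of_mul_lt_mul_left this hKd.le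
  have hzM : ‖orb n c z M - c‖ < ρ' := by
    calc ‖orb n c z M - c‖ ≤ Real.exp R * ‖orb n c c M - c‖ := h2
      _ < Real.exp R * ρ := by
          have := hM.2.2
          gcongr
      _ ≤ ρ' := hρ'
  obtain ⟨N, hNM, hN⟩ := exists_ret hM.1 hzM
  have hSN := hI z N hzρ' hN (by omega)
  have hκ : 0 ≤ 8 * C0 ^ 2 * ρ' / (Kd * ρ) * ‖τ'‖ := by positivity
  rcases hNM.lt_or_eq with hlt | rfl
  · have hB : ∀ (z : ℂ) (m : ℕ), ‖z - c‖ < ρ' → Ret n c ρ' z m → m ≤ T →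
        ‖S n c z m‖ ≤ 2 * ‖τ'‖ := by
      intro z m h5 h6 h7
      have h8 := hI z m h5 h6 h7
      calc ‖S n c z m‖ = ‖(S n c z m - τ') + τ'‖ := by congr 1; ring
        _ ≤ ‖S n c z m - τ'‖ + ‖τ'‖ := norm_add_le _ _
        _ ≤ 1 * ‖τ'‖ + ‖τ'‖ := by
            have : δ * ‖τ'‖ ≤ 1 * ‖τ'‖ := by gcongr
            linarith
        _ = _ := by ring
    have h5 := s.S_bound hρ'0 (θ := ρ / 2) (by positivity) (B := 2 * ‖τ'‖) (by positivity) hK2 hB
      (M - N) (orb n c z N) (by omega) hN.2.2 (by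
        intro i hi
        rw [← orb_add]
        exact h1 (N + i) (by have := hN.1; omega) (by omega)) (by
        rw [← orb_add, Nat.add_sub_cancel' hNM]; exact hzM)
    have h6 : ‖S n c (orb n c z N) (M - N)‖ ≤ 8 * ‖τ'‖ * ρ' / ρ := by
      rw [le_div_iff₀ hρ]
      have h7 : 2 * (2 * ‖τ'‖) * ‖orb n c z N - c‖ ≤ 2 * (2 * ‖τ'‖) * ρ' := by
        gcongr; exact hN.2.2.le
      linarith
    have h7 : Kd ≤ C0 ^ 2 * ‖P n c z N‖ := (s.D N hN.1 (by omega)).trans (h4 N hlt)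
    have hPpos : 0 < ‖P n c z N‖ := by
      by_contra hcon
      have : ‖P n c z N‖ = 0 := le_antisymm (not_lt.mp hcon) (norm_nonneg _)
      rw [this, mul_zero] at h7
      linarith
    have h8 : ‖P n c z N‖⁻¹ ≤ C0 ^ 2 / Kd := by
      rw [inv_le_comm₀ hPpos (by positivity), inv_div, div_le_iff₀ (by positivity)]
      linarith
    have h9 : S n c z M = S n c z N + (P n c z N)⁻¹ * S n c (orb n c z N) (M - N) := by
      rw [← S_add, Nat.add_sub_cancel' hNM]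
    calc ‖S n c z M - τ'‖ = ‖(S n c z N - τ') + (P n c z N)⁻¹ * S n c (orb n c z N) (M - N)‖ := by
          rw [h9]; congr 1; ring
      _ ≤ ‖S n c z N - τ'‖ + ‖(P n c z N)⁻¹ * S n c (orb n c z N) (M - N)‖ := norm_add_le _ _
      _ ≤ δ * ‖τ'‖ + (C0 ^ 2 / Kd) * (8 * ‖τ'‖ * ρ' / ρ) := by
          rw [norm_mul, norm_inv]
          gcongr
      _ = _ := by field_simp
  · calc ‖S n c z N - τ'‖ ≤ δ * ‖τ'‖ := hSN
      _ ≤ _ := by rw [add_mul]; linarith

/-- The comparison of the sums of a shadowing point and of the critical value. -/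
theorem Sett.shadow_close (s : Sett C0 c0 R Kd n c T) {ρ : ℝ} {M : ℕ} {ζc : ℂ} {g : ℂ → ℂ} {m1 : ℝ}
    (hm1 : 0 < m1) (hg : IsChain n c (M - 1) (ball ζc R) g) (hM1 : 1 ≤ M) {τ' : ℂ}
    (hsup : ∀ ζ ∈ ball ζc (c0 * R / (2 * C0)), ‖S n c (g ζ) M - τ'‖ ≤ m1)
    {ζ : ℂ} (hζ : ‖ζ - ζc‖ < c0 * R / (2 * C0) / 8) :
    ‖S n c (g ζ) M - S n c (g ζc) M‖ ≤ m1 / 2 := by
  have hC := s.K.one_le
  have hc0 := s.K.pos
  have hc4 := s.K.le
  have hR0 : 0 < R := by linarith [s.hR]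
  set R' : ℝ := c0 * R / (2 * C0) with hR'
  have hR'0 : 0 < R' := by positivity
  have hR'R : R' ≤ R := by
    rw [hR', div_le_iff₀ (by positivity)]
    nlinarith
  have hsub : ball ζc R' ⊆ ball ζc R := ball_subset_ball hR'R
  have hζcm : ζc ∈ ball ζc R' := mem_ball_self hR'0
  have hd : DifferentiableOn ℂ (fun ζ => S n c (g ζ) M) (ball ζc R') := by
    intro x hx
    have h1 : DifferentiableAt ℂ (fun z => S n c z M) (g x) := by
      apply differentiableAt_S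
      intro i hi
      exact hg.P_ne_zero s.hn (hsub hx) (by omega)
    have h2 : DifferentiableAt ℂ g x := hg.diff.differentiableAt (isOpen_ball.mem_nhds (hsub hx))
    exact (h1.comp x h2).differentiableWithinAt
  have hmaps : MapsTo (fun ζ => S n c (g ζ) M) (ball ζc R') (ball (S n c (g ζc) M) (3 * m1)) := by
    intro x hx
    rw [mem_ball, dist_eq_norm]
    have h1 := hsup x hx
    have h2 := hsup ζc hζcm
    calc ‖S n c (g x) M - S n c (g ζc) M‖
        = ‖(S n c (g x) M - τ') - (S n c (g ζc) M - τ')‖ := by congr 1; ring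
      _ ≤ ‖S n c (g x) M - τ'‖ + ‖S n c (g ζc) M - τ'‖ := norm_sub_le _ _
      _ < 3 * m1 := by linarith
  have h3 := Complex.dist_le_div_mul_dist_of_mapsTo_ball hd (hmaps.mono_right ball_subset_closedBall)
    (z := ζ) (by
    rw [mem_ball, dist_eq_norm]; linarith)
  rw [dist_eq_norm, dist_eq_norm] at h3
  calc ‖S n c (g ζ) M - S n c (g ζc) M‖ ≤ 3 * m1 / R' * ‖ζ - ζc‖ := h3
    _ ≤ 3 * m1 / R' * (R' / 8) := by gcongr
    _ = 3 * m1 / 8 := by field_simp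
    _ ≤ m1 / 2 := by linarith

end Pool.Agent.W746.LD
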