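import Mathlib
import Pool.Agent.W746.LD.Shadow

/-!
# One-level steps
-/

set_option autoImplicit false
open Set Filter Topology Metric

namespace Pool.Agent.W746.LD

variable {n : ℕ} {c : ℂ} {C0 c0 R Kd Q : ℝ} {T : ℕ}

/-- The radii of the levels. -/
noncomputable def lev (Q : ℝ) (k : ℕ) : ℝ := 7 / Q ^ k

/-- Conditions on the constants. -/
structure Lev (C0 c0 R Kd Q : ℝ) : Prop where
  Q4 : 4 ≤ Q
  QR : Real.exp R ≤ Q
  r250 : 250 * C0 ≤ c0 * (c0 * R / (2 * C0) / 8)
  kB : C0 * (R / 8) * Real.exp (R / 8) * (Q ^ 2 * (2 + C0 / c0)) < Kd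
  k5 : C0 * R < Kd
  k6 : 10000 * C0 ^ 2 * Real.exp R * Q ≤ Kd

theorem lev_zero (Q : ℝ) : lev Q 0 = 7 := by simp [lev]

theorem lev_pos (hQ : 0 < Q) (k : ℕ) : 0 < lev Q k := by unfold lev; positivity

theorem lev_succ (hQ : 0 < Q) (k : ℕ) : Q * lev Q (k + 1) = lev Q k := by
  unfold lev; field_simp; ring

theorem lev_anti (hQ : 1 ≤ Q) {k l : ℕ} (h : k ≤ l) : lev Q l ≤ lev Q k := by
  unfold lev
  have : 0 < Q := by linarith
  gcongr

theorem lev_add (hQ : 4 ≤ Q) (k l : ℕ) : lev Q (k + l) ≤ lev Q k * (1 / 4) ^ l := by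
  unfold lev
  have : 0 < Q := by linarith
  rw [pow_add, ← div_div, div_eq_mul_inv _ (Q ^ l), ← inv_pow]
  have h1 : Q⁻¹ ≤ 1 / 4 := by rw [inv_le_comm₀ this (by norm_num)]; simpa using hQ
  gcongr

/-- The step of the sums from one level to the next one. -/
theorem Sett.z_step (s : Sett C0 c0 R Kd n c T) {ρ ρ1 B β : ℝ} (hρ : 0 < ρ) (hρ1 : 0 < ρ1)
    (hle : ρ1 ≤ ρ) (hB : 0 ≤ B) (hβ : 0 ≤ β)
    (hθ : C0 * (R / 8) * Real.exp (R / 8) * ρ < Kd * ρ1)
    (hI : ∀ (z : ℂ) (m : ℕ), ‖z - c‖ < ρ → Ret n c ρ z m → m ≤ T → ‖S n c z m‖ ≤ B)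
    {z : ℂ} {N N1 : ℕ} (hN : Ret n c ρ z N) (hN1 : Ret n c ρ1 z N1) (hN1T : N1 ≤ T)
    (hα : ‖orb n c z N - c‖ ≤ β * ‖P n c z N‖) :
    ‖S n c z N1 - S n c z N‖ * ρ1 ≤ 2 * B * β := by
  have hle' : N ≤ N1 := by
    by_contra hcon
    push Not at hcon
    have := hN.2.1 N1 hN1.1 hcon
    have := hN1.2.2
    linarith
  rcases hle'.lt_or_eq with hlt | rfl
  · have hxN : ρ1 ≤ ‖orb n c z N - c‖ := hN1.2.1 N hN.1 hlt
    have h1 := s.S_bound hρ hρ1 hB hθ hI (N1 - N) (orb n c z N) (by omega) hN.2.2 (by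
      intro i hi
      rw [← orb_add]
      exact hN1.2.1 (N + i) (by have := hN.1; omega) (by omega)) (by
      rw [← orb_add, Nat.add_sub_cancel' hle']
      exact lt_of_lt_of_le hN1.2.2 hle)
    have hPpos : 0 < ‖P n c z N‖ := by
      by_contra hcon
      have : ‖P n c z N‖ = 0 := le_antisymm (not_lt.mp hcon) (norm_nonneg _)
      rw [this, mul_zero] at hα
      linarith
    have h2 : S n c z N1 - S n c z N = (P n c z N)⁻¹ * S n c (orb n c z N) (N1 - N) := by
      have : S n c z N1 = S n c z N + (P n c z N)⁻¹ * S n c (orb n c z N) (N1 - N) := by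
        rw [← S_add, Nat.add_sub_cancel' hle']
      rw [this]; ring
    rw [h2, norm_mul, norm_inv]
    calc ‖P n c z N‖⁻¹ * ‖S n c (orb n c z N) (N1 - N)‖ * ρ1
        = ‖P n c z N‖⁻¹ * (‖S n c (orb n c z N) (N1 - N)‖ * ρ1) := by ring
      _ ≤ ‖P n c z N‖⁻¹ * (2 * B * ‖orb n c z N - c‖) := by gcongr
      _ ≤ ‖P n c z N‖⁻¹ * (2 * B * (β * ‖P n c z N‖)) := by gcongr
      _ = 2 * B * β := by field_simp
  · rw [sub_self, norm_zero, zero_mul]; positivity

theorem Lev.lam (L : Lev C0 c0 R Kd Q) (K : KC C0 c0) : 250 ≤ c0 * R / 8 := by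
  have h := L.r250
  have h1 := K.one_le
  have h2 := K.pos
  have h3 := K.le
  have h4 : c0 * (c0 * R / (2 * C0) / 8) = (c0 * R / 8) * (c0 / (2 * C0)) := by field_simp
  rw [h4] at h
  have h5 : c0 / (2 * C0) ≤ 1 := by rw [div_le_one (by positivity)]; linarith
  have h6 : 0 < c0 / (2 * C0) := by positivity
  have h7 : 0 < c0 * R / 8 := by
    by_contra hcon
    push Not at hcon
    have : (c0 * R / 8) * (c0 / (2 * C0)) ≤ 0 := mul_nonpos_of_nonpos_of_nonneg hcon h6.le
    linarith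
  nlinarith

/-- Lower bound for the derivative at the first return, general form. -/
theorem Sett.alpha1 (s : Sett C0 c0 R Kd n c T) (L : Lev C0 c0 R Kd Q) {ρ : ℝ} (hρ : 0 < ρ)
    {z : ℂ} {N : ℕ} (hN : Ret n c ρ z N) (hNT : N ≤ T) :
    ‖orb n c z N - c‖ ≤ (‖z - c‖ / 250 + C0 * Real.exp (R / 8) * ρ / Kd) * ‖P n c z N‖ := by
  have hKd := s.hKd
  have hC := s.K.one_le
  have hlam := L.lam s.K
  by_cases hmc : orb n c z N = c
  · rw [hmc, sub_self, norm_zero]; positivity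
  obtain ⟨ζ0, g, -, -, -, h⟩ := s.gain hρ hN hNT hmc
  rcases h with h | ⟨ζ', -, -, h1, h2, -⟩
  · have h3 : 250 * ‖orb n c z N - c‖ ≤ ‖P n c z N‖ * ‖z - c‖ := by
      refine le_trans ?_ h
      gcongr
    have h4 : ‖orb n c z N - c‖ ≤ ‖z - c‖ / 250 * ‖P n c z N‖ := by
      rw [div_mul_eq_mul_div, le_div_iff₀ (by norm_num)]
      linarith
    refine h4.trans ?_
    gcongr
    have : 0 ≤ C0 * Real.exp (R / 8) * ρ / Kd := by positivity
    linarith
  · have h3 := s.D N hN.1 hNT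
    have h4 : ‖orb n c z N - c‖ * Kd ≤ (C0 * Real.exp (R / 8) * ρ) * ‖P n c z N‖ := by
      calc ‖orb n c z N - c‖ * Kd ≤ ‖orb n c z N - c‖ * ‖P n c c N‖ := by gcongr
        _ ≤ C0 * ‖orb n c c N - c‖ * ‖P n c z N‖ := h2
        _ ≤ C0 * (Real.exp (R / 8) * ‖orb n c z N - c‖) * ‖P n c z N‖ := by gcongr
        _ ≤ C0 * (Real.exp (R / 8) * ρ) * ‖P n c z N‖ := by
            have := hN.2.2.le
            gcongr
        _ = _ := by ring
    have h5 : ‖orb n c z N - c‖ ≤ C0 * Real.exp (R / 8) * ρ / Kd * ‖P n c z N‖ := by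
      rw [div_mul_eq_mul_div, le_div_iff₀ hKd]
      exact h4
    refine h5.trans ?_
    gcongr
    have : 0 ≤ ‖z - c‖ / 250 := by positivity
    linarith

/-- Lower bound for the derivative at the first return, when the critical value is not shadowed
at the previous level. -/
theorem Sett.alpha2 (s : Sett C0 c0 R Kd n c T) (L : Lev C0 c0 R Kd Q) {ρ : ℝ} (hρ : 0 < ρ)
    {z : ℂ} {N M : ℕ} (hN : Ret n c ρ z N) (hNT : N ≤ T) (hM : Ret n c (Q * ρ) c M) (hMT : M ≤ T)
    (hns : c0 * (c0 * R / (2 * C0) / 8) * ‖orb n c c M - c‖ ≤ ‖z - c‖ * ‖P n c c M‖) :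
    ‖orb n c z N - c‖ ≤ ‖z - c‖ / 250 * ‖P n c z N‖ := by
  have hKd := s.hKd
  have hC := s.K.one_le
  have hc0 := s.K.pos
  have hlam := L.lam s.K
  have hR0 : 0 < R := by linarith [s.hR]
  have hQ4 := L.Q4
  by_cases hmc : orb n c z N = c
  · rw [hmc, sub_self, norm_zero]; positivity
  obtain ⟨ζ0, g, hg, hg0, -, h⟩ := s.gain hρ hN hNT hmc
  rcases h with h | ⟨ζ', hζ', hgc, h1, h2, -⟩
  · have h3 : 250 * ‖orb n c z N - c‖ ≤ ‖P n c z N‖ * ‖z - c‖ := by
      refine le_trans ?_ h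
      gcongr
    rw [div_mul_eq_mul_div, le_div_iff₀ (by norm_num)]
    linarith
  · -- the critical value follows `z` until time `N`
    have hN1 := hN.1
    have heN : ‖orb n c c N - c‖ < Q * ρ := by
      calc ‖orb n c c N - c‖ ≤ Real.exp (R / 8) * ‖orb n c z N - c‖ := h1
        _ < Real.exp (R / 8) * ρ := by
            have := hN.2.2
            gcongr
        _ ≤ Real.exp R * ρ := by
            gcongr; linarith
        _ ≤ Q * ρ := by
            have := L.QR
            gcongr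
    -- the positions of the critical orbit
    have hpos : ∀ i, 1 ≤ i → i < N → ρ ≤ (1 + C0 / (4 * c0)) * ‖orb n c c i - c‖ := by
      intro i hi1 hi2
      have hch := hg.shift isOpen_ball (i := i) (by omega)
      have hsub : ball ζ' (R / 2) ⊆ ball ζ0 R := by
        intro x hx
        rw [mem_ball, dist_eq_norm] at hx ⊢
        calc ‖x - ζ0‖ = ‖(x - ζ') + (ζ' - ζ0)‖ := by congr 1; ring
          _ ≤ ‖x - ζ'‖ + ‖ζ' - ζ0‖ := norm_add_le _ _
          _ < R := by linarith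
      have h3 := (nocrit_small s.K s.hn (r := R / 2) (by positivity) (by linarith [s.hRn])
        (hch.mono hsub) (fun ζ hζ => hg.ne ζ (hsub hζ) i hi1 (by omega))).2 ζ0 (by
          rw [norm_sub_rev]; linarith)
      simp only [hg0, hgc] at h3
      have h4 : c0 * (R / 2) * ‖orb n c z i - orb n c c i‖ ≤
          c0 * (R / 2) * (C0 / (4 * c0) * ‖orb n c c i - c‖) := by
        refine h3.trans ?_
        calc C0 * ‖ζ0 - ζ'‖ * ‖orb n c c i - c‖ ≤ C0 * (R / 8) * ‖orb n c c i - c‖ := by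
              rw [norm_sub_rev]; gcongr
          _ = _ := by field_simp; ring
      have h5 := le_of_mul_le_mul_left h4 (by positivity)
      have h6 := hN.2.1 i hi1 hi2
      have h7 : ‖orb n c z i - c‖ ≤ ‖orb n c z i - orb n c c i‖ + ‖orb n c c i - c‖ := by
        have e : orb n c z i - c = (orb n c z i - orb n c c i) + (orb n c c i - c) := by ring
        rw [e]; exact norm_add_le _ _
      calc ρ ≤ ‖orb n c z i - c‖ := h6
        _ ≤ _ := h7
        _ ≤ _ := by linarith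
    have hMN : M ≤ N := by
      by_contra hcon
      push Not at hcon
      have := hM.2.1 N hN1 hcon
      linarith
    -- monotonicity of the relative derivative
    have hmono : ‖orb n c c N - c‖ * ‖P n c c M‖ ≤ ‖orb n c c M - c‖ * ‖P n c c N‖ := by
      rcases hMN.lt_or_eq with hlt | rfl
      · set θ : ℝ := ρ / (1 + C0 / (4 * c0)) with hθ
        have hL2 : 0 < 1 + C0 / (4 * c0) := by positivity
        have hθ0 : 0 < θ := by positivity
        have hθc : C0 * (R / 8) * Real.exp (R / 8) * (Q * ρ) < Kd * θ := by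
          rw [hθ, ← mul_div_assoc Kd, lt_div_iff₀ hL2]
          have hk := L.kB
          have h8 : Q * (1 + C0 / (4 * c0)) ≤ Q ^ 2 * (2 + C0 / c0) := by
            have h9 : C0 / (4 * c0) ≤ C0 / c0 := by
              apply div_le_div_of_nonneg_left (by positivity) hc0 (by linarith)
            have h10 : Q ≤ Q ^ 2 := by nlinarith
            have h11 : 0 ≤ C0 / (4 * c0) := by positivity
            calc Q * (1 + C0 / (4 * c0)) ≤ Q ^ 2 * (1 + C0 / (4 * c0)) := by gcongr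
              _ ≤ _ := by gcongr; norm_num
          calc C0 * (R / 8) * Real.exp (R / 8) * (Q * ρ) * (1 + C0 / (4 * c0))
              = C0 * (R / 8) * Real.exp (R / 8) * (Q * (1 + C0 / (4 * c0))) * ρ := by ring
            _ ≤ C0 * (R / 8) * Real.exp (R / 8) * (Q ^ 2 * (2 + C0 / c0)) * ρ := by gcongr
            _ < Kd * ρ := by gcongr
        have h3 := s.gain_iter (ρ := Q * ρ) (by positivity) hθ0 hθc (N - M) (orb n c c M) (by omega)
          (by omega) (by
            intro i hi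
            rw [← orb_add, hθ, div_le_iff₀ hL2, mul_comm]
            exact hpos (M + i) (by have := hM.1; omega) (by omega)) (by
            rw [← orb_add, Nat.add_sub_cancel' hMN]; exact heN)
        rw [← orb_add, Nat.add_sub_cancel' hMN] at h3
        have h4 : ‖orb n c c N - c‖ ≤ ‖P n c (orb n c c M) (N - M)‖ * ‖orb n c c M - c‖ := by
          refine le_trans ?_ h3
          have : 0 ≤ ‖orb n c c N - c‖ := norm_nonneg _
          nlinarith
        have h5 : ‖P n c c N‖ = ‖P n c c M‖ * ‖P n c (orb n c c M) (N - M)‖ := by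
          rw [← norm_P_add, Nat.add_sub_cancel' hMN]
        calc ‖orb n c c N - c‖ * ‖P n c c M‖
            ≤ (‖P n c (orb n c c M) (N - M)‖ * ‖orb n c c M - c‖) * ‖P n c c M‖ := by gcongr
          _ = _ := by rw [h5]; ring
      · exact le_rfl
    have hMpos := s.c_ne hM.1 hMT
    have hPN := s.D N hN1 hNT
    have hPN0 : 0 < ‖P n c c N‖ := by linarith
    have hPM0 : 0 < ‖P n c c M‖ := by linarith [s.D M hM.1 hMT]
    -- `e_N * 250 * C0 ≤ ‖z - c‖ * D_N`
    have h6 : 250 * C0 * ‖orb n c c N - c‖ ≤ ‖z - c‖ * ‖P n c c N‖ := by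
      have h7 : 250 * C0 * ‖orb n c c M - c‖ ≤ ‖z - c‖ * ‖P n c c M‖ := by
        refine le_trans ?_ hns
        have := L.r250
        gcongr
      have h8 : (250 * C0 * ‖orb n c c N - c‖) * (‖orb n c c M - c‖ * ‖P n c c M‖) ≤
          (‖z - c‖ * ‖P n c c N‖) * (‖orb n c c M - c‖ * ‖P n c c M‖) := by
        calc (250 * C0 * ‖orb n c c N - c‖) * (‖orb n c c M - c‖ * ‖P n c c M‖)
            = (250 * C0 * ‖orb n c c M - c‖) * (‖orb n c c N - c‖ * ‖P n c c M‖) := by ring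
          _ ≤ (‖z - c‖ * ‖P n c c M‖) * (‖orb n c c M - c‖ * ‖P n c c N‖) := by gcongr
          _ = _ := by ring
      exact le_of_mul_le_mul_right h8 (by positivity)
    have h7 : ‖orb n c z N - c‖ * ‖P n c c N‖ ≤ ‖z - c‖ / 250 * ‖P n c z N‖ * ‖P n c c N‖ := by
      calc ‖orb n c z N - c‖ * ‖P n c c N‖ ≤ C0 * ‖orb n c c N - c‖ * ‖P n c z N‖ := h2
        _ = (250 * C0 * ‖orb n c c N - c‖) / 250 * ‖P n c z N‖ := by ring
        _ ≤ (‖z - c‖ * ‖P n c c N‖) / 250 * ‖P n c z N‖ := by gcongr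
        _ = _ := by ring
    exact le_of_mul_le_mul_right h7 hPN0

end Pool.Agent.W746.LD
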