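import Mathlib
import Pool.Agent.W746.LD.Steps

/-!
# Sums over the levels where the critical value is not shadowed
-/

set_option autoImplicit false
open Set Filter Topology Metric

namespace Pool.Agent.W746.LD

variable {n : ℕ} {c : ℂ} {C0 c0 R Kd Q : ℝ} {T : ℕ}

/-- The main statement at level `j`: the sum of the inverse derivatives until the first return is
almost the same for all points of the level. -/
def ILev (n : ℕ) (c : ℂ) (T : ℕ) (Q : ℝ) (j : ℕ) : Prop :=
  ∀ M, Ret n c (lev Q j) c M → M ≤ T → ∀ (z : ℂ) (m : ℕ), ‖z - c‖ < lev Q j →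
    Ret n c (lev Q j) z m → m ≤ T → ‖S n c z m - S n c c M‖ ≤ 1 / 4 * ‖S n c c M‖

theorem ILev.bound {j : ℕ} (h : ILev n c T Q j) {M : ℕ} (hM : Ret n c (lev Q j) c M) (hMT : M ≤ T) :
    ∀ (z : ℂ) (m : ℕ), ‖z - c‖ < lev Q j → Ret n c (lev Q j) z m → m ≤ T →
      ‖S n c z m‖ ≤ 5 / 4 * ‖S n c c M‖ := by
  intro z m h1 h2 h3
  have h4 := h M hM hMT z m h1 h2 h3
  calc ‖S n c z m‖ = ‖(S n c z m - S n c c M) + S n c c M‖ := by congr 1; ring
    _ ≤ ‖S n c z m - S n c c M‖ + ‖S n c c M‖ := norm_add_le _ _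
    _ ≤ _ := by linarith

theorem Lev.Qpos (L : Lev C0 c0 R Kd Q) : 0 < Q := by linarith [L.Q4]

/-- The condition for one-level steps. -/
theorem Lev.cond1 (L : Lev C0 c0 R Kd Q) (K : KC C0 c0) (hR : 0 < R) {ρ ρ1 : ℝ} (hρ1 : 0 < ρ1)
    (h : ρ ≤ Q ^ 2 * ρ1 * 2) : C0 * (R / 8) * Real.exp (R / 8) * ρ < Kd * ρ1 := by
  have hC := K.one_le
  have hc0 := K.pos
  have hQ := L.Qpos
  have h1 := L.kB
  have h2 : 0 ≤ C0 / c0 := by positivity
  calc C0 * (R / 8) * Real.exp (R / 8) * ρ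
      ≤ C0 * (R / 8) * Real.exp (R / 8) * (Q ^ 2 * ρ1 * 2) := by gcongr
    _ = C0 * (R / 8) * Real.exp (R / 8) * (Q ^ 2 * 2) * ρ1 := by ring
    _ ≤ C0 * (R / 8) * Real.exp (R / 8) * (Q ^ 2 * (2 + C0 / c0)) * ρ1 := by
        gcongr; linarith
    _ < Kd * ρ1 := by gcongr

theorem Lev.k6' (L : Lev C0 c0 R Kd Q) (K : KC C0 c0) (hR : 0 < R) : 10000 * C0 * Q ≤ Kd := by
  have hC := K.one_le
  have hQ := L.Qpos
  have h1 : 1 ≤ Real.exp R := Real.one_le_exp hR.le
  refine le_trans ?_ L.k6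
  have h2 : C0 ≤ C0 ^ 2 := by nlinarith
  calc 10000 * C0 * Q ≤ 10000 * C0 ^ 2 * Q := by gcongr
    _ = 10000 * C0 ^ 2 * 1 * Q := by ring
    _ ≤ _ := by gcongr

/-- The general one-level step for the critical value. -/
theorem Sett.tau_gen (s : Sett C0 c0 R Kd n c T) (L : Lev C0 c0 R Kd Q) {k : ℕ}
    (hI : ILev n c T Q k) {M M1 : ℕ} (hM : Ret n c (lev Q k) c M)
    (hM1 : Ret n c (lev Q (k + 1)) c M1) (hMT : M ≤ T) (hM1T : M1 ≤ T) :
    ‖S n c c M1 - S n c c M‖ ≤ 1 / 1000 * ‖S n c c M‖ := by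
  have hQ := L.Qpos
  have hKd := s.hKd
  have hR0 : 0 < R := by linarith [s.hR]
  have hC := s.K.one_le
  have hl := lev_succ hQ k
  have hp1 := lev_pos hQ (k + 1)
  have hp := lev_pos hQ k
  have hQ4 := L.Q4
  have h1 := s.z_step (ρ := lev Q k) (ρ1 := lev Q (k + 1)) (B := 5 / 4 * ‖S n c c M‖)
    (β := lev Q k / Kd) hp hp1 (lev_anti (by linarith) (by omega)) (by positivity) (by positivity)
    (L.cond1 s.K hR0 hp1 (by rw [← hl]; nlinarith)) (hI.bound hM hMT) hM hM1 hM1T (by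
      have h2 := s.D M hM.1 hMT
      rw [div_mul_eq_mul_div, le_div_iff₀ hKd]
      have := hM.2.2.le
      gcongr)
  have h3 := L.k6' s.K hR0
  have h4 : 2 * (5 / 4 * ‖S n c c M‖) * (lev Q k / Kd) ≤
      1 / 1000 * ‖S n c c M‖ * lev Q (k + 1) := by
    rw [← hl]
    have h5 : Q / Kd ≤ 1 / 10000 := by
      rw [div_le_div_iff₀ hKd (by norm_num)]
      nlinarith
    calc 2 * (5 / 4 * ‖S n c c M‖) * (Q * lev Q (k + 1) / Kd)
        = 5 / 2 * ‖S n c c M‖ * lev Q (k + 1) * (Q / Kd) := by ring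
      _ ≤ 5 / 2 * ‖S n c c M‖ * lev Q (k + 1) * (1 / 10000) := by gcongr
      _ ≤ _ := by
          have : 0 ≤ ‖S n c c M‖ * lev Q (k + 1) := by positivity
          nlinarith
  exact le_of_mul_le_mul_right (h1.trans h4) hp1

/-- The one-level step for a general point with a good lower bound for the derivative. -/
theorem Sett.z_gen (s : Sett C0 c0 R Kd n c T) (L : Lev C0 c0 R Kd Q) {k : ℕ}
    (hI : ILev n c T Q k) {M : ℕ} (hM : Ret n c (lev Q k) c M) (hMT : M ≤ T)
    {z : ℂ} {N N1 : ℕ} (hN : Ret n c (lev Q k) z N) (hN1 : Ret n c (lev Q (k + 1)) z N1)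
    (hN1T : N1 ≤ T) {β : ℝ} (hβ : 0 ≤ β) (hα : ‖orb n c z N - c‖ ≤ β * ‖P n c z N‖) :
    ‖S n c z N1 - S n c z N‖ * lev Q (k + 1) ≤ 5 / 2 * β * ‖S n c c M‖ := by
  have hQ := L.Qpos
  have hR0 : 0 < R := by linarith [s.hR]
  have hl := lev_succ hQ k
  have hp1 := lev_pos hQ (k + 1)
  have hp := lev_pos hQ k
  have hQ4 := L.Q4
  have h1 := s.z_step (ρ := lev Q k) (ρ1 := lev Q (k + 1)) (B := 5 / 4 * ‖S n c c M‖)
    (β := β) hp hp1 (lev_anti (by linarith) (by omega)) (by positivity) hβ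
    (L.cond1 s.K hR0 hp1 (by rw [← hl]; nlinarith)) (hI.bound hM hMT) hN hN1 hN1T hα
  linarith

/-- The sums over the levels where the critical value is not shadowed. -/
theorem Sett.sum_ns (s : Sett C0 c0 R Kd n c T) (L : Lev C0 c0 R Kd Q) {z : ℂ} {j k0 : ℕ}
    {N M : ℕ → ℕ} (hN : ∀ k ≤ j, Ret n c (lev Q k) z (N k)) (hM : ∀ k ≤ j, Ret n c (lev Q k) c (M k))
    (hNT : ∀ k ≤ j, N k ≤ T) (hMT : ∀ k ≤ j, M k ≤ T) (hI : ∀ k < j, ILev n c T Q k)
    (hz : ‖z - c‖ < lev Q j) (hk0 : k0 ≤ j)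
    (hns : ∀ k, k0 ≤ k → k < j →
      c0 * (c0 * R / (2 * C0) / 8) * ‖orb n c c (M k) - c‖ ≤ ‖z - c‖ * ‖P n c c (M k)‖) :
    (∀ k, k0 ≤ k → k ≤ j → ‖S n c c (M k) - S n c c (M j)‖ ≤
      7 / 500 * (1 - (1 / 4) ^ (j - k)) * ‖S n c c (M j)‖) ∧
    ‖S n c z (N j) - S n c z (N k0)‖ ≤ 3 / 100 * ‖S n c c (M j)‖ := by
  have hQ := L.Qpos
  have hQ4 := L.Q4
  have hKd := s.hKd
  have hC := s.K.one_le
  have hR0 : 0 < R := by linarith [s.hR]
  set u := ‖S n c c (M j)‖ with hu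
  have hu0 : 0 ≤ u := norm_nonneg _
  -- the steps of `τ`
  have hstep : ∀ k, k0 ≤ k → k < j → ‖S n c c (M (k + 1)) - S n c c (M k)‖ ≤
      1 / 100 * (1 / 4) ^ (j - k - 1) * ‖S n c c (M k)‖ := by
    intro k h1 h2
    have hp1 := lev_pos hQ (k + 1)
    have h3 := s.z_gen L (hI k h2) (hM k h2.le) (hMT k h2.le) (z := c) (hM k h2.le)
      (hM (k + 1) (by omega)) (hMT (k + 1) (by omega)) (β := ‖z - c‖ / 250) (by positivity) (by
        have h4 := hns k h1 h2
        rw [div_mul_eq_mul_div, le_div_iff₀ (by norm_num)]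
        have h5 : 250 ≤ c0 * (c0 * R / (2 * C0) / 8) := by nlinarith [L.r250]
        have h6 : 0 ≤ ‖orb n c c (M k) - c‖ := norm_nonneg _
        nlinarith)
    have h4 : lev Q j ≤ lev Q (k + 1) * (1 / 4) ^ (j - k - 1) := by
      have := lev_add hQ4 (k + 1) (j - k - 1)
      rwa [show k + 1 + (j - k - 1) = j by omega] at this
    have h5 : 5 / 2 * (‖z - c‖ / 250) * ‖S n c c (M k)‖ ≤
        (1 / 100 * (1 / 4) ^ (j - k - 1) * ‖S n c c (M k)‖) * lev Q (k + 1) := by
      calc 5 / 2 * (‖z - c‖ / 250) * ‖S n c c (M k)‖ ≤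
          5 / 2 * ((lev Q (k + 1) * (1 / 4) ^ (j - k - 1)) / 250) * ‖S n c c (M k)‖ := by
            gcongr; exact hz.le.trans h4
        _ = _ := by ring
    exact le_of_mul_le_mul_right (h3.trans h5) hp1
  -- part (a)
  have ha : ∀ d, d ≤ j - k0 → ‖S n c c (M (j - d)) - S n c c (M j)‖ ≤
      7 / 500 * (1 - (1 / 4) ^ d) * u := by
    intro d
    induction d with
    | zero => intro _; simp
    | succ d ih =>
      intro hd
      have h1 := ih (by omega)
      have h2 := hstep (j - (d + 1)) (by omega) (by omega)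
      rw [show j - (d + 1) + 1 = j - d by omega, show j - (j - (d + 1)) - 1 = d by omega] at h2
      set q : ℝ := (1 / 4) ^ d with hq
      have hq0 : 0 < q := by positivity
      have hq1 : q ≤ 1 := pow_le_one₀ (by norm_num) (by norm_num)
      have hqs : ((1 : ℝ) / 4) ^ (d + 1) = q / 4 := by rw [pow_succ]; ring
      rw [hqs]
      set x := S n c c (M (j - (d + 1)))
      set y := S n c c (M (j - d))
      have h3 : ‖x‖ ≤ ‖y‖ + ‖y - x‖ := by
        have e : x = y - (y - x) := by ring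
        calc ‖x‖ = ‖y - (y - x)‖ := by rw [← e]
          _ ≤ _ := norm_sub_le _ _
      have h4 : ‖y‖ ≤ u + ‖y - S n c c (M j)‖ := by
        have e : y = S n c c (M j) + (y - S n c c (M j)) := by ring
        calc ‖y‖ = ‖S n c c (M j) + (y - S n c c (M j))‖ := by rw [← e]
          _ ≤ _ := norm_add_le _ _
      have h5 : ‖x - S n c c (M j)‖ ≤ ‖y - x‖ + ‖y - S n c c (M j)‖ := by
        have e : x - S n c c (M j) = (y - S n c c (M j)) - (y - x) := by ring
        rw [e, add_comm]; exact norm_sub_le _ _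
      have h6 : ‖x‖ ≤ 103 / 100 * u := by
        have h7 : 1 / 100 * q * ‖x‖ ≤ 1 / 100 * ‖x‖ := by nlinarith [norm_nonneg x]
        have h8 : 7 / 500 * (1 - q) * u ≤ 7 / 500 * u := by nlinarith
        linarith
      have h7 : 1 / 100 * q * ‖x‖ ≤ 1 / 100 * q * (103 / 100 * u) := by gcongr
      nlinarith [mul_nonneg hq0.le hu0]
  have ha' : ∀ k, k0 ≤ k → k ≤ j → ‖S n c c (M k) - S n c c (M j)‖ ≤
      7 / 500 * (1 - (1 / 4) ^ (j - k)) * u := by
    intro k h1 h2
    have := ha (j - k) (by omega)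
    rwa [Nat.sub_sub_self h2] at this
  have hau : ∀ k, k0 ≤ k → k ≤ j → ‖S n c c (M k)‖ ≤ 51 / 50 * u := by
    intro k h1 h2
    have h3 := ha' k h1 h2
    have h4 : 0 ≤ ((1 : ℝ) / 4) ^ (j - k) := by positivity
    have h5 : ‖S n c c (M k)‖ ≤ u + ‖S n c c (M k) - S n c c (M j)‖ := by
      have e : S n c c (M k) = S n c c (M j) + (S n c c (M k) - S n c c (M j)) := by ring
      calc ‖S n c c (M k)‖ = ‖S n c c (M j) + (S n c c (M k) - S n c c (M j))‖ := by rw [← e]
        _ ≤ _ := norm_add_le _ _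
    have h6 : 7 / 500 * (1 - (1 / 4) ^ (j - k)) * u ≤ 7 / 500 * u := by nlinarith
    linarith
  refine ⟨ha', ?_⟩
  -- part (b), the good levels
  have hb : ∀ d, d < j - k0 → ‖S n c z (N j) - S n c z (N (j - d))‖ ≤
      7 / 500 * (1 - (1 / 4) ^ d) * u := by
    intro d
    induction d with
    | zero => intro _; simp
    | succ d ih =>
      intro hd
      have h1 := ih (by omega)
      set k := j - (d + 1) with hk
      have hk1 : k + 1 = j - d := by omega
      have hkj : k < j := by omega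
      have hp1 := lev_pos hQ (k + 1)
      have hkk : Q * lev Q k = lev Q (k - 1) := by
        have := lev_succ hQ (k - 1)
        rwa [show k - 1 + 1 = k by omega] at this
      have hal := s.alpha2 L (lev_pos hQ k) (hN k hkj.le) (hNT k hkj.le)
        (M := M (k - 1)) (by rw [hkk]; exact hM (k - 1) (by omega)) (hMT (k - 1) (by omega))
        (hns (k - 1) (by omega) (by omega))
      have h3 := s.z_gen L (hI k hkj) (hM k hkj.le) (hMT k hkj.le) (hN k hkj.le)
        (hN (k + 1) (by omega)) (hNT (k + 1) (by omega)) (by positivity) hal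
      have h4 : lev Q j ≤ lev Q (k + 1) * (1 / 4) ^ d := by
        have := lev_add hQ4 (k + 1) d
        rwa [show k + 1 + d = j by omega] at this
      have h5 := hau k (by omega) hkj.le
      set q : ℝ := (1 / 4) ^ d with hq
      have hq0 : 0 < q := by positivity
      have hqs : ((1 : ℝ) / 4) ^ (d + 1) = q / 4 := by rw [pow_succ]; ring
      rw [hqs]
      have h6 : ‖S n c z (N (k + 1)) - S n c z (N k)‖ ≤ 51 / 5000 * q * u := by
        have h7 : 5 / 2 * (‖z - c‖ / 250) * ‖S n c c (M k)‖ ≤ (51 / 5000 * q * u) * lev Q (k + 1) := by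
          calc 5 / 2 * (‖z - c‖ / 250) * ‖S n c c (M k)‖ ≤
              5 / 2 * ((lev Q (k + 1) * q) / 250) * (51 / 50 * u) := by
                gcongr; exact hz.le.trans h4
            _ = _ := by ring
        exact le_of_mul_le_mul_right (h3.trans h7) hp1
      rw [hk1] at h6
      have h8 : ‖S n c z (N j) - S n c z (N k)‖ ≤
          ‖S n c z (N j) - S n c z (N (j - d))‖ + ‖S n c z (N (j - d)) - S n c z (N k)‖ := by
        have e : S n c z (N j) - S n c z (N k) = (S n c z (N j) - S n c z (N (j - d))) +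
          (S n c z (N (j - d)) - S n c z (N k)) := by ring
        rw [e]; exact norm_add_le _ _
      nlinarith [mul_nonneg hq0.le hu0]
  -- the first level
  rcases hk0.lt_or_eq with hlt | rfl
  · have hp1 := lev_pos hQ (k0 + 1)
    have hp0 := lev_pos hQ k0
    have hal := s.alpha1 L hp0 (hN k0 hk0) (hNT k0 hk0)
    have h3 := s.z_gen L (hI k0 hlt) (hM k0 hk0) (hMT k0 hk0) (hN k0 hk0)
      (hN (k0 + 1) (by omega)) (hNT (k0 + 1) (by omega)) (by positivity) hal
    have h4 : lev Q j ≤ lev Q (k0 + 1) := lev_anti (by linarith) (by omega)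
    have h5 := hau k0 le_rfl hk0
    have h6 : C0 * Real.exp (R / 8) * lev Q k0 / Kd ≤ 1 / 10000 * lev Q (k0 + 1) := by
      have h7 := L.k6
      rw [← lev_succ hQ k0, div_le_iff₀ hKd]
      have h8 : C0 * Real.exp (R / 8) ≤ C0 ^ 2 * Real.exp R := by
        have : Real.exp (R / 8) ≤ Real.exp R := Real.exp_le_exp.mpr (by linarith)
        have h9 : C0 ≤ C0 ^ 2 := by nlinarith
        gcongr
      calc C0 * Real.exp (R / 8) * (Q * lev Q (k0 + 1)) ≤
          (C0 ^ 2 * Real.exp R) * (Q * lev Q (k0 + 1)) := by gcongr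
        _ = 1 / 10000 * lev Q (k0 + 1) * (10000 * C0 ^ 2 * Real.exp R * Q) := by ring
        _ ≤ 1 / 10000 * lev Q (k0 + 1) * Kd := by gcongr
    have h7 : ‖S n c z (N (k0 + 1)) - S n c z (N k0)‖ ≤ 11 / 1000 * u := by
      have h8 : 5 / 2 * (‖z - c‖ / 250 + C0 * Real.exp (R / 8) * lev Q k0 / Kd) *
          ‖S n c c (M k0)‖ ≤ (11 / 1000 * u) * lev Q (k0 + 1) := by
        calc 5 / 2 * (‖z - c‖ / 250 + C0 * Real.exp (R / 8) * lev Q k0 / Kd) * ‖S n c c (M k0)‖
            ≤ 5 / 2 * (lev Q (k0 + 1) / 250 + 1 / 10000 * lev Q (k0 + 1)) * (51 / 50 * u) := by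
              gcongr; exact hz.le.trans h4
          _ ≤ _ := by
              have : 0 ≤ u * lev Q (k0 + 1) := by positivity
              nlinarith
      exact le_of_mul_le_mul_right (h3.trans h8) hp1
    have h8 := hb (j - (k0 + 1)) (by omega)
    rw [Nat.sub_sub_self (by omega : k0 + 1 ≤ j)] at h8
    have h9 : 0 ≤ ((1 : ℝ) / 4) ^ (j - (k0 + 1)) := by positivity
    have h10 : ‖S n c z (N j) - S n c z (N k0)‖ ≤
        ‖S n c z (N j) - S n c z (N (k0 + 1))‖ + ‖S n c z (N (k0 + 1)) - S n c z (N k0)‖ := by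
      have e : S n c z (N j) - S n c z (N k0) = (S n c z (N j) - S n c z (N (k0 + 1))) +
        (S n c z (N (k0 + 1)) - S n c z (N k0)) := by ring
      rw [e]; exact norm_add_le _ _
    nlinarith
  · rw [sub_self, norm_zero]; positivity

end Pool.Agent.W746.LD
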