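import Mathlib
import Pool.Agent.W746.LD.Sums

/-!
# The sums of the inverse derivatives are almost constant at each level
-/

set_option autoImplicit false
open Set Filter Topology Metric

namespace Pool.Agent.W746.LD

variable {n : ℕ} {c : ℂ} {C0 c0 R Kd Q : ℝ} {T : ℕ}

theorem ret_seven (hn : 2 ≤ n) (hc : ‖c‖ ≤ 2) {z : ℂ} {m : ℕ} (h : Ret n c 7 z m) : m = 1 := by
  by_contra hcon
  have h1 := h.1
  have h2 := h.2.1 1 le_rfl (by omega)
  have h3 := no_return hn hc le_rfl h2 (m - 1)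
  rw [← orb_add, Nat.add_sub_cancel' h1] at h3
  exact absurd h.2.2 (not_lt.mpr h3)

/-- If `z` shadows the critical value at level `p`, then the sums are close. -/
theorem Sett.shadow_step (s : Sett C0 c0 R Kd n c T) (L : Lev C0 c0 R Kd Q) (hc : ‖c‖ ≤ 2)
    {z : ℂ} {p Mp N1 : ℕ} (hMp : Ret n c (lev Q p) c Mp) (hMpT : Mp ≤ T)
    (hN1 : Ret n c (lev Q (p + 1)) z N1) (hN1T : N1 ≤ T) (hI : ∀ k ≤ p, ILev n c T Q k)
    (hsh : ‖z - c‖ * ‖P n c c Mp‖ < c0 * (c0 * R / (2 * C0) / 8) * ‖orb n c c Mp - c‖) :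
    ‖S n c z N1 - S n c c Mp‖ ≤ 13 / 100 * ‖S n c c Mp‖ := by
  have hQ := L.Qpos
  have hQ4 := L.Q4
  have hKd := s.hKd
  have hC := s.K.one_le
  have hc0 := s.K.pos
  have hc4 := s.K.le
  have hR0 : 0 < R := by linarith [s.hR]
  have hlp := lev_pos hQ p
  have hlp1 := lev_pos hQ (p + 1)
  have hl := lev_succ hQ p
  have hR'R : c0 * R / (2 * C0) ≤ R / 4 := by
    rw [div_le_iff₀ (by positivity)]
    nlinarith
  have hR'0 : 0 < c0 * R / (2 * C0) := by positivity
  obtain ⟨ζc, g, hg, hgc, hder, hpts⟩ := s.shadow_pts hlp hMp hMpT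
  have hPM := s.D Mp hMp.1 hMpT
  -- the point `z` is in the image
  have hz : ∃ ζ ∈ ball ζc (c0 * R / (2 * C0) / 8), g ζ = z := by
    by_contra hcon
    push Not at hcon
    have hu := (hg.univ s.hn s.hRn).mono (ball_subset_ball (show c0 * R / (2 * C0) / 8 ≤ R by linarith))
    have h1 := s.K.komit g ζc (c0 * R / (2 * C0) / 8) (by positivity) hu z hcon
    rw [hgc, norm_sub_rev] at h1
    have h2 : c0 * (c0 * R / (2 * C0) / 8) * ‖orb n c c Mp - c‖ ≤ ‖z - c‖ * ‖P n c c Mp‖ := by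
      calc c0 * (c0 * R / (2 * C0) / 8) * ‖orb n c c Mp - c‖
          = (c0 * (c0 * R / (2 * C0) / 8) * ‖deriv g ζc‖) * ‖P n c c Mp‖ := by rw [← hder]; ring
        _ ≤ _ := by gcongr
    linarith
  obtain ⟨ζz, hζz, hgz⟩ := hz
  rw [mem_ball, dist_eq_norm] at hζz
  have hζm : ζz ∈ ball ζc (c0 * R / (2 * C0)) := by rw [mem_ball, dist_eq_norm]; linarith
  obtain ⟨q1, q2, q3, q4, q5, q6, q7⟩ := hpts ζz hζm
  rw [hgz] at q1 q2 q3 q4 q6 q7
  have hβ : ‖orb n c z Mp - c‖ ≤ C0 * lev Q p / Kd * ‖P n c z Mp‖ := by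
    rw [← q6]
    gcongr
    rw [le_div_iff₀ hKd]; exact q5
  have hkk := L.k6' s.K hR0
  have hPpos : 0 < ‖P n c z Mp‖ := norm_pos_iff.mpr (q7 Mp le_rfl)
  rcases Nat.eq_zero_or_pos p with rfl | hp
  · rw [lev_zero] at hMp
    obtain rfl := ret_seven s.hn hc hMp
    obtain ⟨N0, hN0le, hN0⟩ := exists_ret_of_ret hN1 (lev_anti (show (1 : ℝ) ≤ Q by linarith) (Nat.zero_le 1))
    have hN0' := hN0
    rw [lev_zero] at hN0'
    obtain rfl := ret_seven s.hn hc hN0'
    have h1 := s.z_gen L (hI 0 le_rfl) (by rw [lev_zero]; exact hMp) hMpT hN0 hN1 hN1T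
      (by positivity) hβ
    simp only [S_one, norm_one] at h1 ⊢
    have h2 : ‖S n c z N1 - 1‖ * lev Q (0 + 1) ≤ (13 / 100 * 1) * lev Q (0 + 1) := by
      refine h1.trans ?_
      rw [← hl]
      have h5 : C0 * Q / Kd ≤ 1 / 10000 := by
        rw [div_le_div_iff₀ hKd (by norm_num)]
        linarith
      calc 5 / 2 * (C0 * (Q * lev Q (0 + 1)) / Kd) * 1 = 5 / 2 * (C0 * Q / Kd) * lev Q (0 + 1) := by ring
        _ ≤ 5 / 2 * (1 / 10000) * lev Q (0 + 1) := by gcongr
        _ ≤ _ := by nlinarith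
    exact le_of_mul_le_mul_right h2 hlp1
  · obtain ⟨p', rfl⟩ : ∃ i, p = i + 1 := ⟨p - 1, by omega⟩
    have hl' := lev_succ hQ p'
    have hlp' := lev_pos hQ p'
    obtain ⟨M', hM'le, hM'⟩ := exists_ret_of_ret hMp (lev_anti (show (1 : ℝ) ≤ Q by linarith)
      (show p' ≤ p' + 1 by omega))
    set τ' := S n c c M' with hτ'
    have hII := hI p' (by omega)
    have h8 : 8 * C0 ^ 2 * lev Q p' / (Kd * lev Q (p' + 1)) ≤ 1 / 1000 := by
      rw [← hl', div_le_div_iff₀ (by positivity) (by norm_num)]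
      have h9 := L.k6
      have h10 : 1 ≤ Real.exp R := Real.one_le_exp hR0.le
      have h11 : 10000 * C0 ^ 2 * Q ≤ Kd := by
        calc 10000 * C0 ^ 2 * Q = 10000 * C0 ^ 2 * 1 * Q := by ring
          _ ≤ 10000 * C0 ^ 2 * Real.exp R * Q := by gcongr
          _ ≤ Kd := h9
      have h12 : 8 * C0 ^ 2 * Q * 1000 ≤ Kd := by nlinarith [mul_pos (pow_pos (lt_of_lt_of_le one_pos hC) 2) hQ]
      calc 8 * C0 ^ 2 * (Q * lev Q (p' + 1)) * 1000 = (8 * C0 ^ 2 * Q * 1000) * lev Q (p' + 1) := by ring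
        _ ≤ Kd * lev Q (p' + 1) := by gcongr
        _ = _ := by ring
    have hsup : ∀ ζ ∈ ball ζc (c0 * R / (2 * C0)), ‖S n c (g ζ) Mp - τ'‖ ≤
        (1 / 4 + 1 / 1000) * ‖τ'‖ := by
      intro ζ hζ
      obtain ⟨r1, r2, r3, r4, r5, r6, r7⟩ := hpts ζ hζ
      have h1 := s.shadow_sup hlp (δ := 1 / 4) (by norm_num) (by norm_num) (ρ' := lev Q p')
        (by
          rw [← hl']
          have := L.QR
          gcongr)
        (by
          rw [← hl']
          have h2 := L.k5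
          have h3 : 0 < Kd * lev Q (p' + 1) := by positivity
          calc C0 * R * lev Q (p' + 1) < Kd * lev Q (p' + 1) := by gcongr
            _ ≤ Kd * (Q * lev Q (p' + 1)) := by
                gcongr
                nlinarith)
        (L.cond1 s.K hR0 (by positivity) (by
          rw [← hl']
          nlinarith))
        (τ' := τ') (fun z m a1 a2 a3 => hII M' hM' (by omega) z m a1 a2 a3) hMp hMpT r1 r2 r3 r4
      refine h1.trans ?_
      gcongr
    have hcl : ‖S n c z Mp - S n c c Mp‖ ≤ (1 / 4 + 1 / 1000) * ‖τ'‖ / 2 := by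
      apply le_of_forall_pos_le_add
      intro ε hε
      have h1 := s.shadow_close (ρ := 1) (m1 := (1 / 4 + 1 / 1000) * ‖τ'‖ + ε) (by positivity) hg hMp.1
        (τ' := τ') (fun ζ hζ => (hsup ζ hζ).trans (by linarith)) hζz
      rw [hgz, hgc] at h1
      linarith
    -- from `Mp` to `N1`
    have hle : Mp ≤ N1 := by
      by_contra hcon
      push Not at hcon
      have h1 := q1 N1 hN1.1 hcon
      have h2 := hN1.2.2
      rw [← hl] at h1
      nlinarith
    have hstep : ‖S n c z N1 - S n c z Mp‖ ≤ 1 / 4000 * ‖τ'‖ := by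
      have h1 := s.S_bound (ρ := lev Q p') (θ := lev Q (p' + 1 + 1)) (B := 5 / 4 * ‖τ'‖) hlp' hlp1
        (by positivity) (L.cond1 s.K hR0 hlp1 (by
          rw [← hl', ← hl]
          have : 0 < Q ^ 2 * lev Q (p' + 1 + 1) := by positivity
          nlinarith))
        (hII.bound hM' (by omega)) (N1 - Mp) (orb n c z Mp) (by omega) (by
          calc ‖orb n c z Mp - c‖ ≤ Real.exp R * ‖orb n c c Mp - c‖ := q2
            _ < Real.exp R * lev Q (p' + 1) := by
                have := hMp.2.2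
                gcongr
            _ ≤ Q * lev Q (p' + 1) := by
                have := L.QR
                gcongr
            _ = lev Q p' := hl') (by
          intro i hi
          rw [← orb_add]
          exact hN1.2.1 (Mp + i) (by have := hMp.1; omega) (by omega)) (by
          rw [← orb_add, Nat.add_sub_cancel' hle]
          exact hN1.2.2.trans_le (lev_anti (by linarith) (by omega)))
      have h2 : S n c z N1 - S n c z Mp = (P n c z Mp)⁻¹ * S n c (orb n c z Mp) (N1 - Mp) := by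
        have : S n c z N1 = S n c z Mp + (P n c z Mp)⁻¹ * S n c (orb n c z Mp) (N1 - Mp) := by
          rw [← S_add, Nat.add_sub_cancel' hle]
        rw [this]; ring
      rw [h2, norm_mul, norm_inv]
      have h3 : ‖P n c z Mp‖⁻¹ * ‖S n c (orb n c z Mp) (N1 - Mp)‖ * lev Q (p' + 1 + 1) ≤
          (1 / 4000 * ‖τ'‖) * lev Q (p' + 1 + 1) := by
        have h5 : C0 * Q / Kd ≤ 1 / 10000 := by
          rw [div_le_div_iff₀ hKd (by norm_num)]
          linarith
        calc ‖P n c z Mp‖⁻¹ * ‖S n c (orb n c z Mp) (N1 - Mp)‖ * lev Q (p' + 1 + 1)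
            = ‖P n c z Mp‖⁻¹ * (‖S n c (orb n c z Mp) (N1 - Mp)‖ * lev Q (p' + 1 + 1)) := by ring
          _ ≤ ‖P n c z Mp‖⁻¹ * (2 * (5 / 4 * ‖τ'‖) * ‖orb n c z Mp - c‖) := by gcongr
          _ ≤ ‖P n c z Mp‖⁻¹ * (2 * (5 / 4 * ‖τ'‖) * (C0 * lev Q (p' + 1) / Kd * ‖P n c z Mp‖)) := by
              gcongr
          _ = 2 * (5 / 4 * ‖τ'‖) * (C0 * lev Q (p' + 1) / Kd) := by field_simp
          _ = 5 / 2 * ‖τ'‖ * (C0 * Q / Kd) * lev Q (p' + 1 + 1) := by rw [← hl]; ring
          _ ≤ 5 / 2 * ‖τ'‖ * (1 / 10000) * lev Q (p' + 1 + 1) := by gcongr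
          _ = _ := by ring
      exact le_of_mul_le_mul_right h3 hlp1
    have hτ := s.tau_gen L hII hM' hMp (by omega) hMpT
    rw [← hτ'] at hτ
    set x := S n c c Mp with hx
    have h3 : ‖τ'‖ ≤ ‖x‖ + ‖x - τ'‖ := by
      have e : τ' = x - (x - τ') := by ring
      calc ‖τ'‖ = ‖x - (x - τ')‖ := by rw [← e]
        _ ≤ _ := norm_sub_le _ _
    have h4 : ‖S n c z N1 - x‖ ≤ ‖S n c z N1 - S n c z Mp‖ + ‖S n c z Mp - x‖ := by
      have e : S n c z N1 - x = (S n c z N1 - S n c z Mp) + (S n c z Mp - x) := by ring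
      rw [e]; exact norm_add_le _ _
    have h5 : 0 ≤ ‖x‖ := norm_nonneg _
    linarith

/-- The main statement for all levels. -/
theorem Sett.ilev (s : Sett C0 c0 R Kd n c T) (L : Lev C0 c0 R Kd Q) (hc : ‖c‖ ≤ 2) :
    ∀ j, ILev n c T Q j := by
  intro j
  induction j using Nat.strong_induction_on with
  | _ j ih =>
  intro M hM hMT z m hz hm hmT
  have hQ := L.Qpos
  have hQ4 := L.Q4
  have hu0 : 0 ≤ ‖S n c c M‖ := norm_nonneg _
  rcases Nat.eq_zero_or_pos j with rfl | hj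
  · rw [lev_zero] at hM hm
    obtain rfl := ret_seven s.hn hc hM
    obtain rfl := ret_seven s.hn hc hm
    rw [S_one, S_one, sub_self, norm_zero]
    positivity
  have hMex : ∀ k, ∃ m', k ≤ j → m' ≤ M ∧ Ret n c (lev Q k) c m' := by
    intro k
    by_cases hk : k ≤ j
    · obtain ⟨m', h1, h2⟩ := exists_ret_of_ret hM (lev_anti (show (1 : ℝ) ≤ Q by linarith) hk)
      exact ⟨m', fun _ => ⟨h1, h2⟩⟩
    · exact ⟨0, fun h => absurd h hk⟩
  have hNex : ∀ k, ∃ m', k ≤ j → m' ≤ m ∧ Ret n c (lev Q k) z m' := by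
    intro k
    by_cases hk : k ≤ j
    · obtain ⟨m', h1, h2⟩ := exists_ret_of_ret hm (lev_anti (show (1 : ℝ) ≤ Q by linarith) hk)
      exact ⟨m', fun _ => ⟨h1, h2⟩⟩
    · exact ⟨0, fun h => absurd h hk⟩
  choose Mf hMf using hMex
  choose Nf hNf using hNex
  have hMj : Mf j = M := Ret.unique (hMf j le_rfl).2 hM
  have hNj : Nf j = m := Ret.unique (hNf j le_rfl).2 hm
  by_cases hsh : ∃ k, 0 ≤ k ∧ k ≤ j - 1 ∧
      ‖z - c‖ * ‖P n c c (Mf k)‖ < c0 * (c0 * R / (2 * C0) / 8) * ‖orb n c c (Mf k) - c‖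
  · obtain ⟨p, -, hp1, hp2, hp3⟩ := exists_last hsh
    have hstep := s.shadow_step L hc (hMf p (by omega)).2 (by have := (hMf p (by omega)).1; omega)
      (hNf (p + 1) (by omega)).2 (by have := (hNf (p + 1) (by omega)).1; omega)
      (fun k hk => ih k (by omega)) hp2
    obtain ⟨ha, hb⟩ := s.sum_ns L (z := z) (j := j) (k0 := p + 1) (N := Nf) (M := Mf)
      (fun k hk => (hNf k hk).2) (fun k hk => (hMf k hk).2) (fun k hk => (hNf k hk).1.trans hmT)
      (fun k hk => (hMf k hk).1.trans hMT) (fun k hk => ih k hk) hz (by omega)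
      (fun k h1 h2 => not_lt.mp (hp3 k (by omega) (by omega)))
    have hτ := s.tau_gen L (ih p (by omega)) (hMf p (by omega)).2 (hMf (p + 1) (by omega)).2
      ((hMf p (by omega)).1.trans hMT) ((hMf (p + 1) (by omega)).1.trans hMT)
    have h1 := ha (p + 1) le_rfl (by omega)
    rw [hMj] at h1 hb
    rw [hNj] at hb
    set u := ‖S n c c M‖ with hu
    set x := S n c c (Mf p) with hx
    set y := S n c c (Mf (p + 1)) with hy
    set w := S n c z (Nf (p + 1)) with hw
    have h2 : 7 / 500 * (1 - (1 / 4 : ℝ) ^ (j - (p + 1))) * u ≤ 7 / 500 * u := by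
      have : 0 ≤ ((1 : ℝ) / 4) ^ (j - (p + 1)) := by positivity
      nlinarith
    have h3 : ‖y‖ ≤ u + ‖y - S n c c M‖ := by
      have e : y = S n c c M + (y - S n c c M) := by ring
      calc ‖y‖ = ‖S n c c M + (y - S n c c M)‖ := by rw [← e]
        _ ≤ _ := norm_add_le _ _
    have h4 : ‖x‖ ≤ ‖y‖ + ‖y - x‖ := by
      have e : x = y - (y - x) := by ring
      calc ‖x‖ = ‖y - (y - x)‖ := by rw [← e]
        _ ≤ _ := norm_sub_le _ _
    have h5 : ‖S n c z m - S n c c M‖ ≤ ‖S n c z m - w‖ + ‖w - x‖ + ‖y - x‖ + ‖y - S n c c M‖ := by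
      have e : S n c z m - S n c c M = (S n c z m - w) + (w - x) + (y - S n c c M) - (y - x) := by ring
      calc ‖S n c z m - S n c c M‖ = ‖(S n c z m - w) + (w - x) + (y - S n c c M) - (y - x)‖ := by
            rw [← e]
        _ ≤ ‖(S n c z m - w) + (w - x) + (y - S n c c M)‖ + ‖y - x‖ := norm_sub_le _ _
        _ ≤ (‖S n c z m - w‖ + ‖w - x‖ + ‖y - S n c c M‖) + ‖y - x‖ := by
            gcongr; exact norm_add₃_le
        _ = _ := by ring
    have h6 : 0 ≤ ‖x‖ := norm_nonneg _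
    linarith
  · push Not at hsh
    obtain ⟨ha, hb⟩ := s.sum_ns L (z := z) (j := j) (k0 := 0) (N := Nf) (M := Mf)
      (fun k hk => (hNf k hk).2) (fun k hk => (hMf k hk).2) (fun k hk => (hNf k hk).1.trans hmT)
      (fun k hk => (hMf k hk).1.trans hMT) (fun k hk => ih k hk) hz (by omega)
      (fun k h1 h2 => hsh k h1 (by omega))
    have h1 := ha 0 le_rfl (by omega)
    have hM0 := (hMf 0 (by omega)).2
    have hN0 := (hNf 0 (by omega)).2
    rw [lev_zero] at hM0 hN0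
    have e1 := ret_seven s.hn hc hM0
    have e2 := ret_seven s.hn hc hN0
    rw [hMj] at h1 hb
    rw [hNj, e2, S_one] at hb
    rw [e1, S_one] at h1
    set u := ‖S n c c M‖ with hu
    have h2 : 7 / 500 * (1 - (1 / 4 : ℝ) ^ (j - 0)) * u ≤ 7 / 500 * u := by
      have : 0 ≤ ((1 : ℝ) / 4) ^ (j - 0) := by positivity
      nlinarith
    have h5 : ‖S n c z m - S n c c M‖ ≤ ‖S n c z m - 1‖ + ‖1 - S n c c M‖ := by
      have e : S n c z m - S n c c M = (S n c z m - 1) + (1 - S n c c M) := by ring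
      rw [e]; exact norm_add_le _ _
    linarith

/-- The sums do not vanish. -/
theorem Sett.tau_pos (s : Sett C0 c0 R Kd n c T) (L : Lev C0 c0 R Kd Q) (hc : ‖c‖ ≤ 2) :
    ∀ (j M : ℕ), Ret n c (lev Q j) c M → M ≤ T → (999 / 1000 : ℝ) ^ j ≤ ‖S n c c M‖ := by
  intro j
  have hQ4 := L.Q4
  induction j with
  | zero =>
    intro M hM hMT
    rw [lev_zero] at hM
    obtain rfl := ret_seven s.hn hc hM
    rw [S_one, norm_one, pow_zero]
  | succ j ih =>
    intro M hM hMT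
    obtain ⟨M', h1, h2⟩ := exists_ret_of_ret hM (lev_anti (show (1 : ℝ) ≤ Q by linarith)
      (show j ≤ j + 1 by omega))
    have h3 := ih M' h2 (by omega)
    have h4 := s.tau_gen L (s.ilev L hc j) h2 hM (by omega) hMT
    set x := S n c c M' with hx
    set y := S n c c M with hy
    have h5 : ‖x‖ ≤ ‖y‖ + ‖y - x‖ := by
      have e : x = y - (y - x) := by ring
      calc ‖x‖ = ‖y - (y - x)‖ := by rw [← e]
        _ ≤ _ := norm_sub_le _ _
    rw [pow_succ]
    nlinarith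

end Pool.Agent.W746.LD
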