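import Mathlib
import Pool.Agent.W746.LD.Main

/-!
# Constants, and the reduction to closest returns
-/

set_option autoImplicit false
open Set Filter Topology Metric

namespace Pool.Agent.W746.LD

variable {n : ℕ} {c : ℂ} {C0 c0 R M L Q Kd : ℝ} {T : ℕ}

/-- The conditions on the constants. -/
structure Consts (C0 c0 R M L Q Kd : ℝ) : Prop where
  K : KC C0 c0
  hR : 32 ≤ R
  hR' : 32 * C0 ≤ c0 * R
  r250 : 250 * C0 ≤ c0 * (c0 * R / (2 * C0) / 8)
  hM : ChainConst M (R + 1)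
  hM1 : 1 ≤ M
  hL : 8 * (C0 * (M + 1)) / c0 + 1 ≤ L
  hQ : Real.exp (R + 1) ≤ Q
  Q4 : 4 ≤ Q
  hKd : (C0 * (M + 1) + 1) * C0 * Real.exp (R + 2) < Kd
  hKd' : C0 * (R / 8) * Real.exp (R / 8) * Q * L < Kd
  kB : C0 * (R / 8) * Real.exp (R / 8) * (Q ^ 2 * (2 + C0 / c0)) < Kd
  k5 : C0 * R < Kd
  k6 : 10000 * C0 ^ 2 * Real.exp R * Q ≤ Kd
  k7 : 2 * (R + 1) ≤ Kd
  k8 : C0 * Real.exp (R / 8) ≤ Kd

theorem exists_consts (A : ℝ) : ∃ C0 c0 R M L Q Kd : ℝ, Consts C0 c0 R M L Q Kd ∧ A ≤ R := by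
  obtain ⟨C0, c0, K⟩ := exists_KC
  have hC := K.one_le
  have hc0 := K.pos
  have hc4 := K.le
  have hratio : 4 ≤ C0 / c0 := by
    rw [le_div_iff₀ hc0]; linarith
  set R : ℝ := 4000 * (C0 / c0) ^ 2 + max A 0 with hR
  have hRge : 4000 * (C0 / c0) ^ 2 ≤ R := by
    have := le_max_right A 0
    linarith
  have hR32 : 32 ≤ R := by nlinarith
  have hR0 : 0 < R := by linarith
  obtain ⟨M, hM1, hM⟩ := K.chain (η := 1 / 4) (B := R + 1) (by norm_num) (by linarith)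
  set L : ℝ := 8 * (C0 * (M + 1)) / c0 + 1 with hL
  set Q : ℝ := Real.exp (R + 1) + 4 with hQ
  have hQ0 : 0 < Q := by positivity
  have hL0 : 0 < L := by positivity
  set Kd : ℝ := (C0 * (M + 1) + 1) * C0 * Real.exp (R + 2) + C0 * (R / 8) * Real.exp (R / 8) * Q * L +
    C0 * (R / 8) * Real.exp (R / 8) * (Q ^ 2 * (2 + C0 / c0)) + C0 * R +
    10000 * C0 ^ 2 * Real.exp R * Q + 2 * (R + 1) + C0 * Real.exp (R / 8) + 1 with hKd
  have t1 : 0 < (C0 * (M + 1) + 1) * C0 * Real.exp (R + 2) := by positivity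
  have t2 : 0 < C0 * (R / 8) * Real.exp (R / 8) * Q * L := by positivity
  have t3 : 0 < C0 * (R / 8) * Real.exp (R / 8) * (Q ^ 2 * (2 + C0 / c0)) := by positivity
  have t4 : 0 < C0 * R := by positivity
  have t5 : 0 < 10000 * C0 ^ 2 * Real.exp R * Q := by positivity
  have t6 : 0 < 2 * (R + 1) := by positivity
  have t7 : 0 < C0 * Real.exp (R / 8) := by positivity
  refine ⟨C0, c0, R, M, L, Q, Kd, ⟨K, hR32, ?_, ?_, hM, hM1, le_rfl, ?_, ?_, ?_, ?_, ?_, ?_, ?_, ?_, ?_⟩, ?_⟩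
  · -- 32 * C0 ≤ c0 * R
    have h1 : c0 * (4000 * (C0 / c0) ^ 2) = 4000 * C0 * (C0 / c0) := by field_simp
    have h2 : c0 * (4000 * (C0 / c0) ^ 2) ≤ c0 * R := by gcongr
    rw [h1] at h2
    have h3 : 4000 * C0 * 4 ≤ 4000 * C0 * (C0 / c0) := by gcongr
    linarith
  · have h1 : c0 * (c0 * (4000 * (C0 / c0) ^ 2) / (2 * C0) / 8) = 250 * C0 := by
      field_simp; ring
    rw [← h1]
    gcongr
  · rw [hQ]; linarith
  · rw [hQ]; linarith [Real.exp_pos (R + 1)]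
  all_goals first | (rw [hKd]; linarith) | skip
  · have := le_max_left A 0
    have h5 : 0 ≤ 4000 * (C0 / c0) ^ 2 := by positivity
    linarith

theorem Consts.Kpos (W : Consts C0 c0 R M L Q Kd) : 0 < Kd := by
  have := W.k7
  have := W.hR
  linarith

theorem Consts.lev (W : Consts C0 c0 R M L Q Kd) : Lev C0 c0 R Kd Q where
  Q4 := W.Q4
  QR := (Real.exp_le_exp.mpr (by linarith)).trans W.hQ
  r250 := W.r250
  kB := W.kB
  k5 := W.k5
  k6 := W.k6

theorem Consts.sett (W : Consts C0 c0 R M L Q Kd) (hn : 2 ≤ n) (hc : ‖c‖ ≤ 2)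
    (hRn : R + 1 ≤ Real.pi * n) (hD : ∀ t, 1 ≤ t → t ≤ T → Kd ≤ ‖P n c c t‖) :
    Sett C0 c0 R Kd n c T where
  K := W.K
  hn := hn
  hRn := by linarith
  hR := W.hR
  hlam := by linarith [W.lev.lam W.K]
  hKd := W.Kpos
  D := hD
  hH := fun _ hρ => H_all W.K hn hc hRn W.hR W.hR' W.hM W.hM1 W.hL W.hQ W.hKd W.hKd' hD hρ

/-- Escape outside the ball of radius `2 ^ (1 / (n - 1))`. -/
theorem orbit_bound (hn : 2 ≤ n) (hb : ∀ k, ‖orb n c c k‖ ≤ 2) (k : ℕ) :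
    ‖orb n c c k‖ ^ (n - 1) ≤ 2 := by
  have key : ∀ z : ℂ, 2 < ‖z‖ ^ (n - 1) → ‖c‖ ≤ ‖z‖ → ∀ k,
      ‖z‖ * (‖z‖ ^ (n - 1) - 1) ^ k ≤ ‖orb n c z k‖ := by
    intro z hz hcz k
    have hz0 : 0 < ‖z‖ := by
      by_contra hcon
      have h0 : ‖z‖ = 0 := le_antisymm (not_lt.mp hcon) (norm_nonneg _)
      rw [h0, zero_pow (by omega)] at hz
      norm_num at hz
    induction k with
    | zero => simp
    | succ k ih =>
      have h1 : 1 ≤ (‖z‖ ^ (n - 1) - 1) ^ k := one_le_pow₀ (by linarith)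
      have h2 : ‖z‖ ≤ ‖orb n c z k‖ := by
        refine le_trans ?_ ih
        nlinarith
      have h3 : ‖z‖ ^ (n - 1) ≤ ‖orb n c z k‖ ^ (n - 1) := by gcongr
      have h4 : ‖orb n c z k‖ ^ n - ‖c‖ ≤ ‖orb n c z (k + 1)‖ := by
        rw [orb_succ]
        have := norm_sub_le (orb n c z k ^ n + c) c
        rw [add_sub_cancel_right, norm_pow] at this
        linarith
      have h5 : ‖orb n c z k‖ ^ n = ‖orb n c z k‖ ^ (n - 1) * ‖orb n c z k‖ := by
        rw [← pow_succ, Nat.sub_add_cancel (by omega)]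
      rw [h5] at h4
      have h6 : ‖z‖ ^ (n - 1) * ‖orb n c z k‖ ≤ ‖orb n c z k‖ ^ (n - 1) * ‖orb n c z k‖ := by
        gcongr
      have h7 : (‖z‖ ^ (n - 1) - 1) * (‖z‖ * (‖z‖ ^ (n - 1) - 1) ^ k) ≤
          (‖z‖ ^ (n - 1) - 1) * ‖orb n c z k‖ := by
        apply mul_le_mul_of_nonneg_left ih; linarith
      rw [pow_succ]
      nlinarith
  have esc : ∀ z : ℂ, 2 < ‖z‖ ^ (n - 1) → ‖c‖ ≤ ‖z‖ → (∀ k, ‖orb n c z k‖ ≤ 2) → False := by
    intro z hz hcz hbz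
    have hz0 : 0 < ‖z‖ := by
      by_contra hcon
      have h0 : ‖z‖ = 0 := le_antisymm (not_lt.mp hcon) (norm_nonneg _)
      rw [h0, zero_pow (by omega)] at hz
      norm_num at hz
    obtain ⟨k, hk⟩ := pow_unbounded_of_one_lt (2 / ‖z‖) (show 1 < ‖z‖ ^ (n - 1) - 1 by linarith)
    have h1 := key z hz hcz k
    have h2 := hbz k
    rw [div_lt_iff₀ hz0] at hk
    nlinarith
  have hc2 : ‖c‖ ^ (n - 1) ≤ 2 := by
    by_contra hcon
    push Not at hcon
    exact esc c hcon le_rfl hb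
  by_contra hcon
  push Not at hcon
  apply esc (orb n c c k) hcon
  · by_contra h
    push Not at h
    have : ‖orb n c c k‖ ^ (n - 1) ≤ ‖c‖ ^ (n - 1) := by gcongr
    linarith
  · intro l
    rw [← orb_add]
    exact hb _

/-- Large derivatives at the closest returns imply large derivatives at all times. -/
theorem Consts.all_large (W : Consts C0 c0 R M L Q Kd) (hn : 2 ≤ n) (hb : ∀ k, ‖orb n c c k‖ ≤ 2)
    {N : ℕ} (hN : 1 ≤ N)
    (hrec : ∀ k, 1 ≤ k → k ≤ N → (∀ i, 1 ≤ i → i < k → ‖orb n c c k - c‖ < ‖orb n c c i - c‖) →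
      Kd ≤ ‖P n c c k‖) :
    R + 1 ≤ Real.pi * n ∧ ∀ t, 1 ≤ t → t ≤ N → Kd ≤ ‖P n c c t‖ := by
  have hc : ‖c‖ ≤ 2 := hb 0
  have hRn : R + 1 ≤ Real.pi * n := by
    have h1 := hrec 1 le_rfl hN (fun i h1 h2 => by omega)
    rw [show (1 : ℕ) = 0 + 1 from rfl, P_succ, P_zero, one_mul, orb_zero, norm_mul, norm_pow,
      Complex.norm_natCast] at h1
    have h2 := orbit_bound hn hb 0
    rw [orb_zero] at h2
    have h3 := W.k7
    have h4 : (n : ℝ) * ‖c‖ ^ (n - 1) ≤ n * 2 := by gcongr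
    have h5 : R + 1 ≤ n := by linarith
    have h6 : (1 : ℝ) ≤ Real.pi := by linarith [Real.pi_gt_three]
    nlinarith [Nat.cast_nonneg (α := ℝ) n]
  refine ⟨hRn, ?_⟩
  intro t
  induction t using Nat.strong_induction_on with
  | _ t ih =>
  intro h1 h2
  by_cases hcl : ∀ i, 1 ≤ i → i < t → ‖orb n c c t - c‖ < ‖orb n c c i - c‖
  · exact hrec t h1 h2 hcl
  push Not at hcl
  obtain ⟨i0, hi1, hi2, hi3⟩ := hcl
  obtain ⟨s, hs1, hs2, hs3, hs4⟩ := exists_last (p := fun i => ‖orb n c c i - c‖ ≤ ‖orb n c c t - c‖)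
    (a := 1) (b := t - 1) ⟨i0, hi1, by omega, hi3⟩
  have S' : Sett C0 c0 R Kd n c (t - 1) :=
    W.sett hn hc hRn (fun i a b => ih i (by omega) a (by omega))
  have hes := S'.c_ne hs1 hs2
  have het : 0 < ‖orb n c c t - c‖ := by linarith
  have hR0 : 0 < R := by linarith [W.hR]
  -- choose the radius
  have hρ : ∃ ρ, ‖orb n c c t - c‖ < ρ ∧ ∀ i ∈ Finset.Ioo s t, ρ ≤ ‖orb n c c i - c‖ := by
    have h3 : ∀ᶠ ρ in 𝓝[>] ‖orb n c c t - c‖, ∀ i ∈ Finset.Ioo s t, ρ ≤ ‖orb n c c i - c‖ := by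
      rw [eventually_all_finset]
      intro i hi
      rw [Finset.mem_Ioo] at hi
      have h4 : ‖orb n c c t - c‖ < ‖orb n c c i - c‖ := not_le.mp (hs4 i hi.1 (by omega))
      exact mem_nhdsWithin_of_mem_nhds (Iic_mem_nhds h4)
    obtain ⟨ρ, h5, h6⟩ := (h3.and self_mem_nhdsWithin).exists
    exact ⟨ρ, h6, h5⟩
  obtain ⟨ρ, hρ1, hρ2⟩ := hρ
  have hst : s + (t - s) = t := by omega
  have hret : Ret n c ρ (orb n c c s) (t - s) := by
    refine ⟨by omega, ?_, ?_⟩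
    · intro i a b
      rw [← orb_add]
      exact hρ2 _ (by rw [Finset.mem_Ioo]; omega)
    · rw [← orb_add, hst]; exact hρ1
  have hPs := ih s (by omega) hs1 (by omega)
  have hsplit : ‖P n c c t‖ = ‖P n c c s‖ * ‖P n c (orb n c c s) (t - s)‖ := by
    rw [← norm_P_add, hst]
  have hone : 1 ≤ ‖P n c (orb n c c s) (t - s)‖ := by
    obtain ⟨ζ0, g, -, -, -, h⟩ := S'.gain (het.trans hρ1) hret (by omega) (by
      rw [← orb_add, hst, ← sub_ne_zero, ← norm_pos_iff]; exact het)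
    rw [← orb_add, hst] at h
    rcases h with h | ⟨ζ', -, -, h4, h5, -⟩
    · have h6 : 2 * ‖orb n c c t - c‖ ≤ ‖P n c (orb n c c s) (t - s)‖ * ‖orb n c c t - c‖ := by
        calc 2 * ‖orb n c c t - c‖ ≤ c0 * R / 8 * ‖orb n c c t - c‖ := by
              gcongr; exact S'.hlam
          _ ≤ _ := h
          _ ≤ _ := by gcongr
      have h7 := le_of_mul_le_mul_right h6 het
      linarith
    · have h6 := ih (t - s) (by omega) (by omega) (by omega)
      have hC := W.K.one_le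
      have h7 : ‖orb n c c t - c‖ * Kd ≤
          ‖orb n c c t - c‖ * (Kd * ‖P n c (orb n c c s) (t - s)‖) := by
        calc ‖orb n c c t - c‖ * Kd ≤ ‖orb n c c t - c‖ * ‖P n c c (t - s)‖ := by gcongr
          _ ≤ C0 * ‖orb n c c (t - s) - c‖ * ‖P n c (orb n c c s) (t - s)‖ := h5
          _ ≤ C0 * (Real.exp (R / 8) * ‖orb n c c t - c‖) * ‖P n c (orb n c c s) (t - s)‖ := by
              gcongr
          _ = ‖orb n c c t - c‖ * ((C0 * Real.exp (R / 8)) * ‖P n c (orb n c c s) (t - s)‖) := by ring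
          _ ≤ _ := by
              have := W.k8
              gcongr
      have h8 := le_of_mul_le_mul_left h7 het
      have h9 := W.Kpos
      by_contra hcon
      push Not at hcon
      nlinarith
  rw [hsplit]
  have h9 := W.Kpos
  nlinarith

end Pool.Agent.W746.LD
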