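import Mathlib
import Pool.Prelude.Def_F_c31e40fa
import Pool.Agent.W746.LD.Wrap
import Pool.Agent.H713R2.AR.HB

/-!
# The distance to the parameters with an attracting cycle
-/

set_option autoImplicit false
open Set Filter Topology Metric

namespace Pool.Agent.W746.LD

variable {n : ℕ} {c : ℂ} {C0 c0 R M L Q Kd : ℝ} {T : ℕ}

/-- The derivative of `t ↦ f_t^k(t)`. -/
theorem hasDerivAt_param (k : ℕ) (h : ∀ i ≤ k, P n c c i ≠ 0) :
    HasDerivAt (fun t => orb n t t k) (P n c c k * S n c c (k + 1)) c := by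
  induction k with
  | zero =>
    simp only [orb_zero, P_zero, zero_add, S_one, one_mul]
    exact hasDerivAt_id c
  | succ k ih =>
    have h1 := ih (fun i hi => h i (by omega))
    have h2 := (h1.pow n).add (hasDerivAt_id c)
    have h3 : (fun t => orb n t t (k + 1)) = (fun t => orb n t t k) ^ n + id := by
      funext t
      simp only [orb_succ, Pi.add_apply, Pi.pow_apply, id]
    rw [h3]
    convert! h2 using 1
    have h4 := h (k + 1) le_rfl
    rw [S_succ, mul_add, mul_inv_cancel₀ h4, P_succ]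
    ring

/-- The Schwarz lemma for non-vanishing functions. -/
theorem schwarz_log {F : ℂ → ℂ} {a : ℂ} {r B : ℝ} (hr : 0 < r)
    (hF : DifferentiableOn ℂ F (ball a r)) (h0 : ∀ t ∈ ball a r, F t ≠ 0)
    (hB : ∀ t ∈ ball a r, ‖F t‖ < B) :
    ‖deriv F a‖ * r ≤ 2 * ‖F a‖ * Real.log (B / ‖F a‖) := by
  have ham : a ∈ ball a r := mem_ball_self hr
  have hFa := h0 a ham
  have hFa' : 0 < ‖F a‖ := norm_pos_iff.mpr hFa
  have hB0 : 0 < B := hFa'.trans (hB a ham)
  obtain ⟨l, hl1, hl2, hl3⟩ := Pool.Agent.H712R2.M.exists_log_ball hr hF h0 (Complex.log (F a))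
    (Complex.exp_log hFa)
  have hre : ∀ t ∈ ball a r, (l t).re < Real.log B := by
    intro t ht
    have h1 : ‖F t‖ = Real.exp (l t).re := by rw [← hl3 t ht, Complex.norm_exp]
    rw [Real.lt_log_iff_exp_lt hB0, ← h1]
    exact hB t ht
  set v : ℂ → ℂ := fun t => (Real.log B : ℂ) - l t with hv
  have hvre : ∀ t ∈ ball a r, 0 < (v t).re := by
    intro t ht
    have := hre t ht
    simp only [hv, Complex.sub_re, Complex.ofReal_re]
    linarith
  have hvd : DifferentiableOn ℂ v (ball a r) := (differentiableOn_const _).sub hl1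
  set v0 := v a with hv0
  have hden : ∀ t ∈ ball a r, v t + (starRingEnd ℂ) v0 ≠ 0 := by
    intro t ht h
    have h1 := congrArg Complex.re h
    rw [Complex.add_re, Complex.conj_re, Complex.zero_re] at h1
    have h2 := hvre t ht
    have h3 := hvre a ham
    linarith
  set φ : ℂ → ℂ := fun t => (v t - v0) / (v t + (starRingEnd ℂ) v0) with hφ
  have hφd : DifferentiableOn ℂ φ (ball a r) :=
    (hvd.sub_const _).div (hvd.add_const _) hden
  have hφa : φ a = 0 := by simp [hφ, hv0]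
  have hmaps : MapsTo φ (ball a r) (ball (φ a) 1) := by
    intro t ht
    rw [hφa, mem_ball_zero_iff, hφ, norm_div, div_lt_one (norm_pos_iff.mpr (hden t ht))]
    have h1 : ‖v t - v0‖ ^ 2 < ‖v t + (starRingEnd ℂ) v0‖ ^ 2 := by
      rw [← Complex.normSq_eq_norm_sq, ← Complex.normSq_eq_norm_sq, Complex.normSq_apply,
        Complex.normSq_apply]
      simp only [Complex.sub_re, Complex.sub_im, Complex.add_re, Complex.add_im, Complex.conj_re,
        Complex.conj_im]
      have h2 := hvre t ht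
      have h3 := hvre a ham
      nlinarith [mul_pos h2 h3]
    exact lt_of_pow_lt_pow_left₀ 2 (norm_nonneg _) h1
  have h1 := Complex.norm_deriv_le_div_of_mapsTo_ball hφd (hmaps.mono_right ball_subset_closedBall) hr
  have hla : HasDerivAt l (deriv l a) a := (hl1.differentiableAt (isOpen_ball.mem_nhds ham)).hasDerivAt
  have hva : HasDerivAt v (-deriv l a) a := by
    have := hla.const_sub (Real.log B : ℂ)
    exact this
  have hden0 := hden a ham
  rw [← hv0] at hden0
  have hφ' : HasDerivAt φ (-deriv l a / (v0 + (starRingEnd ℂ) v0)) a := by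
    have h2 := (hva.sub_const v0).div (hva.add_const ((starRingEnd ℂ) v0)) hden0
    convert! h2 using 1
    rw [← hv0]
    field_simp
    ring
  have hsum : v0 + (starRingEnd ℂ) v0 = ((2 * v0.re : ℝ) : ℂ) := by
    rw [Complex.add_conj]
  have hv0re := hvre a ham
  rw [← hv0] at hv0re
  rw [hφ'.deriv, hsum, norm_div, norm_neg, Complex.norm_real, Real.norm_eq_abs,
    abs_of_pos (by positivity), div_le_div_iff₀ (by positivity) hr, one_mul] at h1
  have hFd : HasDerivAt F (F a * deriv l a) a := by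
    have h2 : HasDerivAt (fun t => Complex.exp (l t)) (Complex.exp (l a) * deriv l a) a := hla.cexp
    rw [hl3 a ham] at h2
    apply h2.congr_of_eventuallyEq
    filter_upwards [isOpen_ball.mem_nhds ham] with t ht
    exact (hl3 t ht).symm
  have hv0v : v0.re = Real.log (B / ‖F a‖) := by
    rw [Real.log_div hB0.ne' hFa'.ne', hv0, hv]
    simp only [Complex.sub_re, Complex.ofReal_re]
    have h2 : ‖F a‖ = Real.exp (l a).re := by rw [← hl3 a ham, Complex.norm_exp]
    rw [h2, Real.log_exp]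
  rw [hFd.deriv, norm_mul, ← hv0v]
  calc ‖F a‖ * ‖deriv l a‖ * r = ‖F a‖ * (‖deriv l a‖ * r) := by ring
    _ ≤ ‖F a‖ * (2 * v0.re) := by gcongr
    _ = _ := by ring

theorem P_eq_orb (hn : 2 ≤ n) (k : ℕ) (t : ℂ) : Pool.Agent.H712R2.P n (k + 1) t = orb n t t k := by
  induction k with
  | zero => rw [Pool.Agent.H712R2.P_one hn, orb_zero]
  | succ k ih => rw [Pool.Agent.H712R2.P_succ, ih, orb_succ]

theorem mem_multibrot_orb (hn : 2 ≤ n) {t : ℂ} (h : t ∈ N62a1eb23.multibrotSet n) (k : ℕ) :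
    ‖orb n t t k‖ ≤ 2 := by
  rw [← P_eq_orb hn]
  exact (Pool.Agent.H712R2.mem_multibrot_iff hn t).mp h _

/-- Lower bound for the sum at a closest return. -/
theorem Sett.sum_lower (s : Sett C0 c0 R Kd n c T) (L : Lev C0 c0 R Kd Q) (hc : ‖c‖ ≤ 2) {N j : ℕ}
    (hN1 : 1 ≤ N) (hNT : N ≤ T) (hN : ∀ i, 1 ≤ i → i < N → ‖orb n c c N - c‖ < ‖orb n c c i - c‖)
    (hj1 : lev Q (j + 1) ≤ ‖orb n c c N - c‖) (hj2 : ‖orb n c c N - c‖ < lev Q j) :
    (999 / 1000 : ℝ) ^ (j + 1) ≤ ‖S n c c N‖ := by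
  have hQ := L.Qpos
  have hQ4 := L.Q4
  have hKd := s.hKd
  have hR0 : 0 < R := by linarith [s.hR]
  have hC := s.K.one_le
  have hlj := lev_pos hQ j
  obtain ⟨M, hMN, hM⟩ := exists_ret hN1 hj2
  have hτ := s.tau_pos L hc j M hM (by omega)
  have heN := s.c_ne hN1 hNT
  rcases hMN.lt_or_eq with hlt | rfl
  · have h1 := s.S_bound (ρ := lev Q j) (θ := ‖orb n c c N - c‖) (B := 5 / 4 * ‖S n c c M‖) hlj heN
      (by positivity) (L.cond1 s.K hR0 heN (by
        rw [← lev_succ hQ j]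
        have h2 : Q * lev Q (j + 1) ≤ Q * ‖orb n c c N - c‖ := by gcongr
        have h3 : Q * ‖orb n c c N - c‖ ≤ Q ^ 2 * ‖orb n c c N - c‖ := by
          have : Q ≤ Q ^ 2 := by nlinarith
          gcongr
        have h4 : 0 ≤ Q ^ 2 * ‖orb n c c N - c‖ := by positivity
        linarith)) ((s.ilev L hc j).bound hM (by omega)) (N - M) (orb n c c M) (by omega) hM.2.2 (by
        intro i hi
        rw [← orb_add]
        rcases Nat.eq_zero_or_pos i with rfl | hi0
        · exact (hN M hM.1 hlt).le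
        · exact (hN (M + i) (by omega) (by omega)).le) (by
        rw [← orb_add, Nat.add_sub_cancel' hMN]; exact hj2)
    have h2 : S n c c N = S n c c M + (P n c c M)⁻¹ * S n c (orb n c c M) (N - M) := by
      rw [← S_add, Nat.add_sub_cancel' hMN]
    have hPM := s.D M hM.1 (by omega)
    have hPM0 : 0 < ‖P n c c M‖ := by linarith
    have h3 : ‖(P n c c M)⁻¹ * S n c (orb n c c M) (N - M)‖ ≤ 1 / 1000 * ‖S n c c M‖ := by
      have h4 : ‖(P n c c M)⁻¹ * S n c (orb n c c M) (N - M)‖ * ‖orb n c c N - c‖ ≤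
          (1 / 1000 * ‖S n c c M‖) * ‖orb n c c N - c‖ := by
        rw [norm_mul, norm_inv]
        have h5 : ‖P n c c M‖⁻¹ * Q ≤ 1 / 10000 := by
          rw [inv_mul_le_iff₀ hPM0]
          have h6 := L.k6' s.K hR0
          have h7 : 10000 * 1 * Q ≤ 10000 * C0 * Q := by gcongr
          linarith
        calc ‖P n c c M‖⁻¹ * ‖S n c (orb n c c M) (N - M)‖ * ‖orb n c c N - c‖
            = ‖P n c c M‖⁻¹ * (‖S n c (orb n c c M) (N - M)‖ * ‖orb n c c N - c‖) := by ring
          _ ≤ ‖P n c c M‖⁻¹ * (2 * (5 / 4 * ‖S n c c M‖) * ‖orb n c c M - c‖) := by gcongr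
          _ ≤ ‖P n c c M‖⁻¹ * (2 * (5 / 4 * ‖S n c c M‖) * (Q * ‖orb n c c N - c‖)) := by
              gcongr
              calc ‖orb n c c M - c‖ ≤ lev Q j := hM.2.2.le
                _ = Q * lev Q (j + 1) := (lev_succ hQ j).symm
                _ ≤ _ := by gcongr
          _ = 5 / 2 * ‖S n c c M‖ * (‖P n c c M‖⁻¹ * Q) * ‖orb n c c N - c‖ := by ring
          _ ≤ 5 / 2 * ‖S n c c M‖ * (1 / 10000) * ‖orb n c c N - c‖ := by gcongr
          _ ≤ _ := by
              have : 0 ≤ ‖S n c c M‖ * ‖orb n c c N - c‖ := by positivity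
              nlinarith
      exact le_of_mul_le_mul_right h4 heN
    have h5 : ‖S n c c M‖ - ‖(P n c c M)⁻¹ * S n c (orb n c c M) (N - M)‖ ≤ ‖S n c c N‖ := by
      rw [h2]
      have := norm_sub_norm_le (S n c c M) (-((P n c c M)⁻¹ * S n c (orb n c c M) (N - M)))
      rwa [sub_neg_eq_add, norm_neg] at this
    rw [pow_succ]
    nlinarith
  · rw [pow_succ]
    have : (0 : ℝ) ≤ (999 / 1000) ^ j := by positivity
    linarith

theorem diff_param (k : ℕ) : Differentiable ℂ (fun t => orb n t t k) := by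
  induction k with
  | zero => simp only [orb_zero]; exact differentiable_id
  | succ k ih =>
    simp only [orb_succ]
    exact (ih.pow n).add differentiable_id

/-- The radius of a ball without hyperbolic parameters. -/
theorem Sett.dist_bound (s : Sett C0 c0 R Kd n c T) (L : Lev C0 c0 R Kd Q)
    (hcM : c ∈ N62a1eb23.multibrotSet n) {N j : ℕ}
    (hN1 : 1 ≤ N) (hNT : N ≤ T) (hN : ∀ i, 1 ≤ i → i < N → ‖orb n c c N - c‖ < ‖orb n c c i - c‖)
    (hj1 : lev Q (j + 1) ≤ ‖orb n c c N - c‖) (hj2 : ‖orb n c c N - c‖ < lev Q j) {r : ℝ}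
    (hr : 0 < r)
    (hno : ∀ c' ∈ ball c r, ¬ ∃ m z, N62a1eb23.IsAttractingCycle (fun z => z ^ n + c') m z) :
    r * ‖P n c c N‖ * (999 / 1000 : ℝ) ^ (j + 1) ≤
      4 * ‖orb n c c N - c‖ * (2 + Real.log (1 / ‖orb n c c N - c‖)) := by
  have hn := s.hn
  have hc : ‖c‖ ≤ 2 := mem_multibrot_orb hn hcM 0
  have hlow := s.sum_lower L hc hN1 hNT hN hj1 hj2
  have heN := s.c_ne hN1 hNT
  have hsub := Pool.Agent.H713R2.AR.half_ball hn hr hcM hno
  obtain ⟨k, rfl⟩ : ∃ k, N = k + 1 := ⟨N - 1, by omega⟩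
  set B : ℝ := Real.exp (1 / ((n : ℝ) - 1)) with hB
  have hn1 : (1 : ℝ) ≤ (n : ℝ) - 1 := by
    have : (2 : ℝ) ≤ n := by exact_mod_cast hn
    linarith
  have hcast : ((n - 1 : ℕ) : ℝ) = (n : ℝ) - 1 := by
    rw [Nat.cast_sub (by omega)]; simp
  have hP0 : ∀ i ≤ k, P n c c i ≠ 0 := by
    intro i hi
    rcases Nat.eq_zero_or_pos i with rfl | hi0
    · simp
    · have h1 := s.D i hi0 (by omega)
      rw [← norm_pos_iff]; linarith [s.hKd]
  have hder := hasDerivAt_param k hP0
  have hFd : DifferentiableOn ℂ (fun t => orb n t t k) (ball c (r / 2)) := by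
    exact (diff_param k).differentiableOn
  have h0 : ∀ t ∈ ball c (r / 2), orb n t t k ≠ 0 := by
    intro t ht
    rw [← P_eq_orb hn]
    exact Pool.Agent.H713R2.AR.P_ne_zero hn (hno t (ball_subset_ball (by linarith) ht)) (by omega)
  have hlt : ∀ t ∈ ball c (r / 2), ‖orb n t t k‖ < B := by
    intro t ht
    have h1 := orbit_bound hn (fun k => mem_multibrot_orb hn (hsub ht) k) k
    have h2 : B ^ (n - 1) = Real.exp 1 := by
      rw [hB, ← Real.exp_nat_mul, hcast]
      congr 1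
      field_simp
    have h3 : ‖orb n t t k‖ ^ (n - 1) < B ^ (n - 1) := by
      rw [h2]
      have := Real.exp_one_gt_d9
      linarith
    exact lt_of_pow_lt_pow_left₀ _ (Real.exp_pos _).le h3
  have hS := schwarz_log (half_pos hr) hFd h0 hlt
  rw [hder.deriv, norm_mul] at hS
  set x := ‖orb n c c k‖ with hx
  have hx0 : 0 < x := norm_pos_iff.mpr (h0 c (mem_ball_self (half_pos hr)))
  have hex : ‖orb n c c (k + 1) - c‖ = x ^ n := norm_orb_succ_sub c k
  have hPs : ‖P n c c (k + 1)‖ = ‖P n c c k‖ * (n * x ^ (n - 1)) := by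
    rw [P_succ, norm_mul, norm_mul, Complex.norm_natCast, norm_pow]
  rw [hex] at heN ⊢
  have hnpos : (0 : ℝ) < n := by linarith
  have hxx : x ^ n = x ^ (n - 1) * x := by rw [← pow_succ, Nat.sub_add_cancel (by omega)]
  have hlog : (n : ℝ) * Real.log (B / x) ≤ 2 + Real.log (1 / x ^ n) := by
    rw [Real.log_div (Real.exp_pos _).ne' hx0.ne', Real.log_exp, one_div (x ^ n), Real.log_inv,
      Real.log_pow]
    have : (n : ℝ) * (1 / ((n : ℝ) - 1)) ≤ 2 := by
      rw [mul_one_div, div_le_iff₀ (by linarith)]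
      linarith
    rw [mul_sub]
    linarith
  have hSpos : 0 ≤ ‖S n c c (k + 1)‖ := norm_nonneg _
  calc r * ‖P n c c (k + 1)‖ * (999 / 1000 : ℝ) ^ (j + 1)
      ≤ r * ‖P n c c (k + 1)‖ * ‖S n c c (k + 1)‖ := by gcongr
    _ = 2 * (n * x ^ (n - 1)) * (‖P n c c k‖ * ‖S n c c (k + 1)‖ * (r / 2)) := by rw [hPs]; ring
    _ ≤ 2 * (n * x ^ (n - 1)) * (2 * x * Real.log (B / x)) := by gcongr
    _ = 4 * x ^ n * (n * Real.log (B / x)) := by rw [hxx]; ring
    _ ≤ _ := by gcongr

end Pool.Agent.W746.LD
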