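import Mathlib
import Pool.Agent.W746.LD.Final

/-!
# The main theorem
-/

set_option autoImplicit false
open Set Filter Topology Metric

namespace Pool.Agent.W746.LD

variable {n : ℕ} {c : ℂ}

/-- The numerical estimate. -/
theorem numeric {δ e Q : ℝ} {j : ℕ} (hδ : 0 < δ) (he : 0 < e) (hQ : Real.exp (1 / δ) ≤ Q)
    (hj : e < 7 / Q ^ j) :
    4 * e * (2 + Real.log (1 / e)) <
      (999 / 1000 : ℝ) ^ (j + 1) * ((8 * (2 + 1 / δ) * (7 : ℝ) ^ (2 * δ)) * e ^ (1 - 2 * δ)) := by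
  have hQ0 : 0 < Q := (Real.exp_pos _).trans_le hQ
  have hq : 0 < Q ^ j := by positivity
  have h7e : 0 < 7 / e := by positivity
  have hQj : Q ^ j ≤ 7 / e := by
    rw [lt_div_iff₀ hq] at hj
    rw [le_div_iff₀ he]
    linarith
  have he7 : 1 ≤ 7 / e := by
    refine le_trans ?_ hQj
    apply one_le_pow₀
    exact (Real.one_le_exp (by positivity)).trans hQ
  -- powers of `1000 / 999`
  have h1 : (1000 / 999 : ℝ) ^ j ≤ (7 / e) ^ δ := by
    have h2 : (1000 / 999 : ℝ) ≤ Q ^ δ := by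
      have h3 : Real.exp (1 / δ) ^ δ ≤ Q ^ δ := Real.rpow_le_rpow (Real.exp_pos _).le hQ hδ.le
      rw [← Real.exp_mul, one_div_mul_cancel hδ.ne'] at h3
      have := Real.exp_one_gt_d9
      linarith
    calc (1000 / 999 : ℝ) ^ j ≤ (Q ^ δ) ^ j := by gcongr
      _ = (Q ^ j) ^ δ := by
          rw [← Real.rpow_natCast (Q ^ δ), ← Real.rpow_mul hQ0.le, ← Real.rpow_natCast Q,
            ← Real.rpow_mul hQ0.le, mul_comm]
      _ ≤ _ := Real.rpow_le_rpow hq.le hQj hδ.le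
  have h2 : 1 / 2 < (999 / 1000 : ℝ) ^ (j + 1) * (7 / e) ^ δ := by
    have h3 : (999 / 1000 : ℝ) ^ j * (1000 / 999) ^ j = 1 := by
      rw [← mul_pow]; norm_num
    calc (1 / 2 : ℝ) < 999 / 1000 * ((999 / 1000 : ℝ) ^ j * (1000 / 999) ^ j) := by
          rw [h3]; norm_num
      _ = (999 / 1000 : ℝ) ^ (j + 1) * (1000 / 999) ^ j := by ring
      _ ≤ _ := by gcongr
  -- the logarithm
  have hpe : 1 ≤ (7 / e) ^ δ := Real.one_le_rpow he7 hδ.le
  have h3 : 2 + Real.log (1 / e) ≤ (2 + 1 / δ) * (7 / e) ^ δ := by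
    have h4 : Real.log (1 / e) ≤ (1 / e) ^ δ / δ := Real.log_le_rpow_div (by positivity) hδ
    have h5 : (1 / e) ^ δ ≤ (7 / e) ^ δ := by
      apply Real.rpow_le_rpow (by positivity) _ hδ.le
      gcongr; norm_num
    calc 2 + Real.log (1 / e) ≤ 2 * (7 / e) ^ δ + (7 / e) ^ δ / δ := by
          have : (1 / e) ^ δ / δ ≤ (7 / e) ^ δ / δ := by gcongr
          linarith
      _ = _ := by ring
  -- the power of `e`
  have h6 : e * ((7 / e) ^ δ * (7 / e) ^ δ) = (7 : ℝ) ^ (2 * δ) * e ^ (1 - 2 * δ) := by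
    rw [← Real.rpow_add h7e, ← two_mul, Real.div_rpow (by norm_num) he.le, Real.rpow_sub he,
      Real.rpow_one]
    ring
  calc 4 * e * (2 + Real.log (1 / e)) ≤ 4 * e * ((2 + 1 / δ) * (7 / e) ^ δ) := by gcongr
    _ = (1 / 2) * (8 * (2 + 1 / δ) * (e * (7 / e) ^ δ)) := by ring
    _ < ((999 / 1000 : ℝ) ^ (j + 1) * (7 / e) ^ δ) * (8 * (2 + 1 / δ) * (e * (7 / e) ^ δ)) := by
        gcongr
    _ = (999 / 1000 : ℝ) ^ (j + 1) * (8 * (2 + 1 / δ) * (e * ((7 / e) ^ δ * (7 / e) ^ δ))) := by ring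
    _ = _ := by rw [h6]; ring

theorem exists_level {Q e : ℝ} (hQ : 4 ≤ Q) (he : 0 < e) (he7 : e < 7) :
    ∃ j, lev Q (j + 1) ≤ e ∧ e < lev Q j := by
  have hex : ∃ j, 0 ≤ j ∧ lev Q (j + 1) ≤ e := by
    obtain ⟨j, hj⟩ := pow_unbounded_of_one_lt (7 / e) (show 1 < Q by linarith)
    refine ⟨j, Nat.zero_le _, ?_⟩
    have h1 : lev Q (j + 1) ≤ lev Q j := lev_anti (by linarith) (by omega)
    refine h1.trans ?_
    unfold lev
    rw [div_lt_iff₀ he] at hj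
    rw [div_le_iff₀ (by positivity)]
    linarith
  obtain ⟨j, -, h1, h2⟩ := exists_first hex
  refine ⟨j, h1, ?_⟩
  rcases Nat.eq_zero_or_pos j with rfl | hj
  · rwa [lev_zero]
  · have := h2 (j - 1) (Nat.zero_le _) (by omega)
    rw [Nat.sub_add_cancel hj] at this
    exact not_le.mp this

/-- `N` is a time of closest return of the critical value. -/
def Closest (n : ℕ) (c : ℂ) (N : ℕ) : Prop :=
  1 ≤ N ∧ ∀ i, 1 ≤ i → i < N → ‖orb n c c N - c‖ < ‖orb n c c i - c‖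

/-- The quantitative theorem. -/
theorem quant {ε : ℝ} (hε : 0 < ε) : ∃ K C : ℝ, 1 ≤ K ∧ 0 < C ∧ ∀ n : ℕ, 2 ≤ n →
    ∀ c ∈ N62a1eb23.multibrotSet n, ∀ N : ℕ, Closest n c N →
      (∀ k ≤ N, Closest n c k → K ≤ ‖P n c c k‖) →
      ∃ c' : ℂ, (∃ m z, N62a1eb23.IsAttractingCycle (fun z => z ^ n + c') m z) ∧
        ‖c' - c‖ * ‖P n c c N‖ ≤ C * ‖orb n c c N - c‖ ^ (1 - ε) := by
  have hδ : 0 < ε / 2 := by positivity
  obtain ⟨C0, c0, R, M, L, Q, Kd, W, hA⟩ := exists_consts (1 / (ε / 2))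
  set C : ℝ := 8 * (2 + 1 / (ε / 2)) * (7 : ℝ) ^ (2 * (ε / 2)) with hC
  have hCpos : 0 < C := by positivity
  have hK1 : 1 ≤ Kd := by
    have := W.k7
    have := W.hR
    linarith
  refine ⟨Kd, C, hK1, hCpos, ?_⟩
  intro n hn c hcM N hN hrec
  have hb := mem_multibrot_orb hn hcM
  obtain ⟨hRn, hD⟩ := W.all_large hn hb hN.1 (fun k h1 h2 h3 => hrec k h2 ⟨h1, h3⟩)
  have s : Sett C0 c0 R Kd n c N := W.sett hn (hb 0) hRn hD
  have heN := s.c_ne hN.1 le_rfl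
  have he7 : ‖orb n c c N - c‖ < 7 := by
    have h1 := norm_sub_le (orb n c c N) c
    have h2 := hb N
    have h3 := hb 0
    rw [orb_zero] at h3
    linarith
  obtain ⟨j, hj1, hj2⟩ := exists_level W.Q4 heN he7
  by_contra hcon
  push Not at hcon
  have hDN := hD N hN.1 le_rfl
  have hDN0 : 0 < ‖P n c c N‖ := by linarith
  set e := ‖orb n c c N - c‖ with he
  have hpow : 0 < e ^ (1 - ε) := Real.rpow_pos_of_pos heN _
  have hbd := s.dist_bound W.lev hcM hN.1 le_rfl hN.2 hj1 hj2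
    (r := C * e ^ (1 - ε) / ‖P n c c N‖) (by positivity) (by
      rintro c' hc' ⟨m, z, hmz⟩
      have h1 := hcon c' ⟨m, z, hmz⟩
      rw [mem_ball, dist_eq_norm, lt_div_iff₀ hDN0] at hc'
      linarith)
  rw [div_mul_cancel₀ _ hDN0.ne'] at hbd
  have hQe : Real.exp (1 / (ε / 2)) ≤ Q := (Real.exp_le_exp.mpr (by linarith)).trans W.hQ
  have hnum := numeric hδ heN hQe hj2
  rw [← hC] at hnum
  rw [show 2 * (ε / 2) = ε by ring] at hnum
  have : C * e ^ (1 - ε) * (999 / 1000 : ℝ) ^ (j + 1) =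
    (999 / 1000 : ℝ) ^ (j + 1) * (C * e ^ (1 - ε)) := by ring
  linarith

/-- A time of closest return before any given time. -/
theorem exists_closest {k : ℕ} (hk : 1 ≤ k) :
    ∃ N ≤ k, Closest n c N ∧ ‖orb n c c N - c‖ ≤ ‖orb n c c k - c‖ := by
  induction k using Nat.strong_induction_on with
  | _ k ih =>
  by_cases h : ∀ i, 1 ≤ i → i < k → ‖orb n c c k - c‖ < ‖orb n c c i - c‖
  · exact ⟨k, le_rfl, ⟨hk, h⟩, le_rfl⟩
  · push Not at h
    obtain ⟨i, h1, h2, h3⟩ := h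
    obtain ⟨N, h4, h5, h6⟩ := ih i h2 h1
    exact ⟨N, by omega, h5, h6.trans h3⟩

/-- The closure theorem for recurrent parameters. -/
theorem recurrent : ∃ K : ℝ, ∀ n : ℕ, 2 ≤ n → ∀ c ∈ N62a1eb23.multibrotSet n,
    (∀ δ : ℝ, 0 < δ → ∃ k, 1 ≤ k ∧ ‖orb n c c k - c‖ < δ) →
    (∀ k, Closest n c k → K ≤ ‖P n c c k‖) →
    c ∈ closure {c' : ℂ | ∃ m z, N62a1eb23.IsAttractingCycle (fun z => z ^ n + c') m z} := by
  obtain ⟨K, C, hK, hC, h⟩ := quant (ε := 1 / 2) (by norm_num)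
  refine ⟨K, ?_⟩
  intro n hn c hc hrec hlarge
  rw [Metric.mem_closure_iff]
  intro δ hδ
  obtain ⟨k, hk1, hk2⟩ := hrec ((δ / C) ^ 2 / 2) (by positivity)
  obtain ⟨N, hNk, hN, hNe⟩ := exists_closest (n := n) (c := c) hk1
  obtain ⟨c', h1, h2⟩ := h n hn c hc N hN (fun k _ hk => hlarge k hk)
  refine ⟨c', h1, ?_⟩
  rw [dist_comm, dist_eq_norm]
  have h3 := hlarge N hN
  have h4 : ‖c' - c‖ ≤ C * ‖orb n c c N - c‖ ^ (1 - 1 / 2 : ℝ) := by
    refine le_trans ?_ h2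
    have : 0 ≤ ‖c' - c‖ := norm_nonneg _
    nlinarith
  have h5 : ‖orb n c c N - c‖ ^ (1 - 1 / 2 : ℝ) < δ / C := by
    have h6 : (1 - 1 / 2 : ℝ) = 1 / 2 := by norm_num
    rw [h6, ← Real.sqrt_eq_rpow]
    rw [Real.sqrt_lt' (by positivity)]
    have : (0 : ℝ) < (δ / C) ^ 2 := by positivity
    linarith
  calc ‖c' - c‖ ≤ _ := h4
    _ < C * (δ / C) := by gcongr
    _ = δ := by field_simp

end Pool.Agent.W746.LD
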